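import Mathlib

/-!
Moments of products of independent standard Gaussians, and the Wick recursion.
-/

open MeasureTheory ProbabilityTheory

set_option linter.unusedSectionVars false
set_option linter.unusedSimpArgs false

namespace Pool.Agent.Lib.Pd47e08

/-- Moments of the standard Gaussian. -/
noncomputable def gm (k : ℕ) : ℝ := ∫ x, x ^ k ∂(gaussianReal 0 1)

lemma integrable_pow_gauss (k : ℕ) : Integrable (fun x : ℝ => x ^ k) (gaussianReal 0 1) := by
  have h := memLp_id_gaussianReal (μ := 0) (v := 1) k
  have h2 := h.integrable_norm_pow'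
  have h3 : Integrable (fun x : ℝ => ‖x‖ ^ k) (gaussianReal 0 1) := h2
  refine h3.mono' (by fun_prop) ?_
  exact Filter.Eventually.of_forall fun x => by simp

lemma gm_zero : gm 0 = 1 := by simp [gm]

lemma gm_one : gm 1 = 0 := by
  have := integral_id_gaussianReal (μ := 0) (v := 1)
  simpa [gm] using this

lemma integrable_pdf_pow (k : ℕ) :
    Integrable (fun x : ℝ => x ^ k * gaussianPDFReal 0 1 x) := by
  have h := integrable_pow_gauss k
  rw [gaussianReal_of_var_ne_zero 0 (one_ne_zero)] at h
  rw [integrable_withDensity_iff_integrable_smul' (measurable_gaussianPDF 0 1)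
    (Filter.Eventually.of_forall fun x => by simp [gaussianPDF])] at h
  refine h.congr (Filter.Eventually.of_forall fun x => ?_)
  simp only [gaussianPDF, smul_eq_mul]
  rw [ENNReal.toReal_ofReal (gaussianPDFReal_nonneg 0 1 x), mul_comm]

lemma hasDerivAt_pdf (x : ℝ) :
    HasDerivAt (gaussianPDFReal 0 1) (-x * gaussianPDFReal 0 1 x) x := by
  have h0 : gaussianPDFReal 0 1 = fun x : ℝ => (√(2 * Real.pi))⁻¹ * Real.exp (-x ^ 2 / 2) := by
    ext x
    simp [gaussianPDFReal]
  rw [h0]
  have h1 : HasDerivAt (fun x : ℝ => -x ^ 2 / 2) (-x) x := by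
    have h := ((hasDerivAt_pow 2 x).neg.div_const 2)
    have e : (-(((2 : ℕ) : ℝ) * x ^ (2 - 1))) / 2 = -x := by
      push_cast
      ring
    rw [e] at h
    exact h
  have h2 := (h1.exp).const_mul ((√(2 * Real.pi))⁻¹)
  have e2 : (√(2 * Real.pi))⁻¹ * (Real.exp (-x ^ 2 / 2) * -x)
      = -x * ((√(2 * Real.pi))⁻¹ * Real.exp (-x ^ 2 / 2)) := by ring
  rw [e2] at h2
  exact h2

lemma gm_succ_succ (k : ℕ) : gm (k + 2) = (k + 1) * gm k := by
  have e : ∀ j : ℕ, gm j = ∫ x : ℝ, x ^ j * gaussianPDFReal 0 1 x := by
    intro j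
    unfold gm
    rw [integral_gaussianReal_eq_integral_smul (one_ne_zero)]
    simp only [smul_eq_mul, mul_comm]
  have h := integral_mul_deriv_eq_deriv_mul_of_integrable
    (u := fun x : ℝ => x ^ (k + 1)) (v := gaussianPDFReal 0 1)
    (u' := fun x : ℝ => (k + 1) * x ^ k) (v' := fun x => -x * gaussianPDFReal 0 1 x)
    (fun x _ => by simpa using hasDerivAt_pow (k + 1) x)
    (fun x _ => hasDerivAt_pdf x)
    (by
      have := (integrable_pdf_pow (k + 2)).neg
      refine this.congr (Filter.Eventually.of_forall fun x => ?_)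
      simp only [Pi.neg_apply, Pi.mul_apply]
      ring)
    (by
      have := (integrable_pdf_pow k).const_mul ((k : ℝ) + 1)
      refine this.congr (Filter.Eventually.of_forall fun x => ?_)
      simp only [Pi.mul_apply]
      ring)
    (integrable_pdf_pow (k + 1))
  rw [e, e]
  have h1 : ∫ x : ℝ, x ^ (k + 1) * (-x * gaussianPDFReal 0 1 x)
      = - ∫ x : ℝ, x ^ (k + 2) * gaussianPDFReal 0 1 x := by
    rw [← integral_neg]
    congr 1
    ext x
    ring
  have h2 : ∫ x : ℝ, ((k : ℝ) + 1) * x ^ k * gaussianPDFReal 0 1 x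
      = (k + 1) * ∫ x : ℝ, x ^ k * gaussianPDFReal 0 1 x := by
    rw [← integral_const_mul]
    congr 1
    ext x
    ring
  rw [h1, h2] at h
  linarith

lemma gm_nonneg (k : ℕ) : 0 ≤ gm k := by
  induction k using Nat.strong_induction_on with
  | _ k ih =>
    match k, ih with
    | 0, _ => rw [gm_zero]; norm_num
    | 1, _ => rw [gm_one]
    | (k + 2), ih =>
      rw [gm_succ_succ]
      have := ih k (by omega)
      positivity

section W

variable {α : Type*} [Fintype α] [DecidableEq α]

/-- Expectation of a product of independent standard Gaussians indexed by a word. -/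
noncomputable def W (l : List α) : ℝ := ∏ y : α, gm (l.count y)

lemma W_nonneg (l : List α) : 0 ≤ W l := Finset.prod_nonneg fun _ _ => gm_nonneg _

lemma W_nil : W ([] : List α) = 1 := by simp [W, gm_zero]

lemma prod_map_eq (l : List α) (Z : α → ℝ) : (l.map Z).prod = ∏ y : α, Z y ^ l.count y := by
  rw [Finset.prod_list_map_count]
  apply Finset.prod_subset (Finset.subset_univ _)
  intro x _ hx
  rw [List.mem_toFinset] at hx
  rw [List.count_eq_zero_of_not_mem hx, pow_zero]

lemma integrable_prod_map (l : List α) :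
    Integrable (fun Z : α → ℝ => (l.map Z).prod)
      (Measure.pi fun _ : α => gaussianReal 0 1) := by
  simp_rw [prod_map_eq]
  exact Integrable.fintype_prod (f := fun y (x : ℝ) => x ^ l.count y)
    (fun y => integrable_pow_gauss _)

lemma integral_prod_map (l : List α) :
    ∫ Z : α → ℝ, (l.map Z).prod ∂(Measure.pi fun _ : α => gaussianReal 0 1) = W l := by
  simp_rw [prod_map_eq]
  exact integral_fintype_prod_eq_prod (fun y (x : ℝ) => x ^ l.count y)

lemma W_perm {l l' : List α} (h : l.Perm l') : W l = W l' := by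
  unfold W
  exact Finset.prod_congr rfl fun y _ => by rw [h.count_eq]

lemma card_filter_getElem? (l : List α) (x : α) (N : ℕ) (hN : l.length ≤ N) :
    ((Finset.range N).filter fun j => l[j]? = some x).card = l.count x := by
  induction l generalizing N with
  | nil => simp
  | cons a t ih =>
    obtain ⟨N', rfl⟩ : ∃ N', N = N' + 1 := ⟨N - 1, by simp at hN; omega⟩
    rw [Finset.card_filter, Finset.sum_range_succ']
    simp only [List.getElem?_cons_succ, List.getElem?_cons_zero, Option.some.injEq]
    rw [← Finset.card_filter, ih N' (by simp at hN; omega), List.count_cons]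
    simp only [beq_iff_eq]

lemma W_cons (x : α) (l : List α) (N : ℕ) (hN : l.length ≤ N) :
    W (x :: l) = ∑ j ∈ Finset.range N, if l[j]? = some x then W (l.eraseIdx j) else 0 := by
  rw [← Finset.sum_filter]
  have hterm : ∀ j ∈ (Finset.range N).filter (fun j => l[j]? = some x),
      W (l.eraseIdx j) = gm (l.count x - 1) * ∏ y ∈ Finset.univ.erase x, gm (l.count y) := by
    intro j hj
    rw [Finset.mem_filter] at hj
    obtain ⟨hlt, hget⟩ := List.getElem?_eq_some_iff.mp hj.2
    have hp : (l[j] :: l.eraseIdx j).Perm l := List.getElem_cons_eraseIdx_perm hlt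
    rw [hget] at hp
    unfold W
    rw [← Finset.mul_prod_erase Finset.univ _ (Finset.mem_univ x)]
    congr 1
    · rw [← hp.count_eq x, List.count_cons_self, Nat.add_sub_cancel]
    · apply Finset.prod_congr rfl
      intro y hy
      rw [← hp.count_eq y, List.count_cons_of_ne (Finset.ne_of_mem_erase hy).symm]
  rw [Finset.sum_congr rfl hterm, Finset.sum_const, card_filter_getElem? l x N hN]
  unfold W
  rw [← Finset.mul_prod_erase Finset.univ _ (Finset.mem_univ x), List.count_cons_self]
  have h2 : ∏ y ∈ Finset.univ.erase x, gm ((x :: l).count y)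
      = ∏ y ∈ Finset.univ.erase x, gm (l.count y) := by
    apply Finset.prod_congr rfl
    intro y hy
    rw [List.count_cons_of_ne (Finset.ne_of_mem_erase hy).symm]
  rw [h2]
  rcases Nat.eq_zero_or_pos (l.count x) with h0 | h0
  · rw [h0]
    simp [gm_one]
  · obtain ⟨c, hc⟩ : ∃ c, l.count x = c + 1 := ⟨l.count x - 1, by omega⟩
    rw [hc]
    rw [gm_succ_succ]
    simp only [Nat.add_sub_cancel, nsmul_eq_mul]
    push_cast
    ring

end W

end Pool.Agent.Lib.Pd47e08
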