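import Pool.Agent.Lib.Pd47e08.Lift

/-!
Upper bound for the noise, lower bound for the signal.
-/

open MeasureTheory ProbabilityTheory Matrix Filter

set_option linter.unusedSectionVars false
set_option linter.unusedSimpArgs false

namespace Pool.Agent.Lib.Pd47e08

section Noise

variable {n l : ℕ}

lemma lam_le (h : l ≤ n) {k : ℕ} (hk : 1 ≤ k) (hl : 1 ≤ l) (j : ℕ) {B : ℝ} (hB : 0 < B)
    (Z : Finset (Fin n) → ℝ) :
    lam l (2 * k) Z ≤ (l : ℝ) / (k : ℝ) ^ 2 * ∑ c ∈ Col k,
      (B + Tc l k c (2 ^ (j + 1)) Z / B ^ (2 ^ (j + 2) - 1)) := by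
  obtain ⟨⟨a, ⟨v, hv, rfl⟩, ha⟩, _⟩ := isMaxFn_lam (n := n) h (2 * k) Z
  rw [ha, ← qf_eq]
  exact qf_le_traces hk hl Z v hv j hB

lemma noise_upper (h : l ≤ n) {k : ℕ} (hk : 1 ≤ k) (hkl : k ≤ l) (j : ℕ) (hj : 2 ^ (j + 1) ≤ n)
    (hj2 : n ≤ 2 ^ (j + 2)) (hn : 2 * n ^ l ≤ 2 ^ n) :
    ∫ Z : Finset (Fin n) → ℝ, lam l (2 * k) Z ∂(G (Finset (Fin n)))
      ≤ (l : ℝ) / (k : ℝ) ^ 2 * ((Col k).card * (2 * (2 * √((Dg n l k : ℝ) * (Cg * n))))) := by
  have hl : 1 ≤ l := hk.trans hkl
  have hn0 : 0 < n := lt_of_lt_of_le hl h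
  have hnR : (0 : ℝ) < n := by exact_mod_cast hn0
  have hC := Cg_pos
  have hD : 0 < Dg n l k := by
    unfold Dg
    exact Nat.mul_pos (Nat.choose_pos (by omega)) (Nat.choose_pos (by omega))
  have hDR : (0 : ℝ) < Dg n l k := by exact_mod_cast hD
  set B : ℝ := 2 * √((Dg n l k : ℝ) * (Cg * n)) with hB
  have hBpos : 0 < B := by
    rw [hB]
    have : 0 < √((Dg n l k : ℝ) * (Cg * n)) := Real.sqrt_pos.mpr (by positivity)
    linarith
  have hB2 : B ^ 2 = 4 * ((Dg n l k : ℝ) * (Cg * n)) := by
    rw [hB, mul_pow, Real.sq_sqrt (by positivity)]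
    norm_num
  set p := 2 ^ (j + 1) with hp
  have hp0 : 0 < p := by positivity
  have h2p : 2 ^ (j + 2) = 2 * p := by rw [hp, ← pow_succ']
  have hTc : ∀ c ∈ Col k, Integrable (fun Z => B + Tc (n := n) l k c p Z / B ^ (2 ^ (j + 2) - 1))
      (G (Finset (Fin n))) := by
    intro c _
    exact (integrable_const _).add ((Tc_bound hn0 l k c hp0 hj).1.div_const _)
  have hTi : ∀ c ∈ Col k, ∫ Z, (B + Tc (n := n) l k c p Z / B ^ (2 ^ (j + 2) - 1))
      ∂(G (Finset (Fin n))) ≤ 2 * B := by
    intro c _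
    rw [integral_add (integrable_const _) ((Tc_bound hn0 l k c hp0 hj).1.div_const _),
      integral_div]
    have h1 := (Tc_bound hn0 l k c hp0 hj).2
    have h2 : (n : ℝ) ^ (l - 1) * (Dg n l k : ℝ) ^ p * (2 * n * (Cg * n) ^ p)
        ≤ B ^ (2 * p) := by
      have hBe : B ^ (2 * p) = 4 ^ p * ((Dg n l k : ℝ) ^ p * (Cg * n) ^ p) := by
        rw [pow_mul, hB2, mul_pow, mul_pow (Dg n l k : ℝ)]
      rw [hBe]
      have h3 : (2 : ℝ) * n ^ l ≤ 4 ^ p := by
        have h4 : (2 : ℝ) * n ^ l ≤ 2 ^ n := by exact_mod_cast hn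
        have h5 : (2 : ℝ) ^ n ≤ 2 ^ (2 * p) := pow_le_pow_right₀ (by norm_num) (by omega)
        have h6 : (2 : ℝ) ^ (2 * p) = 4 ^ p := by
          rw [pow_mul]
          norm_num
        linarith
      have h7 : (n : ℝ) ^ (l - 1) * n = n ^ l := by
        rw [← pow_succ]
        congr 1
        omega
      calc (n : ℝ) ^ (l - 1) * (Dg n l k : ℝ) ^ p * (2 * n * (Cg * n) ^ p)
          = (2 * ((n : ℝ) ^ (l - 1) * n)) * ((Dg n l k : ℝ) ^ p * (Cg * n) ^ p) := by ring
        _ ≤ 4 ^ p * ((Dg n l k : ℝ) ^ p * (Cg * n) ^ p) := by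
            rw [h7]
            gcongr
    have h8 : (∫ Z, Tc (n := n) l k c p Z ∂(G (Finset (Fin n)))) / B ^ (2 ^ (j + 2) - 1) ≤ B := by
      rw [div_le_iff₀ (by positivity)]
      refine (h1.trans h2).trans (le_of_eq ?_)
      rw [h2p]
      have e : 2 * p = (2 * p - 1) + 1 := by omega
      calc B ^ (2 * p) = B ^ ((2 * p - 1) + 1) := by rw [← e]
        _ = _ := pow_succ' _ _
    simp only [integral_const, probReal_univ, smul_eq_mul, one_mul]
    linarith
  have hmain : ∫ Z : Finset (Fin n) → ℝ, lam l (2 * k) Z ∂(G (Finset (Fin n)))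
      ≤ ∫ Z : Finset (Fin n) → ℝ, (l : ℝ) / (k : ℝ) ^ 2 * ∑ c ∈ Col k,
        (B + Tc l k c p Z / B ^ (2 ^ (j + 2) - 1)) ∂(G (Finset (Fin n))) := by
    apply integral_mono (lam_integrable h k hkl)
    · exact (integrable_finsetSum _ hTc).const_mul _
    · intro Z
      exact lam_le h hk hl j hBpos Z
  refine hmain.trans ?_
  rw [integral_const_mul, integral_finsetSum _ hTc]
  have hs := Finset.sum_le_sum hTi
  rw [Finset.sum_const, nsmul_eq_mul] at hs
  gcongr

end Noise

section Signal

variable {n l : ℕ}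

lemma deg_lower {k : ℕ} (I : Finset (Fin n)) (hI : I.card = l) :
    l.choose k * (n - l).choose k ≤ (Finset.univ.filter fun J : {K : Finset (Fin n) // K.card = l} =>
      (symmDiff I J.1).card = 2 * k).card := by
  have hc : (Finset.univ \ I).card = n - l := by
    rw [← Finset.compl_eq_univ_sdiff, Finset.card_compl, Fintype.card_fin, hI]
  have hprod : l.choose k * (n - l).choose k
      = (Finset.powersetCard k I ×ˢ Finset.powersetCard k (Finset.univ \ I)).card := by
    rw [Finset.card_product, Finset.card_powersetCard, Finset.card_powersetCard, hc, hI]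
  rw [hprod]
  have hmem : ∀ p ∈ Finset.powersetCard k I ×ˢ Finset.powersetCard k (Finset.univ \ I),
      ((I \ p.1) ∪ p.2).card = I.card := by
    intro p hp
    rw [Finset.mem_product, Finset.mem_powersetCard, Finset.mem_powersetCard] at hp
    obtain ⟨⟨h1, h2⟩, h3, h4⟩ := hp
    rw [Finset.card_union_of_disjoint, Finset.card_sdiff_of_subset h1]
    · have := Finset.card_le_card h1
      omega
    · rw [Finset.disjoint_left]
      intro x hx hx2
      exact (Finset.mem_sdiff.mp (h3 hx2)).2 (Finset.mem_sdiff.mp hx).1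
  have hl : ∀ p ∈ Finset.powersetCard k I ×ˢ Finset.powersetCard k (Finset.univ \ I),
      symmDiff I ((I \ p.1) ∪ p.2) = p.1 ∪ p.2 := by
    intro p hp
    rw [Finset.mem_product, Finset.mem_powersetCard, Finset.mem_powersetCard] at hp
    obtain ⟨⟨h1, h2⟩, h3, h4⟩ := hp
    ext x
    have hx1 : x ∈ p.1 → x ∈ I := fun h => h1 h
    have hx2 : x ∈ p.2 → x ∉ I := fun h => (Finset.mem_sdiff.mp (h3 h)).2
    simp only [Finset.mem_symmDiff, Finset.mem_union, Finset.mem_sdiff]
    tauto
  refine Finset.card_le_card_of_injOn (fun p => if hp : ((I \ p.1) ∪ p.2).card = l then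
    (⟨(I \ p.1) ∪ p.2, hp⟩ : {K : Finset (Fin n) // K.card = l}) else ⟨I, hI⟩) ?_ ?_
  · intro p hp
    have hp' : p ∈ Finset.powersetCard k I ×ˢ Finset.powersetCard k (Finset.univ \ I) := hp
    have e1 : ((I \ p.1) ∪ p.2).card = l := by rw [hmem p hp', hI]
    simp only [Finset.coe_filter, Finset.mem_univ, true_and, Set.mem_ofPred_eq]
    rw [dif_pos e1]
    simp only
    rw [hl p hp', Finset.card_union_of_disjoint]
    · rw [Finset.mem_product, Finset.mem_powersetCard, Finset.mem_powersetCard] at hp'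
      omega
    · rw [Finset.mem_product, Finset.mem_powersetCard, Finset.mem_powersetCard] at hp'
      rw [Finset.disjoint_left]
      intro x hx hx2
      exact (Finset.mem_sdiff.mp (hp'.2.1 hx2)).2 (hp'.1.1 hx)
  · intro p hp q hq hpq
    have hp' : p ∈ Finset.powersetCard k I ×ˢ Finset.powersetCard k (Finset.univ \ I) := hp
    have hq' : q ∈ Finset.powersetCard k I ×ˢ Finset.powersetCard k (Finset.univ \ I) := hq
    have e1 : ((I \ p.1) ∪ p.2).card = l := by rw [hmem p hp', hI]
    have e2 : ((I \ q.1) ∪ q.2).card = l := by rw [hmem q hq', hI]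
    simp only at hpq
    rw [dif_pos e1, dif_pos e2] at hpq
    have e3 : (I \ p.1) ∪ p.2 = (I \ q.1) ∪ q.2 := congrArg Subtype.val hpq
    rw [Finset.mem_product, Finset.mem_powersetCard, Finset.mem_powersetCard] at hp' hq'
    have key : ∀ x, (x ∈ p.1 ↔ x ∈ q.1) ∧ (x ∈ p.2 ↔ x ∈ q.2) := by
      intro x
      have a1 : x ∈ p.1 → x ∈ I := fun h => hp'.1.1 h
      have a2 : x ∈ p.2 → x ∉ I := fun h => (Finset.mem_sdiff.mp (hp'.2.1 h)).2
      have b1 : x ∈ q.1 → x ∈ I := fun h => hq'.1.1 h
      have b2 : x ∈ q.2 → x ∉ I := fun h => (Finset.mem_sdiff.mp (hq'.2.1 h)).2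
      have c := Finset.ext_iff.mp e3 x
      simp only [Finset.mem_union, Finset.mem_sdiff] at c
      tauto
    exact Prod.ext (Finset.ext fun x => (key x).1) (Finset.ext fun x => (key x).2)

/-- The constant unit vector. -/
noncomputable def vconst (n l : ℕ) : {K : Finset (Fin n) // K.card = l} → ℝ :=
  fun _ => 1 / √(Fintype.card {K : Finset (Fin n) // K.card = l} : ℝ)

lemma signal_lower (h : l ≤ n) {k : ℕ} (hkl : k ≤ l) {s : ℝ} (hs : 0 ≤ s) :
    s * (l.choose k * (n - l).choose k : ℕ) ≤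
      ∫ Z : Finset (Fin n) → ℝ, lam l (2 * k) (fun S => s + Z S) ∂(G (Finset (Fin n))) := by
  have := nonempty_sub (n := n) h
  set N : ℝ := (Fintype.card {K : Finset (Fin n) // K.card = l} : ℝ) with hN
  have hNpos : 0 < N := by rw [hN]; exact_mod_cast Fintype.card_pos
  have hsq : (1 / √N) * (1 / √N) = 1 / N := by
    rw [div_mul_div_comm, one_mul, Real.mul_self_sqrt hNpos.le]
  have hv : dotProduct (vconst n l) (vconst n l) = 1 := by
    unfold dotProduct vconst
    rw [Finset.sum_const, Finset.card_univ, nsmul_eq_mul, ← hN, hsq]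
    field_simp
  have hcoord : ∀ S : Finset (Fin n), Integrable (fun Z : Finset (Fin n) → ℝ => Z S)
      (G (Finset (Fin n))) ∧ ∫ Z : Finset (Fin n) → ℝ, Z S ∂(G (Finset (Fin n))) = 0 := by
    intro S
    have hmp := measurePreserving_eval (fun _ : Finset (Fin n) => gaussianReal 0 1) S
    have hi : Integrable (fun x : ℝ => x) (gaussianReal 0 1) := by
      simpa using integrable_pow_gauss 1
    constructor
    · exact hmp.integrable_comp_of_integrable hi
    · have h0 : ∫ x : ℝ, x ∂(gaussianReal 0 1) = 0 := integral_id_gaussianReal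
      rw [← hmp.map_eq, integral_map hmp.measurable.aemeasurable] at h0
      · exact h0
      · rw [hmp.map_eq]
        exact hi.aestronglyMeasurable
  have hI1 : ∀ I J : {K : Finset (Fin n) // K.card = l}, Integrable (fun Z : Finset (Fin n) → ℝ =>
      if (symmDiff I.1 J.1).card = 2 * k then
        vconst n l I * vconst n l J * (s + Z (symmDiff I.1 J.1)) else 0) (G (Finset (Fin n))) := by
    intro I J
    split_ifs
    · exact ((integrable_const _).add (hcoord _).1).const_mul _
    · simp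
  have hqi : Integrable (fun Z : Finset (Fin n) → ℝ => qf (2 * k) (fun S => s + Z S) (vconst n l))
      (G (Finset (Fin n))) := by
    unfold qf
    exact integrable_finsetSum _ fun I _ => integrable_finsetSum _ fun J _ => hI1 I J
  have hlami : Integrable (fun Z : Finset (Fin n) → ℝ => lam l (2 * k) (fun S => s + Z S))
      (G (Finset (Fin n))) := by
    have hm := isMaxFn_lam (n := n) h (2 * k)
    have hA := coef_bound (n := n) k hkl
    have hcont : Continuous (fun Z : Finset (Fin n) → ℝ => lam l (2 * k) (fun S => s + Z S)) :=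
      (hm.continuous (by positivity) hA).comp (by fun_prop)
    have hdom : Integrable (fun Z : Finset (Fin n) → ℝ =>
        |lam l (2 * k) Z| + ((l.choose k : ℝ) * 2 ^ k) * ∑ _S : Finset (Fin n), |s|)
        (G (Finset (Fin n))) :=
      (lam_integrable h k hkl).abs.add (integrable_const _)
    refine hdom.mono' hcont.aestronglyMeasurable (Eventually.of_forall fun Z => ?_)
    have h1 := hm.abs_sub_le (by positivity) hA (fun S => s + Z S) Z
    rw [Real.norm_eq_abs]
    have h2 : |lam l (2 * k) (fun S => s + Z S)| ≤ |lam l (2 * k) Z|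
        + |lam l (2 * k) (fun S => s + Z S) - lam l (2 * k) Z| := by
      have := abs_add_le (lam l (2 * k) Z) (lam l (2 * k) (fun S => s + Z S) - lam l (2 * k) Z)
      simpa using this
    simp only [add_sub_cancel_right] at h1
    linarith
  have hmono : ∫ Z : Finset (Fin n) → ℝ, qf (2 * k) (fun S => s + Z S) (vconst n l)
      ∂(G (Finset (Fin n))) ≤ ∫ Z : Finset (Fin n) → ℝ, lam l (2 * k) (fun S => s + Z S)
      ∂(G (Finset (Fin n))) :=
    integral_mono hqi hlami fun Z => qf_le_lam h (2 * k) _ hv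
  refine le_trans ?_ hmono
  have hval : ∫ Z : Finset (Fin n) → ℝ, qf (2 * k) (fun S => s + Z S) (vconst n l)
      ∂(G (Finset (Fin n)))
      = ∑ I : {K : Finset (Fin n) // K.card = l}, ∑ J : {K : Finset (Fin n) // K.card = l},
        if (symmDiff I.1 J.1).card = 2 * k then 1 / N * s else 0 := by
    unfold qf
    rw [integral_finsetSum _ fun I _ => integrable_finsetSum _ fun J _ => hI1 I J]
    apply Finset.sum_congr rfl
    intro I _
    rw [integral_finsetSum _ fun J _ => hI1 I J]
    apply Finset.sum_congr rfl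
    intro J _
    split_ifs
    · rw [integral_const_mul, integral_add (integrable_const _) (hcoord _).1, (hcoord _).2]
      simp only [integral_const, probReal_univ, smul_eq_mul, one_mul, add_zero]
      unfold vconst
      rw [← hN, hsq]
    · simp
  rw [hval]
  have hsum : ∀ I : {K : Finset (Fin n) // K.card = l},
      1 / N * s * (l.choose k * (n - l).choose k : ℕ)
      ≤ ∑ J : {K : Finset (Fin n) // K.card = l},
        if (symmDiff I.1 J.1).card = 2 * k then 1 / N * s else 0 := by
    intro I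
    rw [← Finset.sum_filter, Finset.sum_const, nsmul_eq_mul, mul_comm]
    have := deg_lower (k := k) I.1 I.2
    have h2 : ((l.choose k * (n - l).choose k : ℕ) : ℝ)
        ≤ ((Finset.univ.filter fun J : {K : Finset (Fin n) // K.card = l} =>
      (symmDiff I.1 J.1).card = 2 * k).card : ℝ) := by exact_mod_cast this
    gcongr
  refine le_trans (le_of_eq ?_) (Finset.sum_le_sum fun I _ => hsum I)
  rw [Finset.sum_const, Finset.card_univ, nsmul_eq_mul, ← hN]
  field_simp

end Signal

end Pool.Agent.Lib.Pd47e08
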