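import Mathlib

/-!
Efron-Stein inequality for standard Gaussian product measures and its consequence for
suprema of linear functions.
-/

open MeasureTheory ProbabilityTheory

set_option linter.unusedSectionVars false
set_option linter.unusedSimpArgs false

namespace Pool.Agent.Lib.Pd47e08

section ES

variable {ι : Type*} [Fintype ι] [DecidableEq ι]

/-- Standard Gaussian measure on `ι → ℝ`. -/
noncomputable abbrev G (ι : Type*) [Fintype ι] : Measure (ι → ℝ) :=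
  Measure.pi (fun _ : ι => gaussianReal 0 1)

/-- Two independent copies. -/
noncomputable abbrev G2 (ι : Type*) [Fintype ι] : Measure (ι → ℝ × ℝ) :=
  Measure.pi (fun _ : ι => (gaussianReal 0 1).prod (gaussianReal 0 1))

/-- Hybrid of the two copies. -/
def hyb (B : Finset ι) (ω : ι → ℝ × ℝ) : ι → ℝ := fun i => if i ∈ B then (ω i).2 else (ω i).1

/-- Swapping the two copies on `B`. -/
def sw (B : Finset ι) (ω : ι → ℝ × ℝ) : ι → ℝ × ℝ := fun i => if i ∈ B then (ω i).swap else ω i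

lemma mp_hyb (B : Finset ι) : MeasurePreserving (hyb B) (G2 ι) (G ι) := by
  have h : ∀ i : ι, MeasurePreserving (fun p : ℝ × ℝ => if i ∈ B then p.2 else p.1)
      ((gaussianReal 0 1).prod (gaussianReal 0 1)) (gaussianReal 0 1) := by
    intro i
    by_cases hi : i ∈ B
    · simp only [hi, if_true]
      exact measurePreserving_snd
    · simp only [hi, if_false]
      exact measurePreserving_fst
  exact measurePreserving_pi _ _ h

lemma mp_sw (B : Finset ι) : MeasurePreserving (sw B) (G2 ι) (G2 ι) := by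
  have h : ∀ i : ι, MeasurePreserving (fun p : ℝ × ℝ => if i ∈ B then p.swap else p)
      ((gaussianReal 0 1).prod (gaussianReal 0 1)) ((gaussianReal 0 1).prod (gaussianReal 0 1)) := by
    intro i
    by_cases hi : i ∈ B
    · simp only [hi, if_true]
      exact Measure.measurePreserving_swap
    · simp only [hi, if_false]
      exact MeasurePreserving.id _
  exact measurePreserving_pi _ _ h

lemma hyb_sw_singleton (B : Finset ι) {k : ι} (hk : k ∉ B) (ω : ι → ℝ × ℝ) :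
    hyb B (sw {k} ω) = hyb (insert k B) ω := by
  funext i
  by_cases hik : i = k
  · subst hik
    simp [hyb, sw, hk]
  · simp [hyb, sw, hik]

lemma hyb_insert_sw_singleton (B : Finset ι) {k : ι} (hk : k ∉ B) (ω : ι → ℝ × ℝ) :
    hyb (insert k B) (sw {k} ω) = hyb B ω := by
  funext i
  by_cases hik : i = k
  · subst hik
    simp [hyb, sw, hk]
  · simp [hyb, sw, hik]

lemma hyb_empty_sw (B : Finset ι) (ω : ι → ℝ × ℝ) : hyb ∅ (sw B ω) = hyb B ω := by
  funext i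
  by_cases hi : i ∈ B <;> simp [hyb, sw, hi]

lemma hyb_singleton_sw (B : Finset ι) {k : ι} (hk : k ∉ B) (ω : ι → ℝ × ℝ) :
    hyb {k} (sw B ω) = hyb (insert k B) ω := by
  funext i
  by_cases hik : i = k
  · subst hik
    simp [hyb, sw, hk]
  · by_cases hi : i ∈ B <;> simp [hyb, sw, hi, hik]

variable {f : (ι → ℝ) → ℝ}

lemma memLp_hyb (hf : MemLp f 2 (G ι)) (B : Finset ι) : MemLp (fun ω => f (hyb B ω)) 2 (G2 ι) :=
  hf.comp_measurePreserving (mp_hyb B)

lemma integral_hyb (g : (ι → ℝ) → ℝ) (hg : AEStronglyMeasurable g (G ι)) (B : Finset ι) :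
    ∫ ω, g (hyb B ω) ∂(G2 ι) = ∫ Z, g Z ∂(G ι) := by
  rw [← (mp_hyb B).map_eq, integral_map (mp_hyb B).measurable.aemeasurable]
  rwa [(mp_hyb B).map_eq]

lemma integral_sw (g : (ι → ℝ × ℝ) → ℝ) (hg : AEStronglyMeasurable g (G2 ι)) (B : Finset ι) :
    ∫ ω, g (sw B ω) ∂(G2 ι) = ∫ ω, g ω ∂(G2 ι) := by
  conv_rhs => rw [← (mp_sw B).map_eq]
  rw [integral_map (mp_sw B).measurable.aemeasurable]
  rwa [(mp_sw B).map_eq]

lemma es_step (hf : MemLp f 2 (G ι)) (B : Finset ι) {k : ι} (hk : k ∉ B) :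
    ∫ ω, f (hyb ∅ ω) * (f (hyb B ω) - f (hyb (insert k B) ω)) ∂(G2 ι)
      ≤ (1 / 2) * ∫ ω, (f (hyb ∅ ω) - f (hyb {k} ω)) ^ 2 ∂(G2 ι) := by
  have ha := memLp_hyb hf ∅
  have hak := memLp_hyb hf {k}
  have hb := memLp_hyb hf B
  have hb' := memLp_hyb hf (insert k B)
  have hd := ha.sub hak
  have hd' := hb.sub hb'
  have i1 : Integrable (fun ω => f (hyb ∅ ω) * (f (hyb B ω) - f (hyb (insert k B) ω))) (G2 ι) :=
    ha.integrable_mul hd'
  have i2 : Integrable (fun ω => f (hyb {k} ω) * (f (hyb B ω) - f (hyb (insert k B) ω))) (G2 ι) :=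
    hak.integrable_mul hd'
  have i3 : Integrable (fun ω => (f (hyb ∅ ω) - f (hyb {k} ω)) ^ 2) (G2 ι) := hd.integrable_sq
  have i4 : Integrable (fun ω => (f (hyb B ω) - f (hyb (insert k B) ω)) ^ 2) (G2 ι) :=
    hd'.integrable_sq
  have e1 : ∫ ω, f (hyb ∅ ω) * (f (hyb B ω) - f (hyb (insert k B) ω)) ∂(G2 ι)
      = - ∫ ω, f (hyb {k} ω) * (f (hyb B ω) - f (hyb (insert k B) ω)) ∂(G2 ι) := by
    rw [← integral_sw _ i1.aestronglyMeasurable {k}, ← integral_neg]
    apply integral_congr_ae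
    refine Filter.Eventually.of_forall fun ω => ?_
    simp only
    rw [hyb_sw_singleton B hk, hyb_insert_sw_singleton B hk, hyb_empty_sw]
    ring
  have e2 : ∫ ω, (f (hyb B ω) - f (hyb (insert k B) ω)) ^ 2 ∂(G2 ι)
      = ∫ ω, (f (hyb ∅ ω) - f (hyb {k} ω)) ^ 2 ∂(G2 ι) := by
    rw [← integral_sw _ i3.aestronglyMeasurable B]
    apply integral_congr_ae
    refine Filter.Eventually.of_forall fun ω => ?_
    simp only
    rw [hyb_empty_sw, hyb_singleton_sw B hk]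
  have e3 : ∫ ω, f (hyb ∅ ω) * (f (hyb B ω) - f (hyb (insert k B) ω)) ∂(G2 ι)
        - ∫ ω, f (hyb {k} ω) * (f (hyb B ω) - f (hyb (insert k B) ω)) ∂(G2 ι)
      ≤ (1 / 2) * ∫ ω, (f (hyb ∅ ω) - f (hyb {k} ω)) ^ 2 ∂(G2 ι)
        + (1 / 2) * ∫ ω, (f (hyb B ω) - f (hyb (insert k B) ω)) ^ 2 ∂(G2 ι) := by
    rw [← integral_sub i1 i2, ← integral_const_mul, ← integral_const_mul,
      ← integral_add (i3.const_mul _) (i4.const_mul _)]
    apply integral_mono (i1.sub i2) ((i3.const_mul _).add (i4.const_mul _))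
    intro ω
    simp only [Pi.sub_apply, Pi.add_apply]
    nlinarith [sq_nonneg ((f (hyb ∅ ω) - f (hyb {k} ω)) - (f (hyb B ω) - f (hyb (insert k B) ω)))]
  rw [e2] at e3
  linarith

lemma es_sum (hf : MemLp f 2 (G ι)) (B : Finset ι) :
    ∫ ω, f (hyb ∅ ω) * (f (hyb ∅ ω) - f (hyb B ω)) ∂(G2 ι)
      ≤ (1 / 2) * ∑ k ∈ B, ∫ ω, (f (hyb ∅ ω) - f (hyb {k} ω)) ^ 2 ∂(G2 ι) := by
  induction B using Finset.induction_on with
  | empty => simp
  | insert k B hk ih =>
    have ha := memLp_hyb hf ∅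
    have hb := memLp_hyb hf B
    have hb' := memLp_hyb hf (insert k B)
    have i1 : Integrable (fun ω => f (hyb ∅ ω) * (f (hyb B ω) - f (hyb (insert k B) ω))) (G2 ι) :=
      ha.integrable_mul (hb.sub hb')
    have i2 : Integrable (fun ω => f (hyb ∅ ω) * (f (hyb ∅ ω) - f (hyb B ω))) (G2 ι) :=
      ha.integrable_mul (ha.sub hb)
    rw [Finset.sum_insert hk, mul_add]
    have := es_step hf B hk
    calc ∫ ω, f (hyb ∅ ω) * (f (hyb ∅ ω) - f (hyb (insert k B) ω)) ∂(G2 ι)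
        = ∫ ω, (f (hyb ∅ ω) * (f (hyb ∅ ω) - f (hyb B ω))
            + f (hyb ∅ ω) * (f (hyb B ω) - f (hyb (insert k B) ω))) ∂(G2 ι) := by
          apply integral_congr_ae
          refine Filter.Eventually.of_forall fun ω => ?_
          simp only
          ring
      _ = ∫ ω, f (hyb ∅ ω) * (f (hyb ∅ ω) - f (hyb B ω)) ∂(G2 ι)
            + ∫ ω, f (hyb ∅ ω) * (f (hyb B ω) - f (hyb (insert k B) ω)) ∂(G2 ι) :=
          integral_add i2 i1
      _ ≤ _ := by linarith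

lemma integral_copies (f : (ι → ℝ) → ℝ) :
    ∫ ω, f (hyb ∅ ω) * f (hyb Finset.univ ω) ∂(G2 ι) = (∫ Z, f Z ∂(G ι)) ^ 2 := by
  have hmp := measurePreserving_arrowProdEquivProdArrow ℝ ℝ ι (fun _ => gaussianReal 0 1)
    (fun _ => gaussianReal 0 1)
  have h1 : ∫ ω, f (hyb ∅ ω) * f (hyb Finset.univ ω) ∂(G2 ι)
      = ∫ p, f p.1 * f p.2 ∂((G ι).prod (G ι)) := by
    rw [← hmp.map_eq, integral_map_equiv]
    apply integral_congr_ae
    refine Filter.Eventually.of_forall fun ω => ?_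
    have h3 : hyb ∅ ω = fun i => (ω i).1 := by funext i; simp [hyb]
    have h4 : hyb Finset.univ ω = fun i => (ω i).2 := by funext i; simp [hyb]
    beta_reduce
    rw [h3, h4]
    rfl
  rw [h1, integral_prod_mul, sq]

/-- The Efron-Stein inequality. -/
lemma efron_stein (hf : MemLp f 2 (G ι)) :
    ∫ Z, (f Z - ∫ Z, f Z ∂(G ι)) ^ 2 ∂(G ι)
      ≤ (1 / 2) * ∑ k, ∫ ω, (f (hyb ∅ ω) - f (hyb {k} ω)) ^ 2 ∂(G2 ι) := by
  have h := es_sum hf Finset.univ
  refine le_trans (le_of_eq ?_) h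
  have ha := memLp_hyb hf ∅
  have hb := memLp_hyb hf Finset.univ
  have i1 : Integrable (fun ω => f (hyb ∅ ω) * f (hyb ∅ ω)) (G2 ι) := ha.integrable_mul ha
  have i2 : Integrable (fun ω => f (hyb ∅ ω) * f (hyb Finset.univ ω)) (G2 ι) :=
    ha.integrable_mul hb
  have e1 : ∫ ω, f (hyb ∅ ω) * (f (hyb ∅ ω) - f (hyb Finset.univ ω)) ∂(G2 ι)
      = ∫ ω, f (hyb ∅ ω) * f (hyb ∅ ω) ∂(G2 ι)
        - ∫ ω, f (hyb ∅ ω) * f (hyb Finset.univ ω) ∂(G2 ι) := by
    rw [← integral_sub i1 i2]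
    apply integral_congr_ae
    refine Filter.Eventually.of_forall fun ω => ?_
    simp only
    ring
  have hfi : Integrable f (G ι) := hf.integrable (by norm_num)
  have hff : Integrable (fun Z => f Z ^ 2) (G ι) := hf.integrable_sq
  rw [e1, integral_copies f]
  have e2 : ∫ ω, f (hyb ∅ ω) * f (hyb ∅ ω) ∂(G2 ι) = ∫ Z, f Z ^ 2 ∂(G ι) := by
    rw [← integral_hyb (fun Z => f Z ^ 2) hff.aestronglyMeasurable ∅]
    apply integral_congr_ae
    refine Filter.Eventually.of_forall fun ω => ?_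
    simp only
    ring
  rw [e2]
  set c := ∫ Z, f Z ∂(G ι) with hc
  have e3 : ∀ Z, (f Z - c) ^ 2 = f Z ^ 2 - 2 * c * f Z + c ^ 2 := fun Z => by ring
  simp only [e3]
  have i3 : Integrable (fun Z => 2 * c * f Z) (G ι) := hfi.const_mul _
  have i4 : Integrable (fun Z => f Z ^ 2 - 2 * c * f Z) (G ι) := hff.sub i3
  rw [integral_add i4 (integrable_const _), integral_sub hff i3, integral_const_mul, ← hc]
  simp
  ring

lemma es_pos_part (hf : MemLp f 2 (G ι)) (k : ι) :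
    (1 / 2) * ∫ ω, (f (hyb ∅ ω) - f (hyb {k} ω)) ^ 2 ∂(G2 ι)
      = ∫ ω, (max 0 (f (hyb ∅ ω) - f (hyb {k} ω))) ^ 2 ∂(G2 ι) := by
  have ha := memLp_hyb hf ∅
  have hb := memLp_hyb hf {k}
  have hd : MemLp (fun ω => f (hyb ∅ ω) - f (hyb {k} ω)) 2 (G2 ι) := ha.sub hb
  have hd2 : MemLp (fun ω => f (hyb {k} ω) - f (hyb ∅ ω)) 2 (G2 ι) := hb.sub ha
  have hp : MemLp (fun ω => max 0 (f (hyb ∅ ω) - f (hyb {k} ω))) 2 (G2 ι) := by
    have := hd.pos_part
    refine this.congr_norm ?_ ?_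
    · exact (aestronglyMeasurable_const.sup hd.aestronglyMeasurable)
    · refine Filter.Eventually.of_forall fun ω => ?_
      rw [max_comm]
  have hn : MemLp (fun ω => max 0 (f (hyb {k} ω) - f (hyb ∅ ω))) 2 (G2 ι) := by
    have := hd2.pos_part
    refine this.congr_norm ?_ ?_
    · exact (aestronglyMeasurable_const.sup hd2.aestronglyMeasurable)
    · refine Filter.Eventually.of_forall fun ω => ?_
      rw [max_comm]
  have i1 := hp.integrable_sq
  have i2 := hn.integrable_sq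
  have e1 : ∫ ω, (max 0 (f (hyb {k} ω) - f (hyb ∅ ω))) ^ 2 ∂(G2 ι)
      = ∫ ω, (max 0 (f (hyb ∅ ω) - f (hyb {k} ω))) ^ 2 ∂(G2 ι) := by
    rw [← integral_sw _ i1.aestronglyMeasurable {k}]
    apply integral_congr_ae
    refine Filter.Eventually.of_forall fun ω => ?_
    simp only
    have h1 : hyb {k} (sw {k} ω) = hyb ∅ ω := by
      have := hyb_insert_sw_singleton ∅ (Finset.notMem_empty k) ω
      simpa using this
    rw [h1, hyb_empty_sw]
  have e2 : ∫ ω, (f (hyb ∅ ω) - f (hyb {k} ω)) ^ 2 ∂(G2 ι)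
      = ∫ ω, (max 0 (f (hyb ∅ ω) - f (hyb {k} ω))) ^ 2 ∂(G2 ι)
        + ∫ ω, (max 0 (f (hyb {k} ω) - f (hyb ∅ ω))) ^ 2 ∂(G2 ι) := by
    rw [← integral_add i1 i2]
    apply integral_congr_ae
    refine Filter.Eventually.of_forall fun ω => ?_
    simp only
    rcases le_total (f (hyb ∅ ω)) (f (hyb {k} ω)) with h | h
    · rw [max_eq_left (by linarith), max_eq_right (by linarith)]; ring
    · rw [max_eq_right (by linarith), max_eq_left (by linarith)]; ring
  rw [e2, e1]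
  ring

/-- `f` is the maximum of the linear functions with coefficients in `A`. -/
def IsMaxFn (f : (ι → ℝ) → ℝ) (A : Set (ι → ℝ)) : Prop :=
  ∀ Z, (∃ a ∈ A, f Z = ∑ i, a i * Z i) ∧ ∀ a ∈ A, ∑ i, a i * Z i ≤ f Z

lemma IsMaxFn.sub_le {A : Set (ι → ℝ)} (h : IsMaxFn f A) (Z : ι → ℝ) :
    ∃ a ∈ A, ∀ Z' : ι → ℝ, f Z - f Z' ≤ ∑ i, a i * (Z i - Z' i) := by
  obtain ⟨⟨a, ha, hZ⟩, _⟩ := h Z
  refine ⟨a, ha, fun Z' => ?_⟩
  have := (h Z').2 a ha
  simp only [mul_sub, Finset.sum_sub_distrib]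
  linarith

lemma abs_coef_le {L : ℝ} {a : ι → ℝ} (hL : 0 ≤ L) (ha : ∑ i, a i ^ 2 ≤ L ^ 2) (i : ι) :
    |a i| ≤ L := by
  apply abs_le_of_sq_le_sq _ hL
  exact (Finset.single_le_sum (f := fun i => a i ^ 2) (fun i _ => sq_nonneg _)
    (Finset.mem_univ i)).trans ha

lemma IsMaxFn.abs_sub_le {A : Set (ι → ℝ)} (h : IsMaxFn f A) {L : ℝ} (hL : 0 ≤ L)
    (hA : ∀ a ∈ A, ∑ i, a i ^ 2 ≤ L ^ 2) (Z Z' : ι → ℝ) :
    |f Z - f Z'| ≤ L * ∑ i, |Z i - Z' i| := by
  have key : ∀ Z Z' : ι → ℝ, f Z - f Z' ≤ L * ∑ i, |Z i - Z' i| := by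
    intro Z Z'
    obtain ⟨a, ha, hle⟩ := h.sub_le Z
    refine (hle Z').trans ?_
    rw [Finset.mul_sum]
    apply Finset.sum_le_sum
    intro i _
    calc a i * (Z i - Z' i) ≤ |a i * (Z i - Z' i)| := le_abs_self _
      _ = |a i| * |Z i - Z' i| := abs_mul _ _
      _ ≤ L * |Z i - Z' i| := by
          gcongr
          exact abs_coef_le hL (hA a ha) i
  rw [abs_le]
  constructor
  · have := key Z' Z
    have e : ∑ i, |Z' i - Z i| = ∑ i, |Z i - Z' i| :=
      Finset.sum_congr rfl fun i _ => abs_sub_comm _ _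
    rw [e] at this
    linarith
  · exact key Z Z'

lemma IsMaxFn.continuous {A : Set (ι → ℝ)} (h : IsMaxFn f A) {L : ℝ} (hL : 0 ≤ L)
    (hA : ∀ a ∈ A, ∑ i, a i ^ 2 ≤ L ^ 2) : Continuous f := by
  rw [continuous_iff_continuousAt]
  intro Z
  rw [ContinuousAt, tendsto_iff_norm_sub_tendsto_zero]
  have h1 : Filter.Tendsto (fun Z' : ι → ℝ => L * ∑ i, |Z' i - Z i|) (nhds Z) (nhds 0) := by
    have : Continuous fun Z' : ι → ℝ => L * ∑ i, |Z' i - Z i| := by fun_prop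
    have h2 := this.tendsto Z
    simpa using h2
  exact squeeze_zero (fun _ => norm_nonneg _) (fun Z' => h.abs_sub_le hL hA Z' Z) h1

lemma IsMaxFn.map_zero {A : Set (ι → ℝ)} (h : IsMaxFn f A) : f 0 = 0 := by
  obtain ⟨⟨a, _, ha⟩, _⟩ := h 0
  simpa using ha

lemma memLp_coord (i : ι) : MemLp (fun Z : ι → ℝ => Z i) 2 (G ι) := by
  have h := memLp_id_gaussianReal (μ := 0) (v := 1) 2
  have hmp := measurePreserving_eval (fun _ : ι => gaussianReal 0 1) i
  exact h.comp_measurePreserving hmp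

lemma IsMaxFn.memLp {A : Set (ι → ℝ)} (h : IsMaxFn f A) {L : ℝ} (hL : 0 ≤ L)
    (hA : ∀ a ∈ A, ∑ i, a i ^ 2 ≤ L ^ 2) : MemLp f 2 (G ι) := by
  have hs : MemLp (fun Z : ι → ℝ => L * ∑ i, |Z i|) 2 (G ι) := by
    apply MemLp.const_mul
    apply memLp_finsetSum
    intro i _
    exact (memLp_coord i).abs
  refine hs.mono' (h.continuous hL hA).aestronglyMeasurable ?_
  refine Filter.Eventually.of_forall fun Z => ?_
  have := h.abs_sub_le hL hA Z 0
  rw [h.map_zero] at this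
  simpa using this

/-- Sixth moment of the difference of two independent standard Gaussians. -/
noncomputable def C6 : ℝ :=
  ∫ p : ℝ × ℝ, (p.1 - p.2) ^ 6 ∂((gaussianReal 0 1).prod (gaussianReal 0 1))

lemma integrable_C6 :
    Integrable (fun p : ℝ × ℝ => (p.1 - p.2) ^ 6) ((gaussianReal 0 1).prod (gaussianReal 0 1)) := by
  have h := memLp_id_gaussianReal (μ := 0) (v := 1) 6
  have h1 : MemLp (fun p : ℝ × ℝ => p.1) 6 ((gaussianReal 0 1).prod (gaussianReal 0 1)) :=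
    h.comp_measurePreserving measurePreserving_fst
  have h2 : MemLp (fun p : ℝ × ℝ => p.2) 6 ((gaussianReal 0 1).prod (gaussianReal 0 1)) :=
    h.comp_measurePreserving measurePreserving_snd
  have h3 : MemLp (fun p : ℝ × ℝ => p.1 - p.2) 6 ((gaussianReal 0 1).prod (gaussianReal 0 1)) :=
    h1.sub h2
  have h4 := h3.integrable_norm_pow (p := 6) (by norm_num)
  refine h4.congr ?_
  refine Filter.Eventually.of_forall fun p => ?_
  simp only [Real.norm_eq_abs]
  rw [← abs_pow, abs_of_nonneg]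
  positivity

lemma integral_coord_C6 (k : ι) :
    Integrable (fun ω : ι → ℝ × ℝ => ((ω k).1 - (ω k).2) ^ 6) (G2 ι) ∧
    ∫ ω, ((ω k).1 - (ω k).2) ^ 6 ∂(G2 ι) = C6 := by
  have hmp := measurePreserving_eval
    (fun _ : ι => (gaussianReal 0 1).prod (gaussianReal 0 1)) k
  constructor
  · exact hmp.integrable_comp_of_integrable integrable_C6
  · unfold C6
    conv_rhs => rw [← hmp.map_eq]
    rw [integral_map hmp.measurable.aemeasurable]
    rw [hmp.map_eq]
    exact integrable_C6.aestronglyMeasurable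

lemma pointwise_bound {A : Set (ι → ℝ)} (h : IsMaxFn f A) {L : ℝ}
    (hA : ∀ a ∈ A, ∑ i, a i ^ 2 ≤ L ^ 2) {S : Finset ι} (hS : ∀ a ∈ A, ∀ i ∉ S, a i = 0)
    {R : ℝ} (hR : 0 < R) (ω : ι → ℝ × ℝ) :
    ∑ k, (max 0 (f (hyb ∅ ω) - f (hyb {k} ω))) ^ 2
      ≤ L ^ 2 * (R + (∑ k ∈ S, ((ω k).1 - (ω k).2) ^ 6) / R ^ 2) := by
  obtain ⟨a, ha, hle⟩ := h.sub_le (hyb ∅ ω)
  set T := R + (∑ k ∈ S, ((ω k).1 - (ω k).2) ^ 6) / R ^ 2 with hT
  have h6nn : ∀ x : ℝ, 0 ≤ x ^ 6 := fun x => by positivity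
  have hsum0 : 0 ≤ ∑ k ∈ S, ((ω k).1 - (ω k).2) ^ 6 :=
    Finset.sum_nonneg fun k _ => h6nn _
  have hTpos : 0 ≤ T := by positivity
  have h1 : ∀ k, (max 0 (f (hyb ∅ ω) - f (hyb {k} ω))) ^ 2 ≤ a k ^ 2 * T := by
    intro k
    have h2 : f (hyb ∅ ω) - f (hyb {k} ω) ≤ a k * ((ω k).1 - (ω k).2) := by
      refine (hle _).trans (le_of_eq ?_)
      rw [Finset.sum_eq_single k]
      · simp [hyb]
      · intro b _ hb
        simp [hyb, hb]
      · intro hk
        exact absurd (Finset.mem_univ k) hk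
    have h3 : (max 0 (f (hyb ∅ ω) - f (hyb {k} ω))) ^ 2 ≤ (a k * ((ω k).1 - (ω k).2)) ^ 2 := by
      rcases le_total 0 (f (hyb ∅ ω) - f (hyb {k} ω)) with h4 | h4
      · rw [max_eq_right h4]
        exact pow_le_pow_left₀ h4 h2 2
      · rw [max_eq_left h4, zero_pow (by norm_num)]
        exact sq_nonneg _
    refine h3.trans ?_
    rw [mul_pow]
    by_cases hk : k ∈ S
    · gcongr
      set D := (ω k).1 - (ω k).2
      have h5 : D ^ 6 ≤ ∑ k ∈ S, ((ω k).1 - (ω k).2) ^ 6 :=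
        Finset.single_le_sum (f := fun k => ((ω k).1 - (ω k).2) ^ 6)
          (fun i _ => h6nn _) hk
      have h6 : D ^ 2 ≤ R + D ^ 6 / R ^ 2 := by
        rcases le_total (D ^ 2) R with h7 | h7
        · have : 0 ≤ D ^ 6 / R ^ 2 := by positivity
          linarith
        · have : D ^ 2 ≤ D ^ 6 / R ^ 2 := by
            rw [le_div_iff₀ (by positivity)]
            calc D ^ 2 * R ^ 2 ≤ D ^ 2 * (D ^ 2) ^ 2 := by gcongr
              _ = D ^ 6 := by ring
          linarith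
      refine h6.trans ?_
      rw [hT]
      gcongr
    · rw [hS a ha k hk]
      simp
  calc ∑ k, (max 0 (f (hyb ∅ ω) - f (hyb {k} ω))) ^ 2 ≤ ∑ k, a k ^ 2 * T :=
        Finset.sum_le_sum fun k _ => h1 k
    _ = (∑ k, a k ^ 2) * T := by rw [Finset.sum_mul]
    _ ≤ L ^ 2 * T := by
        gcongr
        exact hA a ha

/-- Variance bound for maxima of linear functions of a Gaussian vector. -/
lemma variance_max {A : Set (ι → ℝ)} (h : IsMaxFn f A) {L : ℝ} (hL : 0 ≤ L)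
    (hA : ∀ a ∈ A, ∑ i, a i ^ 2 ≤ L ^ 2) {S : Finset ι} (hS : ∀ a ∈ A, ∀ i ∉ S, a i = 0)
    {R : ℝ} (hR : 0 < R) :
    ∫ Z, (f Z - ∫ Z, f Z ∂(G ι)) ^ 2 ∂(G ι) ≤ L ^ 2 * (R + S.card * C6 / R ^ 2) := by
  have hf := h.memLp hL hA
  refine (efron_stein hf).trans ?_
  rw [Finset.mul_sum]
  simp only [es_pos_part hf]
  have ip : ∀ k, Integrable (fun ω => (max 0 (f (hyb ∅ ω) - f (hyb {k} ω))) ^ 2) (G2 ι) := by
    intro k
    have ha := memLp_hyb hf ∅
    have hb := memLp_hyb hf {k}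
    have hd : MemLp (fun ω => f (hyb ∅ ω) - f (hyb {k} ω)) 2 (G2 ι) := ha.sub hb
    have hp : MemLp (fun ω => max 0 (f (hyb ∅ ω) - f (hyb {k} ω))) 2 (G2 ι) := by
      have := hd.pos_part
      refine this.congr_norm ?_ ?_
      · exact (aestronglyMeasurable_const.sup hd.aestronglyMeasurable)
      · refine Filter.Eventually.of_forall fun ω => ?_
        rw [max_comm]
    exact hp.integrable_sq
  rw [← integral_finsetSum _ fun k _ => ip k]
  have ib : Integrable (fun ω : ι → ℝ × ℝ =>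
      L ^ 2 * (R + (∑ k ∈ S, ((ω k).1 - (ω k).2) ^ 6) / R ^ 2)) (G2 ι) := by
    apply Integrable.const_mul
    apply Integrable.add (integrable_const _)
    apply Integrable.div_const
    exact integrable_finsetSum _ fun k _ => (integral_coord_C6 k).1
  refine (integral_mono (integrable_finsetSum _ fun k _ => ip k) ib
    (fun ω => pointwise_bound h hA hS hR ω)).trans (le_of_eq ?_)
  rw [integral_const_mul, integral_add (integrable_const _)
    ((integrable_finsetSum _ fun k _ => (integral_coord_C6 k).1).div_const _),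
    integral_div, integral_finsetSum _ fun k _ => (integral_coord_C6 k).1]
  simp only [(integral_coord_C6 _).2]
  simp

end ES

end Pool.Agent.Lib.Pd47e08
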