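import Pool.Agent.Lib.Pd47e08.Shift

/-!
Second moment of the likelihood ratio of the spiked Wigner model with Rademacher prior.
-/

open MeasureTheory ProbabilityTheory

set_option linter.unusedSectionVars false
set_option linter.unusedSimpArgs false

namespace Pool.Agent.Lib.Pd47e08

section SecondMoment

/-- The character of the sign vector `x` at the set `S`. -/
noncomputable def chi {n : ℕ} (x : Fin n → ℤˣ) (S : Finset (Fin n)) : ℝ :=
  ∏ i ∈ S, ((x i : ℤ) : ℝ)

lemma unit_cast_sq (u : ℤˣ) : (((u : ℤ) : ℝ)) ^ 2 = 1 := by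
  rcases Int.units_eq_one_or u with h | h <;> simp [h]

lemma chi_sq {n : ℕ} (x : Fin n → ℤˣ) (S : Finset (Fin n)) : chi x S ^ 2 = 1 := by
  unfold chi
  rw [← Finset.prod_pow]
  exact Finset.prod_eq_one fun i _ => unit_cast_sq _

lemma chi_mul {n : ℕ} (x y : Fin n → ℤˣ) (S : Finset (Fin n)) :
    chi x S * chi y S = chi (x * y) S := by
  unfold chi
  rw [← Finset.prod_mul_distrib]
  apply Finset.prod_congr rfl
  intro i _
  simp

lemma two_mul_sum_pairs {α : Type*} [DecidableEq α] (z : α → ℝ) (s : Finset α) :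
    2 * ∑ S ∈ Finset.powersetCard 2 s, ∏ i ∈ S, z i = (∑ i ∈ s, z i) ^ 2 - ∑ i ∈ s, z i ^ 2 := by
  induction s using Finset.induction_on with
  | empty => rw [Finset.powersetCard_eq_empty.2 (by simp)]; simp
  | insert a s ha ih =>
    rw [Finset.powersetCard_succ_insert ha, Finset.sum_union, Finset.sum_image,
      Finset.sum_insert ha, Finset.sum_insert ha, mul_add, ih]
    · rw [Finset.powersetCard_one, Finset.sum_map]
      have : ∀ x ∈ s, ∏ i ∈ insert a ({x} : Finset α), z i = z a * z x := by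
        intro x hx
        rw [Finset.prod_insert, Finset.prod_singleton]
        rw [Finset.mem_singleton]
        rintro rfl
        exact ha hx
      simp only [Function.Embedding.coeFn_mk]
      rw [Finset.sum_congr rfl this, ← Finset.mul_sum]
      ring
    · intro S hS T hT hST
      have hS' := Finset.mem_powersetCard.1 hS
      have hT' := Finset.mem_powersetCard.1 hT
      have haS : a ∉ S := fun h => ha (hS'.1 h)
      have haT : a ∉ T := fun h => ha (hT'.1 h)
      have h2 : (insert a S).erase a = (insert a T).erase a := by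
        have hST' : insert a S = insert a T := hST
        rw [hST']
      rwa [Finset.erase_insert haS, Finset.erase_insert haT] at h2
    · rw [Finset.disjoint_left]
      intro S hS hS2
      rw [Finset.mem_image] at hS2
      obtain ⟨T, _, rfl⟩ := hS2
      exact ha ((Finset.mem_powersetCard.1 hS).1 (Finset.mem_insert_self a T))

/-- The bound for the second moment. -/
noncomputable def Cmu (m : ℝ) : ℝ := ∫ g, Real.exp (m ^ 2 * g ^ 2 / 2) ∂(gaussianReal 0 1)

lemma integrable_Cmu {m : ℝ} (hm : m ^ 2 < 1) :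
    Integrable (fun g => Real.exp (m ^ 2 * g ^ 2 / 2)) (gaussianReal 0 1) := by
  rw [gaussianReal_of_var_ne_zero 0 one_ne_zero]
  rw [integrable_withDensity_iff_integrable_smul' (measurable_gaussianPDF 0 1)
    (Filter.Eventually.of_forall fun x => gaussianPDF_lt_top)]
  have h := (integrable_exp_neg_mul_sq (b := (1 - m ^ 2) / 2) (by linarith)).const_mul
    ((Real.sqrt (2 * Real.pi))⁻¹)
  refine h.congr (Filter.Eventually.of_forall fun x => ?_)
  beta_reduce
  rw [toReal_gaussianPDF, smul_eq_mul]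
  simp only [gaussianPDFReal, NNReal.coe_one, mul_one, sub_zero]
  rw [mul_assoc, ← Real.exp_add]
  congr 2
  ring

lemma Cmu_nonneg (m : ℝ) : 0 ≤ Cmu m := integral_nonneg fun _ => (Real.exp_pos _).le

lemma second_moment {n : ℕ} (hn : 0 < n) {m l : ℝ} (hm : m ^ 2 < 1) (hl : l ^ 2 = m ^ 2 / n) :
    (∑ x : Fin n → ℤˣ, ∑ y : Fin n → ℤˣ,
        Real.exp (l ^ 2 * ∑ S ∈ Finset.powersetCard 2 Finset.univ, chi x S * chi y S))
      / (Fintype.card (Fin n → ℤˣ) : ℝ) ^ 2 ≤ Cmu m := by
  have hnR : (0 : ℝ) < n := by exact_mod_cast hn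
  set N : ℝ := (Fintype.card (Fin n → ℤˣ) : ℝ) with hN
  have hNpos : 0 < N := by rw [hN]; exact_mod_cast Fintype.card_pos
  have hN2 : N = 2 ^ n := by
    rw [hN, Fintype.card_fun]
    simp
  -- reduce to a single sum
  have h1 : ∀ x : Fin n → ℤˣ, ∑ y : Fin n → ℤˣ,
        Real.exp (l ^ 2 * ∑ S ∈ Finset.powersetCard 2 Finset.univ, chi x S * chi y S)
      = ∑ y : Fin n → ℤˣ,
        Real.exp (l ^ 2 * ∑ S ∈ Finset.powersetCard 2 Finset.univ, chi y S) := by
    intro x
    rw [← Equiv.sum_comp (Equiv.mulLeft x) (fun y : Fin n → ℤˣ =>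
      Real.exp (l ^ 2 * ∑ S ∈ Finset.powersetCard 2 Finset.univ, chi y S))]
    apply Finset.sum_congr rfl
    intro y _
    simp only [chi_mul, Equiv.coe_mulLeft]
  rw [Finset.sum_congr rfl fun x _ => h1 x, Finset.sum_const, Finset.card_univ, nsmul_eq_mul,
    ← hN, sq N, mul_div_mul_left _ _ hNpos.ne']
  rw [div_le_iff₀ hNpos]
  -- bound each exponent
  have h2 : ∀ y : Fin n → ℤˣ,
      Real.exp (l ^ 2 * ∑ S ∈ Finset.powersetCard 2 Finset.univ, chi y S)
        ≤ ∫ g, Real.exp ((l * ∑ i, ((y i : ℤ) : ℝ)) * g) ∂(gaussianReal 0 1) := by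
    intro y
    have h3 := congrFun (mgf_id_gaussianReal (μ := 0) (v := 1)) (l * ∑ i, ((y i : ℤ) : ℝ))
    simp only [mgf, id, zero_mul, zero_add, NNReal.coe_one, one_mul] at h3
    rw [h3]
    apply Real.exp_le_exp.2
    have h4 := two_mul_sum_pairs (fun i => ((y i : ℤ) : ℝ)) (Finset.univ : Finset (Fin n))
    have h5 : 0 ≤ ∑ i, ((y i : ℤ) : ℝ) ^ 2 := Finset.sum_nonneg fun i _ => sq_nonneg _
    have h6 : 0 ≤ l ^ 2 := sq_nonneg _
    unfold chi
    rw [mul_pow]
    nlinarith
  have h7 : ∀ y : Fin n → ℤˣ, Integrable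
      (fun g => Real.exp ((l * ∑ i, ((y i : ℤ) : ℝ)) * g)) (gaussianReal 0 1) := fun y =>
    integrable_exp_mul_gaussianReal _
  calc ∑ y : Fin n → ℤˣ, Real.exp (l ^ 2 * ∑ S ∈ Finset.powersetCard 2 Finset.univ, chi y S)
      ≤ ∑ y : Fin n → ℤˣ, ∫ g, Real.exp ((l * ∑ i, ((y i : ℤ) : ℝ)) * g) ∂(gaussianReal 0 1) :=
        Finset.sum_le_sum fun y _ => h2 y
    _ = ∫ g, ∑ y : Fin n → ℤˣ, Real.exp ((l * ∑ i, ((y i : ℤ) : ℝ)) * g) ∂(gaussianReal 0 1) := by
        rw [integral_finsetSum _ fun y _ => h7 y]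
    _ ≤ ∫ g, N * Real.exp (m ^ 2 * g ^ 2 / 2) ∂(gaussianReal 0 1) := by
        apply integral_mono (integrable_finsetSum _ fun y _ => h7 y)
          ((integrable_Cmu hm).const_mul _)
        intro g
        beta_reduce
        have h8 : ∀ y : Fin n → ℤˣ, Real.exp ((l * ∑ i, ((y i : ℤ) : ℝ)) * g)
            = ∏ i, Real.exp (l * g * ((y i : ℤ) : ℝ)) := by
          intro y
          rw [← Real.exp_sum]
          congr 1
          rw [← Finset.mul_sum]
          ring
        simp only [h8]
        have h9 : ∑ y : Fin n → ℤˣ, ∏ i, Real.exp (l * g * ((y i : ℤ) : ℝ))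
            = ∏ _i : Fin n, ∑ u : ℤˣ, Real.exp (l * g * ((u : ℤ) : ℝ)) := by
          rw [Finset.prod_univ_sum, Fintype.piFinset_univ]
        rw [h9]
        have h10 : ∑ u : ℤˣ, Real.exp (l * g * ((u : ℤ) : ℝ)) = 2 * Real.cosh (l * g) := by
          have hu : (Finset.univ : Finset ℤˣ) = {1, -1} := by decide
          rw [hu, Finset.sum_insert (by decide), Finset.sum_singleton, Real.cosh_eq]
          simp
          ring
        rw [h10, Finset.prod_const, Finset.card_univ, Fintype.card_fin, mul_pow, ← hN2]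
        gcongr
        calc Real.cosh (l * g) ^ n ≤ (Real.exp ((l * g) ^ 2 / 2)) ^ n := by
              gcongr
              exact Real.cosh_le_exp_half_sq _
          _ = Real.exp (m ^ 2 * g ^ 2 / 2) := by
              rw [← Real.exp_nat_mul]
              congr 1
              rw [mul_pow, hl]
              field_simp
    _ = Cmu m * N := by
        rw [integral_const_mul]
        unfold Cmu
        ring

end SecondMoment

end Pool.Agent.Lib.Pd47e08
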