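import Pool.Agent.Lib.Pd47e08.Shift
import Pool.Agent.Lib.Pd47e08.SecondMoment
import Pool.Agent.Lib.Pd47e08.Wick

/-!
Moments of the norm of a square Gaussian matrix with independent entries.
-/

open MeasureTheory ProbabilityTheory Matrix
open scoped ENNReal

set_option linter.unusedSectionVars false
set_option linter.unusedSimpArgs false

namespace Pool.Agent.Lib.Pd47e08

section Det

variable {n : ℕ}

/-- The operator of a matrix. -/
noncomputable def opT (g : Matrix (Fin n) (Fin n) ℝ) :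
    EuclideanSpace ℝ (Fin n) →L[ℝ] EuclideanSpace ℝ (Fin n) :=
  toEuclideanCLM (n := Fin n) (𝕜 := ℝ) g

lemma diag_le (A : Matrix (Fin n) (Fin n) ℝ) (i : Fin n) : A i i ≤ ‖opT A‖ := by
  have h1 : A i i = inner ℝ (EuclideanSpace.single i (1 : ℝ)) (opT A (EuclideanSpace.single i 1)) := by
    unfold opT
    rw [inner_toEuclideanCLM]
    simp
  rw [h1]
  refine (real_inner_le_norm _ _).trans ?_
  have h2 := (opT A).le_opNorm (EuclideanSpace.single i 1)
  simp only [PiLp.norm_single, norm_one, mul_one] at h2 ⊢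
  linarith

lemma trace_le (g : Matrix (Fin n) (Fin n) ℝ) (p : ℕ) :
    ((g * gᵀ) ^ p).trace ≤ n * ‖opT g‖ ^ (2 * p) := by
  unfold trace
  have h1 : ∀ i : Fin n, ((g * gᵀ) ^ p).diag i ≤ ‖opT g‖ ^ (2 * p) := by
    intro i
    refine (diag_le _ i).trans ?_
    have h2 : opT ((g * gᵀ) ^ p) = (opT g * star (opT g)) ^ p := by
      unfold opT
      rw [map_pow, map_mul]
      congr 2
      rw [← map_star]
      rfl
    rw [h2]
    have : Nonempty (Fin n) := ⟨i⟩
    have : Nontrivial (EuclideanSpace ℝ (Fin n)) := inferInstance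
    refine (norm_pow_le _ p).trans ?_
    rw [pow_mul]
    gcongr
    refine (norm_mul_le _ _).trans ?_
    rw [ContinuousLinearMap.star_eq_adjoint, LinearIsometryEquiv.norm_map, sq]
  refine (Finset.sum_le_sum fun i _ => h1 i).trans ?_
  simp

/-- A net of the unit ball. -/
noncomputable def net (n : ℕ) : Finset (Fin n → ℤ) :=
  (Fintype.piFinset fun _ : Fin n => Finset.Icc (-(3 * n : ℕ) : ℤ) (3 * n : ℕ)).filter
    fun z => ∑ i, (z i) ^ 2 ≤ 3 * n

lemma sum_half (m : ℕ) :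
    ∑ z ∈ Finset.Icc (-(m : ℕ) : ℤ) (m : ℕ), (1 / 2 : ℝ) ^ z.natAbs = 3 - 2 * (1 / 2 : ℝ) ^ m := by
  induction m with
  | zero => simp; norm_num
  | succ m ih =>
    have h1 : Finset.Icc (-((m + 1 : ℕ)) : ℤ) ((m + 1 : ℕ))
        = insert ((m + 1 : ℕ) : ℤ) (insert (-((m + 1 : ℕ)) : ℤ) (Finset.Icc (-(m : ℕ) : ℤ) (m : ℕ))) := by
      ext x
      simp only [Finset.mem_Icc, Finset.mem_insert]
      omega
    rw [h1, Finset.sum_insert, Finset.sum_insert, ih]
    · have e1 : (((m + 1 : ℕ) : ℤ)).natAbs = m + 1 := by omega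
      have e2 : (-((m + 1 : ℕ) : ℤ)).natAbs = m + 1 := by omega
      rw [e1, e2]
      ring
    · simp only [Finset.mem_Icc]
      omega
    · simp only [Finset.mem_Icc, Finset.mem_insert]
      omega

lemma card_net (n : ℕ) : ((net n).card : ℝ) ≤ 24 ^ n := by
  have h1 : ((net n).card : ℝ) ≤ ∑ z ∈ net n, 8 ^ n * ∏ i, (1 / 2 : ℝ) ^ (z i).natAbs := by
    rw [Finset.card_eq_sum_ones]
    push_cast
    apply Finset.sum_le_sum
    intro z hz
    have hz2 : ∑ i, (z i) ^ 2 ≤ 3 * n := (Finset.mem_filter.mp hz).2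
    rw [Finset.prod_pow_eq_pow_sum]
    have h3 : ∑ i, (z i).natAbs ≤ 3 * n := by
      have : ∀ i, ((z i).natAbs : ℤ) ≤ (z i) ^ 2 := by
        intro i
        rcases eq_or_ne (z i) 0 with h | h
        · simp [h]
        · have h5 : 1 ≤ (z i).natAbs := Int.natAbs_pos.mpr h
          rw [← Int.natAbs_sq]
          exact_mod_cast (by nlinarith : (z i).natAbs ≤ (z i).natAbs ^ 2)
      have h4 : ((∑ i, (z i).natAbs : ℕ) : ℤ) ≤ 3 * n := by
        push_cast
        refine le_trans (Finset.sum_le_sum fun i _ => ?_) hz2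
        have := this i
        simpa using this
      exact_mod_cast h4
    have h5 : (1 / 2 : ℝ) ^ (3 * n) ≤ (1 / 2 : ℝ) ^ (∑ i, (z i).natAbs) :=
      pow_le_pow_of_le_one (by norm_num) (by norm_num) h3
    have h6 : (8 : ℝ) ^ n * (1 / 2 : ℝ) ^ (3 * n) = 1 := by
      rw [pow_mul, ← mul_pow]
      norm_num
    calc (1 : ℝ) = (8 : ℝ) ^ n * (1 / 2 : ℝ) ^ (3 * n) := h6.symm
      _ ≤ _ := by gcongr
  refine h1.trans ?_
  rw [← Finset.mul_sum]
  have h2 : ∑ z ∈ net n, ∏ i, (1 / 2 : ℝ) ^ (z i).natAbs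
      ≤ ∑ z ∈ Fintype.piFinset fun _ : Fin n => Finset.Icc (-(3 * n : ℕ) : ℤ) (3 * n : ℕ),
        ∏ i, (1 / 2 : ℝ) ^ (z i).natAbs :=
    Finset.sum_le_sum_of_subset_of_nonneg (Finset.filter_subset _ _)
      fun _ _ _ => Finset.prod_nonneg fun _ _ => by positivity
  have h3 : ∑ z ∈ Fintype.piFinset fun _ : Fin n => Finset.Icc (-(3 * n : ℕ) : ℤ) (3 * n : ℕ),
        ∏ i, (1 / 2 : ℝ) ^ (z i).natAbs
      = ∏ _i : Fin n, ∑ j ∈ Finset.Icc (-(3 * n : ℕ) : ℤ) (3 * n : ℕ), (1 / 2 : ℝ) ^ j.natAbs := by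
    rw [Finset.prod_univ_sum]
  have h4 : ∏ _i : Fin n, ∑ j ∈ Finset.Icc (-(3 * n : ℕ) : ℤ) (3 * n : ℕ), (1 / 2 : ℝ) ^ j.natAbs
      ≤ 3 ^ n := by
    rw [Finset.prod_const, Finset.card_univ, Fintype.card_fin]
    have := sum_half (3 * n)
    have hp : (0 : ℝ) ≤ (1 / 2 : ℝ) ^ (3 * n) := by positivity
    gcongr
    rw [this]
    linarith
  calc (8 : ℝ) ^ n * ∑ z ∈ net n, ∏ i, (1 / 2 : ℝ) ^ (z i).natAbs ≤ 8 ^ n * 3 ^ n := by
        gcongr
        exact h2.trans (h3.le.trans h4)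
    _ = 24 ^ n := by rw [← mul_pow]; norm_num

/-- The vector of a net point. -/
noncomputable def yv (z : Fin n → ℤ) : EuclideanSpace ℝ (Fin n) :=
  WithLp.toLp 2 fun i => (z i : ℝ) / √n

lemma net_approx (hn : 0 < n) (x : EuclideanSpace ℝ (Fin n)) (hx : ‖x‖ = 1) :
    ∃ z ∈ net n, ‖x - yv z‖ ≤ 1 / 2 := by
  have hnR : (0 : ℝ) < n := by exact_mod_cast hn
  have hs : 0 < √(n : ℝ) := Real.sqrt_pos.mpr hnR
  have hss : √(n : ℝ) ^ 2 = n := Real.sq_sqrt hnR.le
  set z : Fin n → ℤ := fun i => round (√(n : ℝ) * x i) with hz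
  have hd : ∀ i, |√(n : ℝ) * x i - z i| ≤ 1 / 2 := fun i => abs_sub_round _
  have hx2 : ∑ i, x i ^ 2 = 1 := by
    have := EuclideanSpace.norm_sq_eq x
    rw [hx] at this
    simpa using this.symm
  have hz2 : ∑ i, ((z i : ℝ)) ^ 2 ≤ 3 * n := by
    have h1 : ∀ i, ((z i : ℝ)) ^ 2 ≤ 2 * (n * x i ^ 2) + 2 * (1 / 4) := by
      intro i
      have h2 := hd i
      have h3 : (√(n : ℝ) * x i - z i) ^ 2 ≤ (1 / 2) ^ 2 := sq_le_sq' (by linarith [abs_le.mp h2])
        (by linarith [abs_le.mp h2])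
      have h4 : (z i : ℝ) ^ 2 ≤ 2 * (√(n : ℝ) * x i) ^ 2 + 2 * (√(n : ℝ) * x i - z i) ^ 2 := by
        nlinarith [sq_nonneg (2 * (√(n : ℝ) * x i) - z i)]
      rw [mul_pow, hss] at h4
      nlinarith
    refine (Finset.sum_le_sum fun i _ => h1 i).trans ?_
    rw [Finset.sum_add_distrib, ← Finset.mul_sum, ← Finset.mul_sum, hx2]
    simp
    linarith
  have hz3 : ∑ i, (z i) ^ 2 ≤ 3 * n := by exact_mod_cast hz2
  refine ⟨z, ?_, ?_⟩
  · unfold net
    rw [Finset.mem_filter, Fintype.mem_piFinset]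
    refine ⟨fun i => ?_, hz3⟩
    rw [Finset.mem_Icc, ← abs_le]
    have h1 : (z i) ^ 2 ≤ 3 * n :=
      (Finset.single_le_sum (f := fun i => (z i) ^ 2) (fun i _ => sq_nonneg _)
        (Finset.mem_univ i)).trans hz3
    have h2 : |z i| ≤ |z i| ^ 2 := by
      rcases eq_or_ne (z i) 0 with h | h
      · simp [h]
      · have h5 : 1 ≤ |z i| := Int.one_le_abs h
        nlinarith
    rw [sq_abs] at h2
    push_cast
    linarith
  · have h1 : ‖x - yv z‖ ^ 2 ≤ (1 / 2) ^ 2 := by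
      rw [EuclideanSpace.norm_sq_eq]
      have h2 : ∀ i, ‖(x - yv z) i‖ ^ 2 ≤ (1 / 4) / n := by
        intro i
        have h3 : (x - yv z) i = (√(n : ℝ) * x i - z i) / √n := by
          simp only [yv, PiLp.sub_apply]
          field_simp
        rw [h3, Real.norm_eq_abs, sq_abs, div_pow, hss]
        gcongr
        have h2 := hd i
        have h3 : (√(n : ℝ) * x i - z i) ^ 2 ≤ (1 / 2) ^ 2 :=
          sq_le_sq' (by linarith [abs_le.mp h2]) (by linarith [abs_le.mp h2])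
        linarith
      refine (Finset.sum_le_sum fun i _ => h2 i).trans ?_
      simp only [Finset.sum_const, Finset.card_univ, Fintype.card_fin, nsmul_eq_mul]
      rw [mul_div_cancel₀ _ hnR.ne']
      norm_num
    exact le_of_sq_le_sq h1 (by norm_num)

lemma opNorm_net (hn : 0 < n) (g : Matrix (Fin n) (Fin n) ℝ) (q : ℕ) :
    ‖opT g‖ ^ (2 * q) ≤ 4 ^ q * ∑ z ∈ net n, (‖opT g (yv z)‖ ^ 2) ^ q := by
  have hne : (net n).Nonempty := by
    obtain ⟨z, hz, _⟩ := net_approx hn (EuclideanSpace.single ⟨0, hn⟩ (1 : ℝ)) (by simp)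
    exact ⟨z, hz⟩
  obtain ⟨z0, hz0, hmax⟩ := Finset.exists_max_image (net n) (fun z => ‖opT g (yv z)‖) hne
  have h1 : ‖opT g‖ ≤ ‖opT g (yv z0)‖ + ‖opT g‖ / 2 := by
    apply (opT g).opNorm_le_bound (by positivity)
    intro x
    rcases eq_or_ne x 0 with rfl | hx
    · simp
    · have hxn : 0 < ‖x‖ := norm_pos_iff.mpr hx
      set u : EuclideanSpace ℝ (Fin n) := (‖x‖)⁻¹ • x with hu
      have hu1 : ‖u‖ = 1 := by
        rw [hu, norm_smul, norm_inv, norm_norm, inv_mul_cancel₀ hxn.ne']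
      obtain ⟨z, hz, hzd⟩ := net_approx hn u hu1
      have h2 : ‖opT g u‖ ≤ ‖opT g (yv z0)‖ + ‖opT g‖ / 2 := by
        have h3 : opT g u = opT g (yv z) + opT g (u - yv z) := by
          rw [← map_add]
          congr 1
          abel
        rw [h3]
        refine (norm_add_le _ _).trans ?_
        have h4 := (opT g).le_opNorm (u - yv z)
        have h5 := hmax z hz
        have h6 : ‖opT g‖ * ‖u - yv z‖ ≤ ‖opT g‖ * (1 / 2) := by gcongr
        linarith
      have h7 : x = ‖x‖ • u := by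
        rw [hu, smul_smul, mul_inv_cancel₀ hxn.ne', one_smul]
      calc ‖opT g x‖ = ‖x‖ * ‖opT g u‖ := by
            conv_lhs => rw [h7]
            rw [map_smul, norm_smul, norm_norm]
        _ ≤ ‖x‖ * (‖opT g (yv z0)‖ + ‖opT g‖ / 2) := by gcongr
        _ = _ := by ring
  have h2 : ‖opT g‖ ≤ 2 * ‖opT g (yv z0)‖ := by linarith
  calc ‖opT g‖ ^ (2 * q) ≤ (2 * ‖opT g (yv z0)‖) ^ (2 * q) := by gcongr
    _ = 4 ^ q * (‖opT g (yv z0)‖ ^ 2) ^ q := by
        rw [pow_mul, mul_pow, mul_pow]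
        norm_num
    _ ≤ _ := by
        gcongr
        exact Finset.single_le_sum (f := fun z => (‖opT g (yv z)‖ ^ 2) ^ q)
          (fun z _ => by positivity) hz0

lemma norm_opT_sq (g : Matrix (Fin n) (Fin n) ℝ) (z : Fin n → ℤ) :
    ‖opT g (yv z)‖ ^ 2 = ∑ i, (∑ j, g i j * ((z j : ℝ) / √n)) ^ 2 := by
  rw [EuclideanSpace.norm_sq_eq]
  apply Finset.sum_congr rfl
  intro i _
  rw [Real.norm_eq_abs, sq_abs]
  rfl

end Det

section Exp

variable {n : ℕ}

/-- The constant of the exponential moment. -/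
noncomputable def Kq : ℝ := ∫ h, Real.exp (h ^ 2 / 4) ∂(gaussianReal 0 1)

lemma integrable_Kq : Integrable (fun h : ℝ => Real.exp (h ^ 2 / 4)) (gaussianReal 0 1) := by
  have h := integrable_Cmu (m := √(1 / 2)) (by rw [Real.sq_sqrt (by norm_num)]; norm_num)
  refine h.congr (Filter.Eventually.of_forall fun x => ?_)
  beta_reduce
  congr 1
  rw [Real.sq_sqrt (by norm_num)]
  ring

lemma one_le_Kq : 1 ≤ Kq := by
  have h : ∫ _h : ℝ, (1 : ℝ) ∂(gaussianReal 0 1) ≤ Kq := by
    apply integral_mono (integrable_const _) integrable_Kq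
    intro h
    exact Real.one_le_exp (by positivity)
  simpa using h

lemma lint_exp_sq (s : ℝ) (hs : 0 ≤ s) (y : Fin n → ℝ) (hc : s * ∑ j, y j ^ 2 ≤ 1 / 4) :
    ∫⁻ g : Fin n × Fin n → ℝ, ENNReal.ofReal (Real.exp (s * ∑ i, (∑ j, g (i, j) * y j) ^ 2))
        ∂(G (Fin n × Fin n))
      ≤ ENNReal.ofReal (Kq ^ n) := by
  have h2s : √(2 * s) ^ 2 = 2 * s := Real.sq_sqrt (by linarith)
  -- linearise
  have h1 : ∀ g : Fin n × Fin n → ℝ,
      ENNReal.ofReal (Real.exp (s * ∑ i, (∑ j, g (i, j) * y j) ^ 2))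
      = ∫⁻ h : Fin n → ℝ, ENNReal.ofReal
          (Real.exp (∑ i, (√(2 * s) * ∑ j, g (i, j) * y j) * h i)) ∂(G (Fin n)) := by
    intro g
    have h2 := integral_exp_linear (ι := Fin n) (fun i => √(2 * s) * ∑ j, g (i, j) * y j)
    rw [← ofReal_integral_eq_lintegral_ofReal h2.1
      (Filter.Eventually.of_forall fun _ => (Real.exp_pos _).le), h2.2]
    congr 2
    rw [Finset.mul_sum]
    apply Finset.sum_congr rfl
    intro i _
    rw [mul_pow, h2s]
    ring
  simp_rw [h1]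
  rw [lintegral_lintegral_swap]
  · have h3 : ∀ h : Fin n → ℝ,
        ∫⁻ g : Fin n × Fin n → ℝ, ENNReal.ofReal
          (Real.exp (∑ i, (√(2 * s) * ∑ j, g (i, j) * y j) * h i)) ∂(G (Fin n × Fin n))
        ≤ ENNReal.ofReal (∏ i, Real.exp ((h i) ^ 2 / 4)) := by
      intro h
      have h4 := integral_exp_linear (ι := Fin n × Fin n)
        (fun p => √(2 * s) * y p.2 * h p.1)
      have h5 : ∀ g : Fin n × Fin n → ℝ,
          ∑ i, (√(2 * s) * ∑ j, g (i, j) * y j) * h i
          = ∑ p : Fin n × Fin n, (√(2 * s) * y p.2 * h p.1) * g p := by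
        intro g
        rw [Fintype.sum_prod_type]
        apply Finset.sum_congr rfl
        intro i _
        rw [Finset.mul_sum, Finset.sum_mul]
        apply Finset.sum_congr rfl
        intro j _
        ring
      simp_rw [h5]
      rw [← ofReal_integral_eq_lintegral_ofReal h4.1
        (Filter.Eventually.of_forall fun _ => (Real.exp_pos _).le), h4.2]
      apply ENNReal.ofReal_le_ofReal
      rw [← Real.exp_sum]
      apply Real.exp_le_exp.mpr
      rw [Fintype.sum_prod_type]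
      apply Finset.sum_le_sum
      intro i _
      have h6 : ∑ j, (√(2 * s) * y j * h i) ^ 2 / 2 = (s * ∑ j, y j ^ 2) * h i ^ 2 := by
        rw [Finset.mul_sum, Finset.sum_mul]
        apply Finset.sum_congr rfl
        intro j _
        rw [mul_pow, mul_pow, h2s]
        ring
      simp only
      rw [h6]
      nlinarith [sq_nonneg (h i)]
    refine (lintegral_mono h3).trans ?_
    have hint : Integrable (fun h : Fin n → ℝ => ∏ i, Real.exp ((h i) ^ 2 / 4)) (G (Fin n)) :=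
      Integrable.fintype_prod (f := fun _ (x : ℝ) => Real.exp (x ^ 2 / 4))
        (fun _ => integrable_Kq)
    rw [← ofReal_integral_eq_lintegral_ofReal hint
      (Filter.Eventually.of_forall fun _ => Finset.prod_nonneg fun _ _ => (Real.exp_pos _).le)]
    rw [integral_fintype_prod_eq_prod (f := fun _ (x : ℝ) => Real.exp (x ^ 2 / 4))]
    rw [Finset.prod_const, Finset.card_univ, Fintype.card_fin]
    rfl
  · apply Measurable.aemeasurable
    unfold Function.uncurry
    fun_prop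

/-- Moment bound for a fixed vector. -/
lemma lint_pow (y : Fin n → ℝ) (hy : ∑ j, y j ^ 2 ≤ 3) :
    ∫⁻ g : Fin n × Fin n → ℝ, ENNReal.ofReal ((∑ i, (∑ j, g (i, j) * y j) ^ 2) ^ n)
        ∂(G (Fin n × Fin n))
      ≤ ENNReal.ofReal ((12 * n * Kq) ^ n) := by
  have hK := one_le_Kq
  have h1 : ∀ g : Fin n × Fin n → ℝ,
      ENNReal.ofReal ((∑ i, (∑ j, g (i, j) * y j) ^ 2) ^ n)
      ≤ ENNReal.ofReal (12 ^ n * n.factorial) *
        ENNReal.ofReal (Real.exp (1 / 12 * ∑ i, (∑ j, g (i, j) * y j) ^ 2)) := by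
    intro g
    rw [← ENNReal.ofReal_mul (by positivity)]
    apply ENNReal.ofReal_le_ofReal
    set x := ∑ i, (∑ j, g (i, j) * y j) ^ 2 with hx
    have hx0 : 0 ≤ x := Finset.sum_nonneg fun i _ => sq_nonneg _
    have h2 := Real.pow_div_factorial_le_exp (1 / 12 * x) (by positivity) n
    rw [div_le_iff₀ (by positivity), mul_pow] at h2
    have h3 : x ^ n = 12 ^ n * ((1 / 12) ^ n * x ^ n) := by
      rw [← mul_assoc, ← mul_pow]
      norm_num
    rw [h3]
    calc (12 : ℝ) ^ n * ((1 / 12) ^ n * x ^ n)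
        ≤ 12 ^ n * (Real.exp (1 / 12 * x) * n.factorial) := by gcongr
      _ = _ := by ring
  refine (lintegral_mono h1).trans ?_
  rw [lintegral_const_mul' _ _ ENNReal.ofReal_ne_top]
  calc _ ≤ ENNReal.ofReal (12 ^ n * n.factorial) * ENNReal.ofReal (Kq ^ n) := by
        gcongr
        exact lint_exp_sq (1 / 12) (by norm_num) y (by linarith)
    _ ≤ _ := by
        rw [← ENNReal.ofReal_mul (by positivity)]
        apply ENNReal.ofReal_le_ofReal
        rw [mul_pow, mul_pow]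
        have : (n.factorial : ℝ) ≤ (n : ℝ) ^ n := by exact_mod_cast Nat.factorial_le_pow n
        gcongr

/-- The constant in the norm bound. -/
noncomputable def Cg : ℝ := 4 * 24 * 12 * Kq

lemma Cg_pos : 0 < Cg := by
  have := one_le_Kq
  unfold Cg
  positivity

/-- Matrix of a family of entries. -/
def mat (g : Fin n × Fin n → ℝ) : Matrix (Fin n) (Fin n) ℝ := Matrix.of fun i j => g (i, j)

lemma yv_sq (hn : 0 < n) {z : Fin n → ℤ} (hz : z ∈ net n) :
    ∑ j, ((z j : ℝ) / √n) ^ 2 ≤ 3 := by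
  have hnR : (0 : ℝ) < n := by exact_mod_cast hn
  have hz2 : ∑ i, (z i) ^ 2 ≤ 3 * n := (Finset.mem_filter.mp hz).2
  have hz3 : ∑ i, ((z i : ℝ)) ^ 2 ≤ 3 * n := by exact_mod_cast hz2
  simp only [div_pow, Real.sq_sqrt hnR.le]
  rw [← Finset.sum_div, div_le_iff₀ hnR]
  exact hz3

lemma lint_opNorm (hn : 0 < n) :
    ∫⁻ g : Fin n × Fin n → ℝ, ENNReal.ofReal (‖opT (mat g)‖ ^ (2 * n)) ∂(G (Fin n × Fin n))
      ≤ ENNReal.ofReal ((Cg * n) ^ n) := by
  have h1 : ∀ g : Fin n × Fin n → ℝ, ENNReal.ofReal (‖opT (mat g)‖ ^ (2 * n))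
      ≤ ∑ z ∈ net n, ENNReal.ofReal (4 ^ n) *
        ENNReal.ofReal ((∑ i, (∑ j, g (i, j) * ((z j : ℝ) / √n)) ^ 2) ^ n) := by
    intro g
    rw [← Finset.mul_sum, ← ENNReal.ofReal_sum_of_nonneg (fun z _ => by positivity),
      ← ENNReal.ofReal_mul (by positivity)]
    apply ENNReal.ofReal_le_ofReal
    have h2 := opNorm_net hn (mat g) n
    simp only [norm_opT_sq] at h2
    exact h2
  refine (lintegral_mono h1).trans ?_
  rw [lintegral_finsetSum']
  · calc _ ≤ ∑ z ∈ net n, ENNReal.ofReal (4 ^ n) * ENNReal.ofReal ((12 * n * Kq) ^ n) := by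
          apply Finset.sum_le_sum
          intro z hz
          rw [lintegral_const_mul' _ _ ENNReal.ofReal_ne_top]
          gcongr
          exact lint_pow _ (yv_sq hn hz)
      _ = ENNReal.ofReal ((net n).card * (4 ^ n * (12 * n * Kq) ^ n)) := by
          rw [Finset.sum_const, nsmul_eq_mul, ← ENNReal.ofReal_mul (by positivity),
            ENNReal.ofReal_mul (p := ((net n).card : ℝ)) (by positivity)]
          simp
      _ ≤ _ := by
          apply ENNReal.ofReal_le_ofReal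
          have hK := one_le_Kq
          have h3 := card_net n
          calc ((net n).card : ℝ) * (4 ^ n * (12 * n * Kq) ^ n)
              ≤ 24 ^ n * (4 ^ n * (12 * n * Kq) ^ n) := by gcongr
            _ = (Cg * n) ^ n := by
                unfold Cg
                rw [← mul_pow, ← mul_pow]
                congr 1
                ring
  · intro z _
    apply Measurable.aemeasurable
    fun_prop

lemma pow_le_aux {x B : ℝ} (hx : 0 ≤ x) (hB : 0 < B) {p n : ℕ} (hpn : p ≤ n) :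
    x ^ p ≤ B ^ p * (1 + (B ^ n)⁻¹ * x ^ n) := by
  have h1 : (x / B) ^ p ≤ 1 + (x / B) ^ n := by
    rcases le_total (x / B) 1 with h | h
    · have := pow_le_one₀ (n := p) (by positivity) h
      have h2 : 0 ≤ (x / B) ^ n := by positivity
      linarith
    · have := pow_le_pow_right₀ h hpn
      linarith
  rw [div_pow, div_pow] at h1
  have hBp : 0 < B ^ p := by positivity
  rw [div_le_iff₀ hBp] at h1
  calc x ^ p ≤ (1 + x ^ n / B ^ n) * B ^ p := h1
    _ = _ := by rw [div_eq_mul_inv]; ring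

/-- Trace moments of the real Ginibre matrix. -/
lemma lint_trace (hn : 0 < n) {p : ℕ} (hp : p ≤ n) :
    ∫⁻ g : Fin n × Fin n → ℝ, ENNReal.ofReal (((mat g * (mat g)ᵀ) ^ p).trace)
        ∂(G (Fin n × Fin n))
      ≤ ENNReal.ofReal (2 * n * (Cg * n) ^ p) := by
  have hnR : (0 : ℝ) < n := by exact_mod_cast hn
  have hC := Cg_pos
  have h1 : ∀ g : Fin n × Fin n → ℝ, ENNReal.ofReal (((mat g * (mat g)ᵀ) ^ p).trace)
      ≤ ENNReal.ofReal (n * (Cg * n) ^ p) * (1 +
        ENNReal.ofReal (((Cg * n) ^ n)⁻¹) * ENNReal.ofReal (‖opT (mat g)‖ ^ (2 * n))) := by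
    intro g
    rw [← ENNReal.ofReal_mul (by positivity), ← ENNReal.ofReal_one,
      ← ENNReal.ofReal_add (by norm_num) (by positivity), ← ENNReal.ofReal_mul (by positivity)]
    apply ENNReal.ofReal_le_ofReal
    refine (trace_le (mat g) p).trans ?_
    have h2 := pow_le_aux (x := ‖opT (mat g)‖ ^ 2) (B := Cg * n) (by positivity) (by positivity) hp
    rw [← pow_mul, ← pow_mul] at h2
    calc (n : ℝ) * ‖opT (mat g)‖ ^ (2 * p)
        ≤ n * ((Cg * n) ^ p * (1 + ((Cg * n) ^ n)⁻¹ * ‖opT (mat g)‖ ^ (2 * n))) := by gcongr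
      _ = _ := by ring
  refine (lintegral_mono h1).trans ?_
  rw [lintegral_const_mul' _ _ ENNReal.ofReal_ne_top, lintegral_add_left measurable_const,
    lintegral_const_mul' _ _ ENNReal.ofReal_ne_top]
  have h3 := lint_opNorm hn
  calc _ ≤ ENNReal.ofReal (n * (Cg * n) ^ p) * (1 +
        ENNReal.ofReal (((Cg * n) ^ n)⁻¹) * ENNReal.ofReal ((Cg * n) ^ n)) := by
        gcongr
        simp
    _ = _ := by
        rw [← ENNReal.ofReal_mul (by positivity), inv_mul_cancel₀ (by positivity),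
          ← ENNReal.ofReal_one, ← ENNReal.ofReal_add (by norm_num) (by norm_num),
          ← ENNReal.ofReal_mul (by positivity)]
        congr 1
        ring

end Exp

end Pool.Agent.Lib.Pd47e08
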