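import Pool.Agent.Lib.Pd47e08.SecondMoment

/-!
The largest eigenvalue of the Kikuchi matrix as a maximum of linear functions.
-/

open MeasureTheory ProbabilityTheory

set_option linter.unusedSectionVars false
set_option linter.unusedSimpArgs false

namespace Pool.Agent.Lib.Pd47e08

section Kik

variable {n l : ℕ}

/-- The quadratic form of the Kikuchi matrix with entries `Z`. -/
noncomputable def qf (r : ℕ) (Z : Finset (Fin n) → ℝ)
    (v : {K : Finset (Fin n) // K.card = l} → ℝ) : ℝ :=
  ∑ I, ∑ J, if (symmDiff I.1 J.1).card = r then v I * v J * Z (symmDiff I.1 J.1) else 0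

/-- The largest eigenvalue. -/
noncomputable def lam (l r : ℕ) (Z : Finset (Fin n) → ℝ) : ℝ :=
  sSup {t : ℝ | ∃ v : {K : Finset (Fin n) // K.card = l} → ℝ, dotProduct v v = 1 ∧ t = qf r Z v}

/-- Coefficients of the quadratic form as a linear function of the entries. -/
noncomputable def coef (r : ℕ) (v : {K : Finset (Fin n) // K.card = l} → ℝ)
    (S : Finset (Fin n)) : ℝ :=
  if S.card = r then ∑ I, ∑ J, if symmDiff I.1 J.1 = S then v I * v J else 0 else 0

/-- The set of coefficient vectors. -/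
def coefs (n l r : ℕ) : Set (Finset (Fin n) → ℝ) :=
  {a | ∃ v : {K : Finset (Fin n) // K.card = l} → ℝ, dotProduct v v = 1 ∧ a = coef r v}

lemma qf_eq (r : ℕ) (Z : Finset (Fin n) → ℝ) (v : {K : Finset (Fin n) // K.card = l} → ℝ) :
    qf r Z v = ∑ S, coef r v S * Z S := by
  unfold qf coef
  have : ∀ S : Finset (Fin n),
      (if S.card = r then ∑ I : {K : Finset (Fin n) // K.card = l},
        ∑ J : {K : Finset (Fin n) // K.card = l},
          if symmDiff I.1 J.1 = S then v I * v J else 0 else 0) * Z S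
      = ∑ I : {K : Finset (Fin n) // K.card = l}, ∑ J : {K : Finset (Fin n) // K.card = l},
        if symmDiff I.1 J.1 = S then
          (if (symmDiff I.1 J.1).card = r then v I * v J * Z (symmDiff I.1 J.1) else 0) else 0 := by
    intro S
    split_ifs with h
    · rw [Finset.sum_mul]
      apply Finset.sum_congr rfl
      intro I _
      rw [Finset.sum_mul]
      apply Finset.sum_congr rfl
      intro J _
      split_ifs with h1 h2
      · rw [h1]
      · exact absurd (h1 ▸ h) h2
      · ring
    · rw [zero_mul]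
      symm
      apply Finset.sum_eq_zero
      intro I _
      apply Finset.sum_eq_zero
      intro J _
      split_ifs with h1 h2
      · exact absurd (h1 ▸ h2) h
      · rfl
      · rfl
  rw [Finset.sum_congr rfl fun S _ => this S]
  symm
  rw [Finset.sum_comm]
  apply Finset.sum_congr rfl
  intro I _
  rw [Finset.sum_comm]
  apply Finset.sum_congr rfl
  intro J _
  rw [Finset.sum_ite_eq]
  simp

lemma isCompact_sphere {α : Type*} [Fintype α] : IsCompact {v : α → ℝ | dotProduct v v = 1} := by
  apply Metric.isCompact_of_isClosed_isBounded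
  · have : Continuous fun v : α → ℝ => dotProduct v v := by
      unfold dotProduct
      fun_prop
    exact isClosed_singleton.preimage this
  · rw [Metric.isBounded_iff_subset_closedBall 0]
    refine ⟨1, fun v hv => ?_⟩
    rw [mem_closedBall_zero_iff, pi_norm_le_iff_of_nonneg zero_le_one]
    intro i
    rw [Real.norm_eq_abs]
    apply abs_le_of_sq_le_sq _ zero_le_one
    have h1 : v i * v i ≤ ∑ j, v j * v j :=
      Finset.single_le_sum (f := fun j => v j * v j) (fun j _ => mul_self_nonneg _)
        (Finset.mem_univ i)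
    have h2 : ∑ j, v j * v j = 1 := hv
    nlinarith

lemma sphere_nonempty {α : Type*} [Fintype α] [Nonempty α] :
    {v : α → ℝ | dotProduct v v = 1}.Nonempty := by
  classical
  obtain ⟨a⟩ := (inferInstance : Nonempty α)
  refine ⟨Pi.single a 1, ?_⟩
  simp

lemma continuous_qf (r : ℕ) (Z : Finset (Fin n) → ℝ) :
    Continuous fun v : {K : Finset (Fin n) // K.card = l} → ℝ => qf r Z v := by
  unfold qf
  apply continuous_finsetSum
  intro I _
  apply continuous_finsetSum
  intro J _
  split_ifs
  · fun_prop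
  · exact continuous_const

lemma nonempty_sub (h : l ≤ n) : Nonempty {K : Finset (Fin n) // K.card = l} := by
  obtain ⟨A, _, hA⟩ := Finset.exists_subset_card_eq (s := (Finset.univ : Finset (Fin n)))
    (n := l) (by simpa using h)
  exact ⟨⟨A, hA⟩⟩

lemma isMaxFn_lam (h : l ≤ n) (r : ℕ) :
    IsMaxFn (lam l r : (Finset (Fin n) → ℝ) → ℝ) (coefs n l r) := by
  have := nonempty_sub (n := n) h
  intro Z
  obtain ⟨v, hv, hmax⟩ := (isCompact_sphere (α := {K : Finset (Fin n) // K.card = l})).exists_isMaxOn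
    sphere_nonempty (continuous_qf r Z).continuousOn
  have hle : ∀ w : {K : Finset (Fin n) // K.card = l} → ℝ, dotProduct w w = 1 →
      qf r Z w ≤ qf r Z v := fun w hw => hmax hw
  have hbdd : BddAbove {t : ℝ | ∃ v : {K : Finset (Fin n) // K.card = l} → ℝ,
      dotProduct v v = 1 ∧ t = qf r Z v} := by
    refine ⟨qf r Z v, ?_⟩
    rintro t ⟨w, hw, rfl⟩
    exact hle w hw
  have hmem : qf r Z v ∈ {t : ℝ | ∃ v : {K : Finset (Fin n) // K.card = l} → ℝ,
      dotProduct v v = 1 ∧ t = qf r Z v} := ⟨v, hv, rfl⟩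
  have heq : lam l r Z = qf r Z v := by
    apply le_antisymm
    · apply csSup_le ⟨_, hmem⟩
      rintro t ⟨w, hw, rfl⟩
      exact hle w hw
    · exact le_csSup hbdd hmem
  constructor
  · exact ⟨coef r v, ⟨v, hv, rfl⟩, by rw [heq, qf_eq]⟩
  · rintro a ⟨w, hw, rfl⟩
    rw [← qf_eq, heq]
    exact hle w hw

lemma qf_le_lam (h : l ≤ n) (r : ℕ) (Z : Finset (Fin n) → ℝ)
    {v : {K : Finset (Fin n) // K.card = l} → ℝ} (hv : dotProduct v v = 1) :
    qf r Z v ≤ lam l r Z := by
  rw [qf_eq]
  exact (isMaxFn_lam h r Z).2 _ ⟨v, hv, rfl⟩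

lemma coef_support (r : ℕ) : ∀ a ∈ coefs n l r,
    ∀ S ∉ Finset.powersetCard r (Finset.univ : Finset (Fin n)), a S = 0 := by
  rintro a ⟨v, _, rfl⟩ S hS
  unfold coef
  rw [if_neg]
  intro h
  exact hS (by simp [Finset.mem_powersetCard, h])

lemma inter_card {I J : Finset (Fin n)} {k : ℕ} (hI : I.card = l) (hJ : J.card = l)
    (h : (symmDiff I J).card = 2 * k) : (I ∩ J).card + k = l := by
  have h1 : (symmDiff I J).card = (I \ J).card + (J \ I).card := by
    rw [symmDiff_def, Finset.sup_eq_union, Finset.card_union_of_disjoint]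
    exact disjoint_sdiff_sdiff
  have h2 := Finset.card_sdiff_add_card_inter I J
  have h3 := Finset.card_sdiff_add_card_inter J I
  rw [Finset.inter_comm J I] at h3
  omega

/-- For a fixed core `K`, the number of pairs with given symmetric difference is bounded. -/
lemma pair_count (k : ℕ) (K S : Finset (Fin n)) (hK : K.card + k = l) (hS : S.card = 2 * k) :
    (Finset.univ.filter fun p : {K : Finset (Fin n) // K.card = l} ×
      {K : Finset (Fin n) // K.card = l} => K ⊆ p.1.1 ∧ K ⊆ p.2.1 ∧
        symmDiff p.1.1 p.2.1 = S).card ≤ 2 ^ (2 * k) := by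
  rw [← hS, ← Finset.card_powerset]
  apply Finset.card_le_card_of_injOn (fun p => p.1.1 ∩ S)
  · intro p _
    simp
  · rintro ⟨⟨I, hI⟩, ⟨J, hJ⟩⟩ hp ⟨⟨I', hI'⟩, ⟨J', hJ'⟩⟩ hp' heq
    simp only [Finset.coe_filter, Finset.mem_univ, true_and, Set.mem_ofPred_eq] at hp hp'
    simp only at heq
    have hcore : ∀ {I J : Finset (Fin n)}, I.card = l → J.card = l → K ⊆ I → K ⊆ J →
        symmDiff I J = S → I = K ∪ (I ∩ S) := by
      intro I J hI hJ hKI hKJ hIJ
      have h1 := inter_card hI hJ (by rw [hIJ, hS])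
      have h2 : I ∩ J = K := by
        symm
        apply Finset.eq_of_subset_of_card_le (Finset.subset_inter hKI hKJ)
        omega
      rw [← hIJ, ← h2]
      ext x
      simp only [Finset.mem_union, Finset.mem_inter, Finset.mem_symmDiff]
      tauto
    have e1 := hcore hI hJ hp.1 hp.2.1 hp.2.2
    have e2 := hcore hI' hJ' hp'.1 hp'.2.1 hp'.2.2
    have e3 : I = I' := by rw [e1, e2, heq]
    have e4 : J = J' := by
      have a1 : J = symmDiff I S := by rw [← hp.2.2, symmDiff_symmDiff_cancel_left]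
      have a2 : J' = symmDiff I' S := by rw [← hp'.2.2, symmDiff_symmDiff_cancel_left]
      rw [a1, a2, e3]
    subst e3 e4
    rfl

lemma qf_abs_le (k : ℕ) (hk : k ≤ l) (z : Finset (Fin n) → ℝ)
    (v : {K : Finset (Fin n) // K.card = l} → ℝ) (hv : dotProduct v v = 1) :
    |qf (2 * k) z v| ≤ (l.choose k) * Real.sqrt (2 ^ (2 * k) * ∑ S, z S ^ 2) := by
  classical
  set P := Finset.powersetCard (l - k) (Finset.univ : Finset (Fin n)) with hP
  -- rewrite the quadratic form as a sum over cores
  have h1 : qf (2 * k) z v = ∑ K ∈ P, ∑ p ∈ (Finset.univ.filter fun p :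
      {K : Finset (Fin n) // K.card = l} × {K : Finset (Fin n) // K.card = l} =>
        K ⊆ p.1.1 ∧ K ⊆ p.2.1 ∧ (symmDiff p.1.1 p.2.1).card = 2 * k),
      v p.1 * v p.2 * z (symmDiff p.1.1 p.2.1) := by
    unfold qf
    rw [← Fintype.sum_prod_type' (f := fun (I J : {K : Finset (Fin n) // K.card = l}) =>
      if (symmDiff I.1 J.1).card = 2 * k then v I * v J * z (symmDiff I.1 J.1) else 0)]
    simp only [Finset.sum_filter]
    rw [Finset.sum_comm]
    apply Finset.sum_congr rfl
    rintro ⟨I, J⟩ _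
    by_cases h : (symmDiff I.1 J.1).card = 2 * k
    · simp only [h, if_true, and_true]
      rw [← Finset.sum_filter]
      have h2 : (P.filter fun K => K ⊆ I.1 ∧ K ⊆ J.1) = {I.1 ∩ J.1} := by
        have h3 := inter_card I.2 J.2 h
        ext K
        simp only [hP, Finset.mem_filter, Finset.mem_powersetCard, Finset.subset_univ, true_and,
          Finset.mem_singleton]
        constructor
        · rintro ⟨hKc, hKI, hKJ⟩
          apply Finset.eq_of_subset_of_card_le (Finset.subset_inter hKI hKJ)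
          omega
        · rintro rfl
          exact ⟨by omega, Finset.inter_subset_left, Finset.inter_subset_right⟩
      rw [h2, Finset.sum_singleton]
    · simp only [h, if_false, and_false]
      simp
  -- bound for a fixed core
  have h2 : ∀ K ∈ P, |∑ p ∈ (Finset.univ.filter fun p :
      {K : Finset (Fin n) // K.card = l} × {K : Finset (Fin n) // K.card = l} =>
        K ⊆ p.1.1 ∧ K ⊆ p.2.1 ∧ (symmDiff p.1.1 p.2.1).card = 2 * k),
      v p.1 * v p.2 * z (symmDiff p.1.1 p.2.1)|
      ≤ (∑ I : {K : Finset (Fin n) // K.card = l}, if K ⊆ I.1 then v I ^ 2 else 0)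
        * Real.sqrt (2 ^ (2 * k) * ∑ S, z S ^ 2) := by
    intro K hK
    have hKc : K.card + k = l := by
      have := (Finset.mem_powersetCard.1 hK).2
      omega
    set F := (Finset.univ.filter fun p :
      {K : Finset (Fin n) // K.card = l} × {K : Finset (Fin n) // K.card = l} =>
        K ⊆ p.1.1 ∧ K ⊆ p.2.1 ∧ (symmDiff p.1.1 p.2.1).card = 2 * k) with hF
    set W := ∑ I : {K : Finset (Fin n) // K.card = l}, if K ⊆ I.1 then v I ^ 2 else 0 with hW
    have hW0 : 0 ≤ W := Finset.sum_nonneg fun I _ => by split_ifs <;> positivity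
    have hcs := Finset.sum_mul_sq_le_sq_mul_sq F (fun p => v p.1 * v p.2)
      (fun p => z (symmDiff p.1.1 p.2.1))
    have h3 : ∑ p ∈ F, (v p.1 * v p.2) ^ 2 ≤ W ^ 2 := by
      rw [sq W, hW, Finset.sum_mul_sum, ← Fintype.sum_prod_type' (f := fun I J =>
        (if K ⊆ I.1 then v I ^ 2 else 0) * (if K ⊆ J.1 then v J ^ 2 else 0))]
      rw [hF, Finset.sum_filter]
      apply Finset.sum_le_sum
      intro p _
      have a0 : 0 ≤ v p.1 ^ 2 * v p.2 ^ 2 := by positivity
      by_cases a1 : K ⊆ p.1.1 <;> by_cases a2 : K ⊆ p.2.1 <;>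
        by_cases a3 : (symmDiff p.1.1 p.2.1).card = 2 * k <;> simp [a1, a2, a3, mul_pow, a0]
    have h4 : ∑ p ∈ F, (z (symmDiff p.1.1 p.2.1)) ^ 2 ≤ 2 ^ (2 * k) * ∑ S, z S ^ 2 := by
      rw [← Finset.sum_fiberwise_of_maps_to (s := F) (t := Finset.univ)
        (g := fun p => symmDiff p.1.1 p.2.1) (fun _ _ => Finset.mem_univ _), Finset.mul_sum]
      apply Finset.sum_le_sum
      intro S _
      rw [Finset.sum_congr rfl (g := fun _ => z S ^ 2)]
      · rw [Finset.sum_const, nsmul_eq_mul]
        by_cases hS : S.card = 2 * k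
        · gcongr
          have h5 := pair_count k K S hKc hS
          have h6 : (F.filter fun p => symmDiff p.1.1 p.2.1 = S).card ≤ 2 ^ (2 * k) := by
            refine le_trans (Finset.card_le_card ?_) h5
            intro p hp
            simp only [hF, Finset.mem_filter, Finset.mem_univ, true_and] at hp ⊢
            exact ⟨hp.1.1, hp.1.2.1, hp.2⟩
          exact_mod_cast h6
        · have h6 : (F.filter fun p => symmDiff p.1.1 p.2.1 = S) = ∅ := by
            apply Finset.filter_eq_empty_iff.2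
            intro p hp h7
            simp only [hF, Finset.mem_filter, Finset.mem_univ, true_and] at hp
            exact hS (h7 ▸ hp.2.2)
          rw [h6]
          simp only [Finset.card_empty, Nat.cast_zero, zero_mul]
          positivity
      · intro p hp
        rw [Finset.mem_filter] at hp
        rw [hp.2]
    have h5 : (∑ p ∈ F, v p.1 * v p.2 * z (symmDiff p.1.1 p.2.1)) ^ 2
        ≤ W ^ 2 * (2 ^ (2 * k) * ∑ S, z S ^ 2) := by
      refine hcs.trans ?_
      have : 0 ≤ ∑ S, z S ^ 2 := Finset.sum_nonneg fun S _ => sq_nonneg _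
      have h6 : 0 ≤ ∑ p ∈ F, (z (symmDiff p.1.1 p.2.1)) ^ 2 :=
        Finset.sum_nonneg fun S _ => sq_nonneg _
      gcongr
    have h6 := Real.abs_le_sqrt h5
    rwa [Real.sqrt_mul (sq_nonneg W), Real.sqrt_sq hW0] at h6
  -- sum over cores
  rw [h1]
  calc |∑ K ∈ P, ∑ p ∈ (Finset.univ.filter fun p :
      {K : Finset (Fin n) // K.card = l} × {K : Finset (Fin n) // K.card = l} =>
        K ⊆ p.1.1 ∧ K ⊆ p.2.1 ∧ (symmDiff p.1.1 p.2.1).card = 2 * k),
      v p.1 * v p.2 * z (symmDiff p.1.1 p.2.1)|
      ≤ ∑ K ∈ P, |∑ p ∈ (Finset.univ.filter fun p :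
      {K : Finset (Fin n) // K.card = l} × {K : Finset (Fin n) // K.card = l} =>
        K ⊆ p.1.1 ∧ K ⊆ p.2.1 ∧ (symmDiff p.1.1 p.2.1).card = 2 * k),
      v p.1 * v p.2 * z (symmDiff p.1.1 p.2.1)| := Finset.abs_sum_le_sum_abs _ _
    _ ≤ ∑ K ∈ P, (∑ I : {K : Finset (Fin n) // K.card = l}, if K ⊆ I.1 then v I ^ 2 else 0)
        * Real.sqrt (2 ^ (2 * k) * ∑ S, z S ^ 2) := Finset.sum_le_sum h2
    _ = (∑ I : {K : Finset (Fin n) // K.card = l}, ((P.filter fun K => K ⊆ I.1).card : ℝ)
          * v I ^ 2) * Real.sqrt (2 ^ (2 * k) * ∑ S, z S ^ 2) := by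
        rw [← Finset.sum_mul, Finset.sum_comm]
        congr 1
        apply Finset.sum_congr rfl
        intro I _
        rw [← Finset.sum_filter, Finset.sum_const, nsmul_eq_mul]
    _ = (l.choose k) * Real.sqrt (2 ^ (2 * k) * ∑ S, z S ^ 2) := by
        congr 1
        have h3 : ∀ I : {K : Finset (Fin n) // K.card = l},
            (P.filter fun K => K ⊆ I.1).card = l.choose k := by
          intro I
          have : (P.filter fun K => K ⊆ I.1) = Finset.powersetCard (l - k) I.1 := by
            ext K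
            simp only [hP, Finset.mem_filter, Finset.mem_powersetCard, Finset.subset_univ,
              true_and]
            tauto
          rw [this, Finset.card_powersetCard, I.2, Nat.choose_symm hk]
        simp only [h3]
        rw [← Finset.mul_sum]
        have h4 : ∑ I, v I ^ 2 = 1 := by
          rw [← hv]
          unfold dotProduct
          exact Finset.sum_congr rfl fun I _ => by ring
        rw [h4, mul_one]

/-- The coefficient vectors are bounded in Euclidean norm, uniformly in `n`. -/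
lemma coef_bound (k : ℕ) (hk : k ≤ l) : ∀ a ∈ coefs n l (2 * k),
    ∑ S, a S ^ 2 ≤ ((l.choose k : ℝ) * 2 ^ k) ^ 2 := by
  rintro a ⟨v, hv, rfl⟩
  have h1 := qf_abs_le k hk (coef (2 * k) v) v hv
  rw [qf_eq] at h1
  set T := ∑ S, coef (2 * k) v S ^ 2 with hT
  have hT' : ∑ S, coef (2 * k) v S * coef (2 * k) v S = T := by
    rw [hT]; exact Finset.sum_congr rfl fun S _ => by ring
  rw [hT'] at h1
  have hT0 : 0 ≤ T := Finset.sum_nonneg fun S _ => sq_nonneg _
  rw [abs_of_nonneg hT0] at h1
  have h2 : (2 : ℝ) ^ (2 * k) = (2 ^ k) ^ 2 := by rw [← pow_mul, mul_comm]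
  rw [h2, Real.sqrt_mul (by positivity), Real.sqrt_sq (by positivity)] at h1
  have h3 : T = Real.sqrt T * Real.sqrt T := (Real.mul_self_sqrt hT0).symm
  have h4 : 0 ≤ Real.sqrt T := Real.sqrt_nonneg _
  have h5 : Real.sqrt T ≤ (l.choose k : ℝ) * 2 ^ k := by
    rcases h4.eq_or_lt with h6 | h6
    · rw [← h6]; positivity
    · have h7 : Real.sqrt T * Real.sqrt T ≤ ((l.choose k : ℝ) * 2 ^ k) * Real.sqrt T := by
        rw [← h3]; linarith
      exact le_of_mul_le_mul_right h7 h6
  rw [h3, ← sq]
  gcongr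

end Kik

end Pool.Agent.Lib.Pd47e08
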