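import Pool.Agent.Lib.Pd47e08.Red

/-!
The Kikuchi quadratic form in terms of the lifted matrices.
-/

open MeasureTheory ProbabilityTheory Matrix

set_option linter.unusedSectionVars false
set_option linter.unusedSimpArgs false

namespace Pool.Agent.Lib.Pd47e08

section Power

variable {I : Type*} [Fintype I] [DecidableEq I]

lemma cs_form (f : I → ℝ) (Y : Matrix I I ℝ) :
    (f ⬝ᵥ Y *ᵥ f) ^ 2 ≤ (f ⬝ᵥ f) ^ 2 * (Y * Yᵀ).trace := by
  have h1 : f ⬝ᵥ Y *ᵥ f = ∑ p : I × I, (f p.1 * f p.2) * Y p.1 p.2 := by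
    rw [Fintype.sum_prod_type]
    simp only [dotProduct, Matrix.mulVec]
    apply Finset.sum_congr rfl
    intro i _
    rw [Finset.mul_sum]
    apply Finset.sum_congr rfl
    intro j _
    ring
  have h2 := Finset.sum_mul_sq_le_sq_mul_sq (Finset.univ : Finset (I × I))
    (fun p => f p.1 * f p.2) (fun p => Y p.1 p.2)
  rw [h1]
  refine h2.trans (le_of_eq ?_)
  congr 1
  · rw [Fintype.sum_prod_type]
    simp only [dotProduct, sq, Finset.sum_mul_sum]
    apply Finset.sum_congr rfl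
    intro i _
    apply Finset.sum_congr rfl
    intro j _
    ring
  · rw [Fintype.sum_prod_type]
    simp only [Matrix.trace, Matrix.diag_apply, Matrix.mul_apply, Matrix.transpose_apply]
    apply Finset.sum_congr rfl
    intro i _
    apply Finset.sum_congr rfl
    intro j _
    ring

lemma cs_step (f : I → ℝ) (X : Matrix I I ℝ) :
    (f ⬝ᵥ X *ᵥ f) ^ 2 ≤ (f ⬝ᵥ f) * (f ⬝ᵥ (X * Xᵀ) *ᵥ f) := by
  have h1 : f ⬝ᵥ X *ᵥ f = (Xᵀ *ᵥ f) ⬝ᵥ f := by
    rw [Matrix.dotProduct_mulVec, ← Matrix.mulVec_transpose]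
  have h2 : f ⬝ᵥ (X * Xᵀ) *ᵥ f = (Xᵀ *ᵥ f) ⬝ᵥ (Xᵀ *ᵥ f) := by
    rw [← Matrix.mulVec_mulVec, Matrix.dotProduct_mulVec, ← Matrix.mulVec_transpose]
  rw [h1, h2]
  have h3 := Finset.sum_mul_sq_le_sq_mul_sq (Finset.univ : Finset I) (Xᵀ *ᵥ f) f
  simp only [dotProduct]
  calc _ ≤ _ := h3
    _ = _ := by
        rw [mul_comm]
        congr 1
        · exact Finset.sum_congr rfl fun i _ => by ring
        · exact Finset.sum_congr rfl fun i _ => by ring

lemma dot_self_nonneg (f : I → ℝ) : 0 ≤ f ⬝ᵥ f := by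
  unfold dotProduct
  exact Finset.sum_nonneg fun i _ => mul_self_nonneg _

lemma psd_nonneg (f : I → ℝ) (X : Matrix I I ℝ) : 0 ≤ f ⬝ᵥ (X * Xᵀ) *ᵥ f := by
  rw [← Matrix.mulVec_mulVec, Matrix.dotProduct_mulVec, ← Matrix.mulVec_transpose]
  exact dot_self_nonneg _

lemma pow_transpose_self (X : Matrix I I ℝ) (m : ℕ) : ((X * Xᵀ) ^ m)ᵀ = (X * Xᵀ) ^ m := by
  rw [Matrix.transpose_pow, Matrix.transpose_mul, Matrix.transpose_transpose]

/-- The quadratic form of a matrix against trace moments. -/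
lemma form_pow_le (f : I → ℝ) (X : Matrix I I ℝ) (j : ℕ) :
    (f ⬝ᵥ X *ᵥ f) ^ (2 ^ (j + 2)) ≤ (f ⬝ᵥ f) ^ (2 ^ (j + 2)) * ((X * Xᵀ) ^ (2 ^ (j + 1))).trace := by
  set B := X * Xᵀ with hB
  set s := f ⬝ᵥ f with hs
  have hs0 : 0 ≤ s := dot_self_nonneg f
  have hB0 : 0 ≤ f ⬝ᵥ B *ᵥ f := psd_nonneg f X
  -- powers
  have h1 : ∀ i : ℕ, (f ⬝ᵥ B *ᵥ f) ^ (2 ^ i) * s ≤ s ^ (2 ^ i) * (f ⬝ᵥ (B ^ (2 ^ i)) *ᵥ f) := by
    intro i
    induction i with
    | zero =>
      simp only [pow_zero, pow_one]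
      linarith [mul_comm (f ⬝ᵥ B *ᵥ f) s]
    | succ i ih =>
      have h2 := cs_step f (B ^ (2 ^ i))
      rw [hB, pow_transpose_self, ← hB, ← pow_add, ← two_mul, ← pow_succ'] at h2
      have hnn : 0 ≤ (f ⬝ᵥ B *ᵥ f) ^ (2 ^ i) * s := by positivity
      have h3 := mul_le_mul ih ih hnn (hnn.trans ih)
      rcases eq_or_lt_of_le hs0 with h0 | h0
      · rw [← h0]
        simp
      · have h4 : s * ((f ⬝ᵥ B *ᵥ f) ^ (2 ^ (i + 1)) * s)
            ≤ s * (s ^ (2 ^ (i + 1)) * (f ⬝ᵥ (B ^ (2 ^ (i + 1))) *ᵥ f)) := by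
          calc s * ((f ⬝ᵥ B *ᵥ f) ^ (2 ^ (i + 1)) * s)
              = ((f ⬝ᵥ B *ᵥ f) ^ (2 ^ i) * s) * ((f ⬝ᵥ B *ᵥ f) ^ (2 ^ i) * s) := by
                rw [pow_succ 2 i, pow_mul]
                ring
            _ ≤ (s ^ (2 ^ i) * (f ⬝ᵥ (B ^ (2 ^ i)) *ᵥ f)) * (s ^ (2 ^ i) * (f ⬝ᵥ (B ^ (2 ^ i)) *ᵥ f)) := h3
            _ = s ^ (2 ^ (i + 1)) * (f ⬝ᵥ (B ^ (2 ^ i)) *ᵥ f) ^ 2 := by
                rw [pow_succ 2 i, pow_mul]
                ring
            _ ≤ s ^ (2 ^ (i + 1)) * (s * (f ⬝ᵥ (B ^ (2 ^ (i + 1))) *ᵥ f)) := by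
                gcongr
            _ = _ := by ring
        exact le_of_mul_le_mul_left h4 h0
  have h5 := cs_form f (B ^ (2 ^ j))
  rw [hB, pow_transpose_self, ← hB, ← pow_add, ← two_mul, ← pow_succ'] at h5
  have h6 := cs_step f X
  rw [← hB, ← hs] at h6
  rcases eq_or_lt_of_le hs0 with h0 | h0
  · have h7 : (f ⬝ᵥ X *ᵥ f) ^ 2 ≤ 0 := by rw [← h0] at h6; simpa using h6
    have h8 : f ⬝ᵥ X *ᵥ f = 0 := by
      have := le_antisymm h7 (sq_nonneg _)
      exact pow_eq_zero_iff (two_ne_zero) |>.mp this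
    rw [h8, ← h0]
    simp
  · have h7 := h1 j
    have hnn : 0 ≤ (f ⬝ᵥ B *ᵥ f) ^ (2 ^ j) * s := by positivity
    have h8 : ((f ⬝ᵥ B *ᵥ f) ^ (2 ^ j) * s) ^ 2 ≤ (s ^ (2 ^ j)) ^ 2 * (s ^ 2 * (B ^ (2 ^ (j + 1))).trace) := by
      calc _ ≤ (s ^ (2 ^ j) * (f ⬝ᵥ (B ^ (2 ^ j)) *ᵥ f)) ^ 2 := by gcongr
        _ = (s ^ (2 ^ j)) ^ 2 * (f ⬝ᵥ (B ^ (2 ^ j)) *ᵥ f) ^ 2 := by ring
        _ ≤ _ := by gcongr
    have h9 : (f ⬝ᵥ B *ᵥ f) ^ (2 ^ (j + 1)) ≤ s ^ (2 ^ (j + 1)) * (B ^ (2 ^ (j + 1))).trace := by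
      have hs2 : 0 < s ^ 2 := by positivity
      have e1 : s ^ 2 * (f ⬝ᵥ B *ᵥ f) ^ (2 ^ (j + 1))
          ≤ s ^ 2 * (s ^ (2 ^ (j + 1)) * (B ^ (2 ^ (j + 1))).trace) := by
        calc _ = ((f ⬝ᵥ B *ᵥ f) ^ (2 ^ j) * s) ^ 2 := by
              rw [pow_succ 2 j, pow_mul]
              ring
          _ ≤ _ := h8
          _ = _ := by
              rw [pow_succ 2 j, pow_mul]
              ring
      exact le_of_mul_le_mul_left e1 hs2
    calc (f ⬝ᵥ X *ᵥ f) ^ (2 ^ (j + 2)) = ((f ⬝ᵥ X *ᵥ f) ^ 2) ^ (2 ^ (j + 1)) := by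
          rw [← pow_mul, ← pow_succ']
      _ ≤ (s * (f ⬝ᵥ B *ᵥ f)) ^ (2 ^ (j + 1)) := by gcongr
      _ = s ^ (2 ^ (j + 1)) * (f ⬝ᵥ B *ᵥ f) ^ (2 ^ (j + 1)) := by rw [mul_pow]
      _ ≤ s ^ (2 ^ (j + 1)) * (s ^ (2 ^ (j + 1)) * (B ^ (2 ^ (j + 1))).trace) := by gcongr
      _ = _ := by
          rw [← mul_assoc, ← pow_add, ← two_mul, ← pow_succ']

end Power

section Lift

variable {n l : ℕ}

/-- Extension by zero. -/
noncomputable def ext0 (v : {K : Finset (Fin n) // K.card = l} → ℝ) (I : Finset (Fin n)) : ℝ :=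
  if h : I.card = l then v ⟨I, h⟩ else 0

/-- The lifted vector. -/
noncomputable def liftv (v : {K : Finset (Fin n) // K.card = l} → ℝ)
    (z : Fin n × Finset (Fin n)) : ℝ :=
  if z.1 ∉ z.2 then ext0 v (insert z.1 z.2) else 0

lemma sum_ext0 (v : {K : Finset (Fin n) // K.card = l} → ℝ) (F : Finset (Fin n) → ℝ → ℝ)
    (hF : ∀ I, F I 0 = 0) :
    ∑ I : {K : Finset (Fin n) // K.card = l}, F I.1 (v I) = ∑ I, F I (ext0 v I) := by
  have h1 : ∀ I : Finset (Fin n), F I (ext0 v I) = if I.card = l then F I (ext0 v I) else 0 := by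
    intro I
    split_ifs with h
    · rfl
    · unfold ext0
      rw [dif_neg h, hF]
  rw [Finset.sum_congr rfl fun I _ => h1 I, ← Finset.sum_filter]
  rw [← Finset.sum_subtype_of_mem (p := fun I : Finset (Fin n) => I.card = l)
    (f := fun I => F I (ext0 v I)) (s := Finset.univ.filter fun I : Finset (Fin n) => I.card = l)
    (by intro x hx; exact (Finset.mem_filter.mp hx).2)]
  apply Finset.sum_congr
  · ext I
    simp [I.2]
  · intro I _
    unfold ext0
    rw [dif_pos I.2]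

lemma sum_insert_erase (a : Fin n) (H : Finset (Fin n) → ℝ) :
    ∑ K : Finset (Fin n), (if a ∉ K then H K else 0)
      = ∑ I : Finset (Fin n), if a ∈ I then H (I.erase a) else 0 := by
  rw [← Finset.sum_filter, ← Finset.sum_filter]
  refine Finset.sum_bij' (fun K _ => insert a K) (fun I _ => I.erase a) ?_ ?_ ?_ ?_ ?_
  · intro K hK
    simp
  · intro I hI
    simp
  · intro K hK
    exact Finset.erase_insert (Finset.mem_filter.mp hK).2
  · intro I hI
    exact Finset.insert_erase (Finset.mem_filter.mp hI).2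
  · intro K hK
    rw [Finset.erase_insert (Finset.mem_filter.mp hK).2]

lemma liftv_norm (v : {K : Finset (Fin n) // K.card = l} → ℝ) (hv : dotProduct v v = 1) :
    liftv v ⬝ᵥ liftv v = l := by
  have h1 : liftv v ⬝ᵥ liftv v
      = ∑ a : Fin n, ∑ I : Finset (Fin n), if a ∈ I then ext0 v I ^ 2 else 0 := by
    unfold dotProduct
    rw [Fintype.sum_prod_type]
    apply Finset.sum_congr rfl
    intro a _
    have := sum_insert_erase a (fun K => ext0 v (insert a K) ^ 2)
    rw [show (∑ I : Finset (Fin n), if a ∈ I then ext0 v I ^ 2 else 0)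
      = ∑ I : Finset (Fin n), if a ∈ I then ext0 v (insert a (I.erase a)) ^ 2 else 0 from
      Finset.sum_congr rfl fun I _ => by
        split_ifs with h
        · rw [Finset.insert_erase h]
        · rfl]
    rw [← this]
    apply Finset.sum_congr rfl
    intro K _
    unfold liftv
    simp only
    split_ifs <;> ring
  rw [h1, Finset.sum_comm]
  have h2 : ∀ I : Finset (Fin n), (∑ a : Fin n, if a ∈ I then ext0 v I ^ 2 else 0)
      = l * ext0 v I ^ 2 := by
    intro I
    rw [Finset.sum_ite_mem, Finset.univ_inter, Finset.sum_const, nsmul_eq_mul]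
    unfold ext0
    split_ifs with h
    · rw [h]
    · simp
  rw [Finset.sum_congr rfl fun I _ => h2 I, ← Finset.mul_sum,
    ← sum_ext0 v (fun _ x => x ^ 2) (fun _ => by simp)]
  have h3 : ∑ I : {K : Finset (Fin n) // K.card = l}, v I ^ 2 = 1 := by
    rw [← hv]
    unfold dotProduct
    exact Finset.sum_congr rfl fun I _ => by ring
  rw [h3, mul_one]

open Classical in
/-- The uncoloured lifted matrix. -/
noncomputable def Xall (l k : ℕ) (Z : Finset (Fin n) → ℝ) :
    Matrix (Fin n × Finset (Fin n)) (Fin n × Finset (Fin n)) ℝ :=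
  Matrix.of fun z z' => if m0 l k z z' then Z (Sset (labF true z z')) else 0

lemma card_sdiff_aux {I J : Finset (Fin n)} (hI : I.card = l) (hJ : J.card = l) :
    (I \ J).card = (J \ I).card ∧ (symmDiff I J).card = 2 * (I \ J).card := by
  have h1 : (symmDiff I J).card = (I \ J).card + (J \ I).card := by
    rw [symmDiff_def, Finset.sup_eq_union, Finset.card_union_of_disjoint]
    exact disjoint_sdiff_sdiff
  have h2 := Finset.card_sdiff_add_card_inter I J
  have h3 := Finset.card_sdiff_add_card_inter J I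
  rw [Finset.inter_comm J I] at h3
  omega

lemma m0_iff {k : ℕ} {I J : Finset (Fin n)} {a b : Fin n} (ha : a ∈ I) (hb : b ∈ J)
    (hI : I.card = l) (hJ : J.card = l) :
    m0 l k (a, I.erase a) (b, J.erase b) ↔
      (a ∈ I \ J ∧ b ∈ J \ I) ∧ (symmDiff I J).card = 2 * k := by
  obtain ⟨c1, c2⟩ := card_sdiff_aux hI hJ
  have hIe : (I.erase a).card + 1 = l := by rw [Finset.card_erase_add_one ha, hI]
  have hJe : (J.erase b).card + 1 = l := by rw [Finset.card_erase_add_one hb, hJ]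
  unfold m0 maskK
  simp only [Finset.mem_erase, ne_eq, not_true_eq_false, false_and, not_false_eq_true,
    Finset.mem_sdiff]
  constructor
  · rintro ⟨⟨h1, _, h2, h3, _⟩, _, _, h4, _⟩
    have haJ : a ∉ J := fun h => h2 ⟨h1, h⟩
    have hbI : b ∉ I := fun h => h3 ⟨fun e => h1 e.symm, h⟩
    refine ⟨⟨⟨ha, haJ⟩, hb, hbI⟩, ?_⟩
    have e1 : (I.erase a) \ (J.erase b) = (I \ J).erase a := by
      ext x
      simp only [Finset.mem_erase, Finset.mem_sdiff]
      constructor
      · rintro ⟨⟨h5, h6⟩, h7⟩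
        exact ⟨h5, h6, fun h8 => h7 ⟨fun e => hbI (e ▸ h6), h8⟩⟩
      · rintro ⟨h5, h6, h7⟩
        exact ⟨⟨h5, h6⟩, fun h8 => h7 h8.2⟩
    rw [e1, Finset.card_erase_add_one (Finset.mem_sdiff.mpr ⟨ha, haJ⟩)] at h4
    rw [c2, h4]
  · rintro ⟨⟨⟨_, haJ⟩, _, hbI⟩, h4⟩
    have e1 : (I.erase a) \ (J.erase b) = (I \ J).erase a := by
      ext x
      simp only [Finset.mem_erase, Finset.mem_sdiff]
      constructor
      · rintro ⟨⟨h5, h6⟩, h7⟩
        exact ⟨h5, h6, fun h8 => h7 ⟨fun e => hbI (e ▸ h6), h8⟩⟩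
      · rintro ⟨h5, h6, h7⟩
        exact ⟨⟨h5, h6⟩, fun h8 => h7 h8.2⟩
    have e2 : (J.erase b) \ (I.erase a) = (J \ I).erase b := by
      ext x
      simp only [Finset.mem_erase, Finset.mem_sdiff]
      constructor
      · rintro ⟨⟨h5, h6⟩, h7⟩
        exact ⟨h5, h6, fun h8 => h7 ⟨fun e => haJ (e ▸ h6), h8⟩⟩
      · rintro ⟨h5, h6, h7⟩
        exact ⟨⟨h5, h6⟩, fun h8 => h7 h8.2⟩
    refine ⟨⟨fun e => haJ (e ▸ hb), trivial, fun h => haJ h.2, fun h => hbI h.2, trivial⟩,
      hIe, hJe, ?_, ?_⟩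
    · rw [e1, Finset.card_erase_add_one (Finset.mem_sdiff.mpr ⟨ha, haJ⟩)]
      omega
    · rw [e2, Finset.card_erase_add_one (Finset.mem_sdiff.mpr ⟨hb, hbI⟩)]
      omega

lemma Sset_eq {I J : Finset (Fin n)} {a b : Fin n} (ha : a ∈ I \ J) (hb : b ∈ J \ I) :
    Sset (labF true (a, I.erase a) (b, J.erase b)) = symmDiff I J := by
  rw [Finset.mem_sdiff] at ha hb
  unfold Sset labF labK
  simp only [if_true]
  ext x
  simp only [Finset.mem_union, Finset.mem_insert, Finset.mem_singleton, Finset.mem_sdiff,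
    Finset.mem_erase, Finset.mem_symmDiff]
  by_cases hxa : x = a
  · subst hxa
    simp [ha.1, ha.2]
  · by_cases hxb : x = b
    · subst hxb
      simp [hb.1, hb.2]
    · simp [hxa, hxb]

/-- The Kikuchi form is the form of the lifted matrix. -/
lemma lift_form {k : ℕ} (Z : Finset (Fin n) → ℝ)
    (v : {K : Finset (Fin n) // K.card = l} → ℝ) :
    liftv v ⬝ᵥ (Xall l k Z) *ᵥ (liftv v) = (k : ℝ) ^ 2 * qf (2 * k) Z v := by
  classical
  have h1 : liftv v ⬝ᵥ (Xall l k Z) *ᵥ (liftv v)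
      = ∑ a : Fin n, ∑ b : Fin n, ∑ I, ∑ J, if a ∈ I ∧ b ∈ J then
        (if m0 l k (a, I.erase a) (b, J.erase b) then ext0 v I * ext0 v J *
          Z (Sset (labF true (a, I.erase a) (b, J.erase b))) else 0) else 0 := by
    simp only [dotProduct, Matrix.mulVec, Finset.mul_sum]
    rw [Fintype.sum_prod_type]
    apply Finset.sum_congr rfl
    intro a _
    have e1 : ∀ K : Finset (Fin n), (∑ z' : Fin n × Finset (Fin n),
        liftv v (a, K) * (Xall l k Z (a, K) z' * liftv v z'))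
        = if a ∉ K then ∑ z' : Fin n × Finset (Fin n),
          ext0 v (insert a K) * (Xall l k Z (a, K) z' * liftv v z') else 0 := by
      intro K
      by_cases h : a ∈ K
      · have e0 : liftv v (a, K) = 0 := by simp [liftv, h]
        rw [if_neg (not_not.mpr h)]
        simp [e0]
      · have e0 : liftv v (a, K) = ext0 v (insert a K) := by simp [liftv, h]
        rw [if_pos h, e0]
    rw [Finset.sum_congr rfl fun K _ => e1 K, sum_insert_erase a, Finset.sum_comm]
    apply Finset.sum_congr rfl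
    intro I _
    split_ifs with haI
    · rw [Finset.insert_erase haI, Fintype.sum_prod_type]
      apply Finset.sum_congr rfl
      intro b _
      have e2 : ∀ K : Finset (Fin n),
          ext0 v I * (Xall l k Z (a, I.erase a) (b, K) * liftv v (b, K))
          = if b ∉ K then ext0 v I * (Xall l k Z (a, I.erase a) (b, K) * ext0 v (insert b K))
            else 0 := by
        intro K
        by_cases h : b ∈ K
        · have e0 : liftv v (b, K) = 0 := by simp [liftv, h]
          rw [if_neg (not_not.mpr h)]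
          simp [e0]
        · have e0 : liftv v (b, K) = ext0 v (insert b K) := by simp [liftv, h]
          rw [if_pos h, e0]
      rw [Finset.sum_congr rfl fun K _ => e2 K, sum_insert_erase b]
      apply Finset.sum_congr rfl
      intro J _
      by_cases hbJ : b ∈ J
      · rw [if_pos hbJ, if_pos ⟨haI, hbJ⟩, Finset.insert_erase hbJ]
        unfold Xall
        simp only [Matrix.of_apply]
        split_ifs <;> ring
      · rw [if_neg hbJ, if_neg (fun h => hbJ h.2)]
    · symm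
      apply Finset.sum_eq_zero
      intro b _
      apply Finset.sum_eq_zero
      intro J _
      rw [if_neg (fun h => haI h.1)]
  have h2 : ∀ (a b : Fin n) (I J : Finset (Fin n)), (if a ∈ I ∧ b ∈ J then
        (if m0 l k (a, I.erase a) (b, J.erase b) then ext0 v I * ext0 v J *
          Z (Sset (labF true (a, I.erase a) (b, J.erase b))) else 0) else 0)
      = if a ∈ I \ J ∧ b ∈ J \ I then (if (symmDiff I J).card = 2 * k then
          ext0 v I * ext0 v J * Z (symmDiff I J) else 0) else 0 := by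
    intro a b I J
    by_cases hI : I.card = l
    · by_cases hJ : J.card = l
      · by_cases hab : a ∈ I ∧ b ∈ J
        · rw [if_pos hab]
          have h3 := m0_iff (k := k) hab.1 hab.2 hI hJ
          by_cases h4 : a ∈ I \ J ∧ b ∈ J \ I
          · rw [if_pos h4, Sset_eq h4.1 h4.2]
            by_cases h5 : (symmDiff I J).card = 2 * k
            · rw [if_pos h5, if_pos (h3.mpr ⟨h4, h5⟩)]
            · rw [if_neg h5, if_neg (fun h => h5 (h3.mp h).2)]
          · rw [if_neg h4, if_neg (fun h => h4 (h3.mp h).1)]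
        · rw [if_neg hab, if_neg]
          rintro ⟨h4, h5⟩
          exact hab ⟨(Finset.mem_sdiff.mp h4).1, (Finset.mem_sdiff.mp h5).1⟩
      · have : ext0 v J = 0 := by unfold ext0; rw [dif_neg hJ]
        simp [this]
    · have : ext0 v I = 0 := by unfold ext0; rw [dif_neg hI]
      simp [this]
  rw [h1]
  simp only [h2]
  have h3 : ∑ a : Fin n, ∑ b : Fin n, ∑ I : Finset (Fin n), ∑ J : Finset (Fin n),
      (if a ∈ I \ J ∧ b ∈ J \ I then (if (symmDiff I J).card = 2 * k then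
          ext0 v I * ext0 v J * Z (symmDiff I J) else 0) else 0)
      = ∑ I : Finset (Fin n), ∑ J : Finset (Fin n), ((I \ J).card : ℝ) * ((J \ I).card : ℝ) *
        (if (symmDiff I J).card = 2 * k then
          ext0 v I * ext0 v J * Z (symmDiff I J) else 0) := by
    have e1 : ∀ (a : Fin n), ∑ b : Fin n, ∑ I : Finset (Fin n), ∑ J : Finset (Fin n),
      (if a ∈ I \ J ∧ b ∈ J \ I then (if (symmDiff I J).card = 2 * k then
          ext0 v I * ext0 v J * Z (symmDiff I J) else 0) else 0)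
        = ∑ I : Finset (Fin n), ∑ J : Finset (Fin n), ∑ b : Fin n,
      (if a ∈ I \ J ∧ b ∈ J \ I then (if (symmDiff I J).card = 2 * k then
          ext0 v I * ext0 v J * Z (symmDiff I J) else 0) else 0) := by
      intro a
      rw [Finset.sum_comm]
      apply Finset.sum_congr rfl
      intro I _
      rw [Finset.sum_comm]
    rw [Finset.sum_congr rfl fun a _ => e1 a, Finset.sum_comm]
    apply Finset.sum_congr rfl
    intro I _
    rw [Finset.sum_comm]
    apply Finset.sum_congr rfl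
    intro J _
    have e2 : ∀ a : Fin n, (∑ b : Fin n, if a ∈ I \ J ∧ b ∈ J \ I then
        (if (symmDiff I J).card = 2 * k then
          ext0 v I * ext0 v J * Z (symmDiff I J) else 0) else 0)
        = if a ∈ I \ J then ((J \ I).card : ℝ) * (if (symmDiff I J).card = 2 * k then
          ext0 v I * ext0 v J * Z (symmDiff I J) else 0) else 0 := by
      intro a
      by_cases ha : a ∈ I \ J
      · simp only [ha, true_and, if_true]
        rw [Finset.sum_ite_mem, Finset.univ_inter, Finset.sum_const, nsmul_eq_mul]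
      · simp [ha]
    rw [Finset.sum_congr rfl fun a _ => e2 a, Finset.sum_ite_mem, Finset.univ_inter,
      Finset.sum_const, nsmul_eq_mul]
    ring
  rw [h3]
  unfold qf
  rw [sum_ext0 v (fun I x => ∑ J : {K : Finset (Fin n) // K.card = l},
    if (symmDiff I J.1).card = 2 * k then x * v J * Z (symmDiff I J.1) else 0)
    (fun I => by simp), Finset.mul_sum]
  apply Finset.sum_congr rfl
  intro I _
  rw [sum_ext0 v (fun J x =>
    if (symmDiff I J).card = 2 * k then ext0 v I * x * Z (symmDiff I J) else 0)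
    (fun J => by simp), Finset.mul_sum]
  apply Finset.sum_congr rfl
  intro J _
  by_cases h5 : (symmDiff I J).card = 2 * k
  · simp only [if_pos h5]
    by_cases hI : I.card = l
    · by_cases hJ : J.card = l
      · obtain ⟨c1, c2⟩ := card_sdiff_aux hI hJ
        have c3 : (I \ J).card = k := by omega
        have c4 : (J \ I).card = k := by omega
        rw [c3, c4]
        ring
      · have : ext0 v J = 0 := by unfold ext0; rw [dif_neg hJ]
        simp [this]
    · have : ext0 v I = 0 := by unfold ext0; rw [dif_neg hI]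
      simp [this]
  · simp [if_neg h5]

lemma Xall_eq_sum {k : ℕ} (Z : Finset (Fin n) → ℝ) :
    Xall l k Z = ∑ c ∈ Col k, Xc l k c Z true := by
  classical
  ext z z'
  rw [Matrix.sum_apply]
  unfold Xall Xc entM maskF
  simp only [Matrix.of_apply]
  by_cases h : m0 l k z z'
  · rw [if_pos h]
    have hc : col (labF true z z') ∈ Col k := by
      apply col_mem
      unfold Sset labF labK
      simp only [if_true]
      refine (Finset.card_union_le _ _).trans ?_
      have h1 := Finset.card_union_le (z.2 \ z'.2) (z'.2 \ z.2)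
      have h2 : ({z.1, z'.1} : Finset (Fin n)).card ≤ 2 := Finset.card_le_two
      have h3 := h.2
      unfold maskK at h3
      omega
    rw [Finset.sum_eq_single_of_mem (col (labF true z z')) hc]
    · rw [if_pos ⟨h, rfl⟩]
    · intro c _ hne
      rw [if_neg]
      rintro ⟨_, h2⟩
      exact hne h2.symm
  · rw [if_neg h]
    symm
    apply Finset.sum_eq_zero
    intro c _
    rw [if_neg]
    rintro ⟨h1, _⟩
    exact h h1

lemma le_add_pow {y B T : ℝ} (hB : 0 < B) {q : ℕ} (hq : 1 ≤ q) (hT : y ^ q ≤ T) (hT0 : 0 ≤ T) :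
    y ≤ B + T / B ^ (q - 1) := by
  rcases le_total y B with h | h
  · have : 0 ≤ T / B ^ (q - 1) := by positivity
    linarith
  · have hy : 0 < y := lt_of_lt_of_le hB h
    have h1 : B ^ (q - 1) ≤ y ^ (q - 1) := by gcongr
    have h2 : y * B ^ (q - 1) ≤ T := by
      calc y * B ^ (q - 1) ≤ y * y ^ (q - 1) := by gcongr
        _ = y ^ q := by rw [← pow_succ']; congr 1; omega
        _ ≤ T := hT
    have h3 : y ≤ T / B ^ (q - 1) := by
      rw [le_div_iff₀ (by positivity)]
      exact h2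
    linarith

/-- Pointwise bound for the Kikuchi form. -/
lemma qf_le_traces {k : ℕ} (hk : 1 ≤ k) (hl : 1 ≤ l) (Z : Finset (Fin n) → ℝ)
    (v : {K : Finset (Fin n) // K.card = l} → ℝ) (hv : dotProduct v v = 1) (j : ℕ)
    {B : ℝ} (hB : 0 < B) :
    qf (2 * k) Z v ≤ (l : ℝ) / (k : ℝ) ^ 2 * ∑ c ∈ Col k,
      (B + Tc l k c (2 ^ (j + 1)) Z / B ^ (2 ^ (j + 2) - 1)) := by
  have hkR : (0 : ℝ) < k := by exact_mod_cast hk
  have hlR : (0 : ℝ) < l := by exact_mod_cast hl
  have h1 := lift_form (l := l) (k := k) Z v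
  rw [Xall_eq_sum, Matrix.sum_mulVec, dotProduct_sum] at h1
  have h2 : ∀ c ∈ Col k, liftv v ⬝ᵥ (Xc l k c Z true) *ᵥ (liftv v)
      ≤ l * (B + Tc l k c (2 ^ (j + 1)) Z / B ^ (2 ^ (j + 2) - 1)) := by
    intro c _
    have h3 := form_pow_le (liftv v) (Xc l k c Z true) j
    rw [liftv_norm v hv, ← Xc_transpose] at h3
    have h4 : (liftv v ⬝ᵥ (Xc l k c Z true) *ᵥ (liftv v) / l) ^ (2 ^ (j + 2))
        ≤ Tc l k c (2 ^ (j + 1)) Z := by
      rw [div_pow, div_le_iff₀ (by positivity), mul_comm]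
      exact h3
    have hev : Even (2 ^ (j + 2)) := by
      rw [pow_succ]
      exact even_two.mul_left _
    have h5 : 0 ≤ Tc l k c (2 ^ (j + 1)) Z := (hev.pow_nonneg _).trans h4
    have h6 := le_add_pow hB (Nat.one_le_two_pow) h4 h5
    rw [div_le_iff₀ hlR] at h6
    linarith
  have h3 := Finset.sum_le_sum h2
  rw [h1, ← Finset.mul_sum] at h3
  rw [div_mul_eq_mul_div, le_div_iff₀ (by positivity)]
  linarith

end Lift

end Pool.Agent.Lib.Pd47e08
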