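import Pool.Agent.Lib.Pd47e08.Two

/-!
The case `r = 2`: main estimate.
-/

open MeasureTheory ProbabilityTheory Filter

set_option linter.unusedSectionVars false
set_option linter.unusedSimpArgs false

namespace Pool.Agent.Lib.Pd47e08

section TwoMain

variable {n l : ℕ}

lemma coefs_zero_off (r : ℕ) {a : Finset (Fin n) → ℝ} (ha : a ∈ coefs n l r)
    {S : Finset (Fin n)} (hS : S.card ≠ r) : a S = 0 :=
  coef_support r a ha S (by simp [Finset.mem_powersetCard, hS])

lemma lam_congr (h : l ≤ n) (r : ℕ) {Z Z' : Finset (Fin n) → ℝ}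
    (hZ : ∀ S, S.card = r → Z S = Z' S) : lam l r Z = lam l r Z' := by
  have key : ∀ {Z Z' : Finset (Fin n) → ℝ}, (∀ S, S.card = r → Z S = Z' S) →
      lam l r Z ≤ lam l r Z' := by
    intro Z Z' hZ
    obtain ⟨⟨a, ha, hZa⟩, _⟩ := isMaxFn_lam (n := n) h r Z
    have h2 := (isMaxFn_lam (n := n) h r Z').2 a ha
    rw [hZa]
    refine le_trans (le_of_eq ?_) h2
    apply Finset.sum_congr rfl
    intro S _
    by_cases hS : S.card = r
    · rw [hZ S hS]
    · rw [coefs_zero_off r ha hS]; ring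
  exact le_antisymm (key hZ) (key fun S hS => (hZ S hS).symm)

lemma lam_integrable (h : l ≤ n) (k : ℕ) (hk : k ≤ l) :
    Integrable (fun Z : Finset (Fin n) → ℝ => lam l (2 * k) Z) (G (Finset (Fin n))) :=
  ((isMaxFn_lam h (2 * k)).memLp (by positivity) (coef_bound k hk)).integrable (by norm_num)

lemma integral_lam_lower (hl : 1 ≤ l) (hln : l < n) :
    Real.sqrt ((n : ℝ) - l) * c1 ≤ ∫ Z : Finset (Fin n) → ℝ, lam l 2 Z ∂(G (Finset (Fin n))) := by
  set N : ℝ := (n : ℝ) - l with hN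
  have hNpos : 0 < N := by
    rw [hN]
    have : (l : ℝ) < n := by exact_mod_cast hln
    linarith
  set M := Finset.univ.filter (fun j : Fin n => l ≤ j.val) with hM
  have hMc : (M.card : ℝ) = N := by
    have h1 := Finset.card_filter_add_card_filter_not (s := (Finset.univ : Finset (Fin n)))
      (fun j : Fin n => (j : ℕ) < l)
    have h2 : (Finset.univ.filter fun j : Fin n => ¬ (j : ℕ) < l) = M := by
      rw [hM]; ext j; simp
    rw [Fin.card_filter_val_lt, Finset.card_univ, Fintype.card_fin, h2] at h1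
    have h3 : M.card + l = n := by omega
    have h4 : (M.card : ℝ) + l = n := by exact_mod_cast h3
    rw [hN]
    linarith
  have hi := lam_integrable (n := n) hln.le 1 hl
  simp only [mul_one] at hi
  have hmp := mp_sign (ι := Finset (Fin n)) (fun _ => -1) (fun _ => by norm_num)
  have hneg : ∫ Z : Finset (Fin n) → ℝ, lam l 2 (fun S => (-1) * Z S) ∂(G (Finset (Fin n)))
      = ∫ Z : Finset (Fin n) → ℝ, lam l 2 Z ∂(G (Finset (Fin n))) := by
    conv_rhs => rw [← hmp.map_eq]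
    rw [integral_map hmp.measurable.aemeasurable]
    rw [hmp.map_eq]
    exact hi.aestronglyMeasurable
  have hinteg : Integrable (fun Z : Finset (Fin n) → ℝ => lam l 2 (fun S => (-1) * Z S))
      (G (Finset (Fin n))) := hmp.integrable_comp_of_integrable hi
  have hcoord : ∀ S : Finset (Fin n), Integrable (fun Z : Finset (Fin n) → ℝ => |Z S|)
      (G (Finset (Fin n))) ∧ ∫ Z : Finset (Fin n) → ℝ, |Z S| ∂(G (Finset (Fin n))) = c1 := by
    intro S
    have hmp := measurePreserving_eval (fun _ : Finset (Fin n) => gaussianReal 0 1) S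
    constructor
    · exact hmp.integrable_comp_of_integrable integrable_abs_gauss
    · unfold c1
      conv_rhs => rw [← hmp.map_eq]
      rw [integral_map hmp.measurable.aemeasurable]
      rw [hmp.map_eq]
      exact integrable_abs_gauss.aestronglyMeasurable
  have hmono : ∫ Z : Finset (Fin n) → ℝ, 2 / Real.sqrt N * ∑ j ∈ M, |Z {⟨0, by omega⟩, j}|
        ∂(G (Finset (Fin n)))
      ≤ ∫ Z : Finset (Fin n) → ℝ, (lam l 2 Z + lam l 2 (fun S => (-1) * Z S))
        ∂(G (Finset (Fin n))) := by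
    apply integral_mono _ (hi.add hinteg)
    · intro Z
      exact lam_lower_pointwise hl hln Z
    · exact (integrable_finsetSum _ fun j _ => (hcoord _).1).const_mul _
  rw [integral_add hi hinteg, hneg, integral_const_mul,
    integral_finsetSum _ fun j _ => (hcoord _).1] at hmono
  simp only [(hcoord _).2] at hmono
  rw [Finset.sum_const, nsmul_eq_mul, hMc] at hmono
  have hsq : Real.sqrt N * Real.sqrt N = N := Real.mul_self_sqrt hNpos.le
  have hsqpos : 0 < Real.sqrt N := Real.sqrt_pos.2 hNpos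
  have e1 : 2 / Real.sqrt N * (N * c1) = 2 * (Real.sqrt N * c1) := by
    rw [div_mul_eq_mul_div, div_eq_iff hsqpos.ne']
    linear_combination (-(2 * c1)) * hsq
  rw [e1] at hmono
  linarith

theorem two_main (hl : 1 ≤ l) {m : ℝ} (hm : m ^ 2 < 1) {ε : ℝ} (hε : 0 < ε) :
    ∀ᶠ n : ℕ in atTop,
      0 < ∫ Z : Finset (Fin n) → ℝ, lam l 2 Z ∂(G (Finset (Fin n))) ∧
      ∫ Z : Finset (Fin n) → ℝ, lam l 2 (fun S => m * (n : ℝ) ^ (-(2 : ℝ) / 4) + Z S)
          ∂(G (Finset (Fin n)))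
        < (1 + ε) * ∫ Z : Finset (Fin n) → ℝ, lam l 2 Z ∂(G (Finset (Fin n))) := by
  have hc1 := c1_pos
  set L : ℝ := (l.choose 1 : ℝ) * 2 ^ 1 with hL
  have hL0 : 0 ≤ L := by positivity
  set a : ℝ := ε * c1 / 8 with ha
  have ha0 : 0 < a := by positivity
  have hC := Cmu_nonneg m
  set T : ℝ := Cmu m / (2 * a) + 1 with hT
  have hT0 : 0 < T := by positivity
  set κ : ℝ := 2 * a / (T * L ^ 2 + 1) with hκ
  have hκ0 : 0 < κ := by positivity
  have hT1 : Cmu m / (2 * T) ≤ a := by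
    rw [div_le_iff₀ (by positivity)]
    have : 2 * a * T = Cmu m + 2 * a := by rw [hT]; field_simp
    nlinarith
  have hκ1 : T * L ^ 2 * κ / 2 ≤ a := by
    have : κ * (T * L ^ 2 + 1) = 2 * a := by rw [hκ]; field_simp
    nlinarith
  have hC6 : 0 ≤ C6 := by
    unfold C6
    exact integral_nonneg fun p => by positivity
  filter_upwards [eventually_ge_atTop (2 * l + 1),
    eventually_ge_atTop ⌈T * L ^ 2 * C6 / (2 * κ ^ 2 * a)⌉₊] with n hn1 hn2
  have hln : l < n := by omega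
  have hnpos : 0 < n := by omega
  have hnR : (0 : ℝ) < n := by exact_mod_cast hnpos
  have hn2' : T * L ^ 2 * C6 / (2 * κ ^ 2 * a) ≤ n := by
    calc _ ≤ (⌈T * L ^ 2 * C6 / (2 * κ ^ 2 * a)⌉₊ : ℝ) := Nat.le_ceil _
      _ ≤ n := by exact_mod_cast hn2
  have hn3 : T * L ^ 2 * C6 / (2 * κ ^ 2 * n) ≤ a := by
    rw [div_le_iff₀ (by positivity)] at hn2' ⊢
    nlinarith
  have hlow := integral_lam_lower (n := n) hl hln
  set E0 := ∫ Z : Finset (Fin n) → ℝ, lam l 2 Z ∂(G (Finset (Fin n))) with hE0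
  have hsn : Real.sqrt n / 2 ≤ Real.sqrt ((n : ℝ) - l) := by
    rw [show Real.sqrt n / 2 = Real.sqrt (n / 4) by
      rw [Real.sqrt_div hnR.le]
      congr 1
      rw [show (4 : ℝ) = 2 ^ 2 by norm_num, Real.sqrt_sq (by norm_num)]]
    apply Real.sqrt_le_sqrt
    have : (2 * l + 1 : ℝ) ≤ n := by exact_mod_cast hn1
    linarith
  have hsnpos : 0 < Real.sqrt n := Real.sqrt_pos.2 hnR
  have hsnsq : Real.sqrt n * Real.sqrt n = n := Real.mul_self_sqrt hnR.le
  have hE0low : Real.sqrt n / 2 * c1 ≤ E0 := by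
    refine le_trans ?_ hlow
    gcongr
  have hE0pos : 0 < E0 := lt_of_lt_of_le (by positivity) hE0low
  refine ⟨hE0pos, ?_⟩
  -- the shift
  set lam0 : ℝ := m * (n : ℝ) ^ (-(2 : ℝ) / 4) with hlam0
  have hlam0sq : lam0 ^ 2 = m ^ 2 / n := by
    have hrp : ((n : ℝ) ^ (-(2 : ℝ) / 4)) ^ 2 = (n : ℝ)⁻¹ := by
      rw [← Real.rpow_natCast, ← Real.rpow_mul hnR.le,
        show (-(2 : ℝ) / 4) * ((2 : ℕ) : ℝ) = -1 by norm_num, Real.rpow_neg_one]
    rw [hlam0, mul_pow, hrp]
    rfl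
  set 𝒮 := Finset.powersetCard 2 (Finset.univ : Finset (Fin n)) with h𝒮
  have hshift : ∫ Z : Finset (Fin n) → ℝ, lam l 2 (fun S => lam0 + Z S) ∂(G (Finset (Fin n)))
      = ∫ Z : Finset (Fin n) → ℝ, lam l 2 (fun S => Z S + if S ∈ 𝒮 then lam0 else 0)
        ∂(G (Finset (Fin n))) := by
    congr 1
    funext Z
    apply lam_congr hln.le
    intro S hS
    have : S ∈ 𝒮 := by simp [h𝒮, Finset.mem_powersetCard, hS]
    rw [if_pos this, add_comm]
  rw [hshift]
  have hmax := isMaxFn_lam (n := n) hln.le (2 * 1)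
  have hA := coef_bound (n := n) 1 hl
  set t : ℝ := T / Real.sqrt n with ht
  have ht0 : 0 < t := by positivity
  have hb := shift_bound hmax hL0 hA (fun x : Fin n → ℤˣ => chi x)
    (fun x i => chi_sq x i) (fun x Z => lam_sign (2 * 1) x Z) 𝒮 lam0 ht0
  have hS2 := second_moment hnpos hm hlam0sq
  have hvar := variance_max hmax hL0 hA (S := 𝒮) (coef_support (2 * 1)) (R := κ * n)
    (by positivity)
  simp only [mul_one] at hb hvar
  set V := ∫ Z : Finset (Fin n) → ℝ, (lam l 2 Z - ∫ Z : Finset (Fin n) → ℝ, lam l 2 Z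
    ∂(G (Finset (Fin n)))) ^ 2 ∂(G (Finset (Fin n))) with hV
  have hcard : (𝒮.card : ℝ) ≤ n ^ 2 := by
    have : 𝒮.card ≤ n ^ 2 := by
      rw [h𝒮, Finset.card_powersetCard, Finset.card_univ, Fintype.card_fin]
      exact Nat.choose_le_pow n 2
    exact_mod_cast this
  have hV2 : V ≤ L ^ 2 * (κ * n + C6 / κ ^ 2) := by
    refine hvar.trans ?_
    have h5 : (𝒮.card : ℝ) * C6 / (κ * n) ^ 2 ≤ C6 / κ ^ 2 := by
      rw [div_le_div_iff₀ (by positivity) (by positivity)]
      calc (𝒮.card : ℝ) * C6 * κ ^ 2 ≤ n ^ 2 * C6 * κ ^ 2 := by gcongr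
        _ = C6 * (κ * n) ^ 2 := by ring
    exact mul_le_mul_of_nonneg_left (by linarith) (sq_nonneg L)
  have h1 : t / 2 * V ≤ 2 * a * Real.sqrt n := by
    calc t / 2 * V ≤ t / 2 * (L ^ 2 * (κ * n + C6 / κ ^ 2)) := by gcongr
      _ = (T * L ^ 2 * κ / 2 + T * L ^ 2 * C6 / (2 * κ ^ 2 * n)) * Real.sqrt n := by
          rw [ht]
          have : (n : ℝ) = Real.sqrt n * Real.sqrt n := hsnsq.symm
          field_simp
          rw [Real.sq_sqrt hnR.le]
          ring
      _ ≤ (a + a) * Real.sqrt n := by gcongr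
      _ = 2 * a * Real.sqrt n := by ring
  have h2 : 1 / (2 * t) * ((∑ x : Fin n → ℤˣ, ∑ y : Fin n → ℤˣ,
        Real.exp (lam0 ^ 2 * ∑ i ∈ 𝒮, chi x i * chi y i))
      / (Fintype.card (Fin n → ℤˣ) : ℝ) ^ 2) ≤ a * Real.sqrt n := by
    calc _ ≤ 1 / (2 * t) * Cmu m := by gcongr
      _ = Cmu m / (2 * T) * Real.sqrt n := by rw [ht]; field_simp
      _ ≤ a * Real.sqrt n := by gcongr
  have h3 : 3 * a * Real.sqrt n < ε * E0 := by
    calc 3 * a * Real.sqrt n < 4 * a * Real.sqrt n := by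
          have : 0 < a * Real.sqrt n := by positivity
          linarith
      _ = ε * (Real.sqrt n / 2 * c1) := by rw [ha]; ring
      _ ≤ ε * E0 := by gcongr
  calc _ ≤ _ := hb
    _ ≤ E0 + 2 * a * Real.sqrt n + a * Real.sqrt n := by
        gcongr
    _ < (1 + ε) * E0 := by linarith

end TwoMain

end Pool.Agent.Lib.Pd47e08
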