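import Pool.Agent.Lib.Pd47e08.Walk
import Pool.Agent.Lib.Pd47e08.TwoMain

/-!
Reduction of the Kikuchi matrix to coloured pieces with one distinguished particle.
-/

open MeasureTheory ProbabilityTheory Matrix

set_option linter.unusedSectionVars false
set_option linter.unusedSimpArgs false

namespace Pool.Agent.Lib.Pd47e08

section Red

variable {n : ℕ}

/-- Labels of transitions. -/
abbrev Lb (n : ℕ) := (Fin n × Fin n) × (Finset (Fin n) × Finset (Fin n))

/-- Label of a move of the remaining particles. -/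
def labK (b : Bool) (K K' : Finset (Fin n)) : Finset (Fin n) × Finset (Fin n) :=
  if b then (K \ K', K' \ K) else (K' \ K, K \ K')

/-- Admissible moves of the remaining particles. -/
def maskK (l k : ℕ) (_b : Bool) (K K' : Finset (Fin n)) : Prop :=
  K.card + 1 = l ∧ K'.card + 1 = l ∧ (K \ K').card + 1 = k ∧ (K' \ K).card + 1 = k

/-- The move with a given label. -/
def phi0 (l k : ℕ) (A B K : Finset (Fin n)) : Option (Finset (Fin n)) :=
  if A ⊆ K ∧ Disjoint B K ∧ A.card + 1 = k ∧ B.card + 1 = k ∧ K.card + 1 = l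
    then some ((K \ A) ∪ B) else none

/-- The move with a given label and orientation. -/
def phi (l k : ℕ) (b : Bool) (c : Finset (Fin n) × Finset (Fin n)) (K : Finset (Fin n)) :
    Option (Finset (Fin n)) :=
  if b then phi0 l k c.1 c.2 K else phi0 l k c.2 c.1 K

lemma phi0_spec {l k : ℕ} {K K' : Finset (Fin n)} {b : Bool} (h : maskK l k b K K') :
    phi0 l k (K \ K') (K' \ K) K = some K' := by
  unfold phi0
  rw [if_pos]
  · congr 1
    ext x
    simp only [Finset.mem_union, Finset.mem_sdiff]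
    tauto
  · exact ⟨Finset.sdiff_subset, Finset.sdiff_disjoint, h.2.2.1, h.2.2.2, h.1⟩

lemma phi_spec {l k : ℕ} (b : Bool) (K K' : Finset (Fin n)) (h : maskK l k b K K') :
    phi l k b (labK b K K') K = some K' := by
  unfold phi labK
  cases b
  · simpa using phi0_spec h
  · simpa using phi0_spec h

/-- The degree bound. -/
def Dg (n l k : ℕ) : ℕ := (l - 1).choose (k - 1) * n.choose (k - 1)

lemma phi0_count (l k : ℕ) (K : Finset (Fin n)) :
    (Finset.univ.filter fun c : Finset (Fin n) × Finset (Fin n) =>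
      (phi0 l k c.1 c.2 K).isSome).card ≤ Dg n l k := by
  by_cases hK : K.card + 1 = l
  · have h1 : (Finset.univ.filter fun c : Finset (Fin n) × Finset (Fin n) =>
        (phi0 l k c.1 c.2 K).isSome)
        ⊆ (Finset.powersetCard (k - 1) K) ×ˢ (Finset.powersetCard (k - 1) Finset.univ) := by
      intro c hc
      rw [Finset.mem_filter] at hc
      unfold phi0 at hc
      split_ifs at hc with h
      · rw [Finset.mem_product, Finset.mem_powersetCard, Finset.mem_powersetCard]
        exact ⟨⟨h.1, by omega⟩, Finset.subset_univ _, by omega⟩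
      · simp at hc
    refine (Finset.card_le_card h1).trans ?_
    rw [Finset.card_product, Finset.card_powersetCard, Finset.card_powersetCard, Finset.card_univ,
      Fintype.card_fin]
    unfold Dg
    rw [show K.card = l - 1 by omega]
  · have h1 : (Finset.univ.filter fun c : Finset (Fin n) × Finset (Fin n) =>
        (phi0 l k c.1 c.2 K).isSome) = ∅ := by
      apply Finset.filter_eq_empty_iff.2
      intro c _
      unfold phi0
      rw [if_neg (by tauto)]
      simp
    rw [h1]
    simp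

lemma phi_count (l k : ℕ) (b : Bool) (K : Finset (Fin n)) :
    (Finset.univ.filter fun c : Finset (Fin n) × Finset (Fin n) =>
      (phi l k b c K).isSome).card ≤ Dg n l k := by
  cases b
  · refine le_trans ?_ (phi0_count l k K)
    apply Finset.card_le_card_of_injOn (fun c => (c.2, c.1))
    · intro c hc
      simp only [phi, Bool.false_eq_true, if_false, Finset.coe_filter, Finset.mem_univ, true_and,
        Set.mem_ofPred_eq] at hc ⊢
      exact hc
    · intro c _ c' _ h
      simp only [Prod.mk.injEq] at h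
      exact Prod.ext h.2 h.1
  · exact phi0_count l k K

/-- Full label. -/
def labF (b : Bool) (z z' : Fin n × Finset (Fin n)) : Lb n :=
  (if b then (z.1, z'.1) else (z'.1, z.1), labK b z.2 z'.2)

/-- The set of moved particles. -/
def Sset (x : Lb n) : Finset (Fin n) := {x.1.1, x.1.2} ∪ (x.2.1 ∪ x.2.2)

/-- The rank of an element. -/
def rk (S : Finset (Fin n)) (x : Fin n) : ℕ := (S.filter (· < x)).card

lemma rk_lt {S : Finset (Fin n)} {x y : Fin n} (hx : x ∈ S) (hxy : x < y) : rk S x < rk S y := by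
  unfold rk
  apply Finset.card_lt_card
  rw [Finset.ssubset_iff_of_subset]
  · exact ⟨x, by simp [hx, hxy], by simp⟩
  · intro z hz
    rw [Finset.mem_filter] at hz ⊢
    exact ⟨hz.1, hz.2.trans hxy⟩

lemma rk_inj {S : Finset (Fin n)} {x y : Fin n} (hx : x ∈ S) (hy : y ∈ S)
    (h : rk S x = rk S y) : x = y := by
  rcases lt_trichotomy x y with h1 | h1 | h1
  · exact absurd h (rk_lt hx h1).ne
  · exact h1
  · exact absurd h (rk_lt hy h1).ne'

lemma rk_lt_card {S : Finset (Fin n)} {x : Fin n} (hx : x ∈ S) : rk S x < S.card := by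
  unfold rk
  apply Finset.card_lt_card
  rw [Finset.ssubset_iff_of_subset (Finset.filter_subset _ _)]
  exact ⟨x, hx, by simp⟩

lemma image_rk_inj {S A B : Finset (Fin n)} (hA : A ⊆ S) (hB : B ⊆ S)
    (h : A.image (rk S) = B.image (rk S)) : A = B := by
  have key : ∀ {A B : Finset (Fin n)}, A ⊆ S → B ⊆ S → A.image (rk S) = B.image (rk S) → A ⊆ B := by
    intro A B hA hB h x hx
    have : rk S x ∈ B.image (rk S) := by
      rw [← h]
      exact Finset.mem_image_of_mem _ hx
    obtain ⟨y, hy, hxy⟩ := Finset.mem_image.mp this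
    rw [← rk_inj (hB hy) (hA hx) hxy]
    exact hy
  exact Finset.Subset.antisymm (key hA hB h) (key hB hA h.symm)

/-- The colour of a label. -/
def col (x : Lb n) : (ℕ × ℕ) × (Finset ℕ × Finset ℕ) :=
  ((rk (Sset x) x.1.1, rk (Sset x) x.1.2),
    (x.2.1.image (rk (Sset x)), x.2.2.image (rk (Sset x))))

lemma col_inj (x y : Lb n) (hc : col y = col x) (hS : Sset y = Sset x) : y = x := by
  unfold col at hc
  rw [hS] at hc
  simp only [Prod.mk.injEq] at hc
  obtain ⟨⟨h1, h2⟩, h3, h4⟩ := hc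
  have m : ∀ z : Lb n, z.1.1 ∈ Sset z ∧ z.1.2 ∈ Sset z ∧ z.2.1 ⊆ Sset z ∧ z.2.2 ⊆ Sset z := by
    intro z
    unfold Sset
    refine ⟨by simp, by simp, ?_, ?_⟩
    · intro w hw
      simp [hw]
    · intro w hw
      simp [hw]
  obtain ⟨a1, a2, a3, a4⟩ := m x
  obtain ⟨b1, b2, b3, b4⟩ := m y
  rw [hS] at b1 b2 b3 b4
  exact Prod.ext (Prod.ext (rk_inj b1 a1 h1) (rk_inj b2 a2 h2))
    (Prod.ext (image_rk_inj b3 a3 h3) (image_rk_inj b4 a4 h4))

/-- The set of colours. -/
def Col (k : ℕ) : Finset ((ℕ × ℕ) × (Finset ℕ × Finset ℕ)) :=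
  (Finset.range (2 * k) ×ˢ Finset.range (2 * k)) ×ˢ
    ((Finset.range (2 * k)).powerset ×ˢ (Finset.range (2 * k)).powerset)

lemma col_mem {k : ℕ} (x : Lb n) (h : (Sset x).card ≤ 2 * k) : col x ∈ Col k := by
  have a1 : x.1.1 ∈ Sset x := by simp [Sset]
  have a2 : x.1.2 ∈ Sset x := by simp [Sset]
  have a3 : x.2.1 ⊆ Sset x := by
    intro w hw
    simp [Sset, hw]
  have a4 : x.2.2 ⊆ Sset x := by
    intro w hw
    simp [Sset, hw]
  unfold Col col
  simp only [Finset.mem_product, Finset.mem_range, Finset.mem_powerset]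
  refine ⟨⟨(rk_lt_card a1).trans_le h, (rk_lt_card a2).trans_le h⟩, ?_, ?_⟩
  · intro r hr
    obtain ⟨w, hw, rfl⟩ := Finset.mem_image.mp hr
    exact Finset.mem_range.mpr ((rk_lt_card (a3 hw)).trans_le h)
  · intro r hr
    obtain ⟨w, hw, rfl⟩ := Finset.mem_image.mp hr
    exact Finset.mem_range.mpr ((rk_lt_card (a4 hw)).trans_le h)

/-- Admissible transitions. -/
def m0 (l k : ℕ) (z z' : Fin n × Finset (Fin n)) : Prop :=
  (z.1 ≠ z'.1 ∧ z.1 ∉ z.2 ∧ z.1 ∉ z'.2 ∧ z'.1 ∉ z.2 ∧ z'.1 ∉ z'.2) ∧ maskK l k true z.2 z'.2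

lemma m0_symm {l k : ℕ} {z z' : Fin n × Finset (Fin n)} : m0 l k z z' ↔ m0 l k z' z := by
  unfold m0 maskK
  constructor <;> (rintro ⟨⟨h1, h2, h3, h4, h5⟩, h6, h7, h8, h9⟩; exact
    ⟨⟨h1.symm, h5, h4, h3, h2⟩, h7, h6, h9, h8⟩)

/-- Admissible transitions of a colour. -/
def maskF (l k : ℕ) (c : (ℕ × ℕ) × (Finset ℕ × Finset ℕ)) (b : Bool)
    (z z' : Fin n × Finset (Fin n)) : Prop :=
  m0 l k z z' ∧ col (labF b z z') = c

/-- The coloured matrix. -/
noncomputable def Xc (l k : ℕ) (c : (ℕ × ℕ) × (Finset ℕ × Finset ℕ)) (Z : Finset (Fin n) → ℝ)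
    (b : Bool) : Matrix (Fin n × Finset (Fin n)) (Fin n × Finset (Fin n)) ℝ :=
  entM (maskF l k c) labF (fun x => Z (Sset x)) b

lemma Xc_transpose (l k : ℕ) (c : (ℕ × ℕ) × (Finset ℕ × Finset ℕ)) (Z : Finset (Fin n) → ℝ) :
    Xc l k c Z false = (Xc l k c Z true)ᵀ := by
  ext z z'
  unfold Xc entM
  simp only [Matrix.of_apply, Matrix.transpose_apply]
  have h1 : labF false z z' = labF true z' z := by
    simp [labF, labK]
  have h2 : maskF l k c false z z' ↔ maskF l k c true z' z := by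
    unfold maskF
    rw [h1, m0_symm]
  rw [h1]
  by_cases h : maskF l k c true z' z
  · rw [if_pos h, if_pos (h2.mpr h)]
  · rw [if_neg h, if_neg (fun h' => h (h2.mp h'))]

/-- The trace functional. -/
noncomputable def Tc (l k : ℕ) (c : (ℕ × ℕ) × (Finset ℕ × Finset ℕ)) (p : ℕ)
    (Z : Finset (Fin n) → ℝ) : ℝ :=
  ((Xc l k c Z true * Xc l k c Z false) ^ p).trace

lemma Tc_bound (hn : 0 < n) (l k : ℕ) (c : (ℕ × ℕ) × (Finset ℕ × Finset ℕ)) {p : ℕ}
    (hp : 0 < p) (hpn : p ≤ n) :
    Integrable (Tc (n := n) l k c p) (G (Finset (Fin n))) ∧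
    ∫ Z, Tc (n := n) l k c p Z ∂(G (Finset (Fin n)))
      ≤ (n : ℝ) ^ (l - 1) * (Dg n l k : ℝ) ^ p * (2 * n * (Cg * n) ^ p) := by
  have hcmp := compare (n := n) (K := Finset (Fin n)) (LK := Finset (Fin n) × Finset (Fin n))
    (β := Finset (Fin n)) (mask := maskF l k c) (lab := labF) (labK := labK)
    (maskK := maskK l k) (φ := phi l k) (fun b z z' => rfl)
    (fun b z z' h => by
      have := h.1.2
      unfold maskK at this ⊢
      exact this)
    (fun b K K' h => phi_spec b K K' h) (Dg n l k) (fun b K => phi_count l k b K)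
    (Finset.powersetCard (l - 1) Finset.univ)
    (fun b K K' h => by
      rw [Finset.mem_powersetCard]
      exact ⟨Finset.subset_univ _, by have := h.1; omega⟩)
    Sset (fun x => col x = c) (fun b z z' h => h.2)
    (fun x y hx hy hS => col_inj x y (hy.trans hx.symm) hS) hp
  refine ⟨hcmp.1, hcmp.2.trans ?_⟩
  have h1 : ∫ g : Fin n × Fin n → ℝ, ((mat g * (mat g)ᵀ) ^ p).trace ∂(G (Fin n × Fin n))
      ≤ 2 * n * (Cg * n) ^ p := by
    have hC := Cg_pos
    have hpos : 0 ≤ 2 * (n : ℝ) * (Cg * n) ^ p := by positivity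
    by_cases hi : Integrable (fun g : Fin n × Fin n → ℝ => ((mat g * (mat g)ᵀ) ^ p).trace)
        (G (Fin n × Fin n))
    · rw [integral_eq_lintegral_pos_part_sub_lintegral_neg_part hi]
      have h2 := lint_trace hn hpn
      have h3 : (∫⁻ g : Fin n × Fin n → ℝ, ENNReal.ofReal (((mat g * (mat g)ᵀ) ^ p).trace)
          ∂(G (Fin n × Fin n))).toReal ≤ 2 * n * (Cg * n) ^ p := by
        have := ENNReal.toReal_mono ENNReal.ofReal_ne_top h2
        rwa [ENNReal.toReal_ofReal hpos] at this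
      have h4 : 0 ≤ (∫⁻ g : Fin n × Fin n → ℝ, ENNReal.ofReal (-((mat g * (mat g)ᵀ) ^ p).trace)
          ∂(G (Fin n × Fin n))).toReal := ENNReal.toReal_nonneg
      linarith
    · rw [integral_undef hi]
      exact hpos
  have hcard : ((Finset.powersetCard (l - 1) (Finset.univ : Finset (Fin n))).card : ℝ)
      ≤ (n : ℝ) ^ (l - 1) := by
    rw [Finset.card_powersetCard, Finset.card_univ, Fintype.card_fin]
    exact_mod_cast Nat.choose_le_pow n (l - 1)
  have hpos : 0 ≤ 2 * (n : ℝ) * (Cg * n) ^ p := by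
    have hC := Cg_pos
    positivity
  calc _ ≤ ((Finset.powersetCard (l - 1) (Finset.univ : Finset (Fin n))).card : ℝ)
        * (Dg n l k : ℝ) ^ p * (2 * n * (Cg * n) ^ p) := by
        gcongr
    _ ≤ _ := by gcongr

end Red

end Pool.Agent.Lib.Pd47e08
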