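import Pool.Agent.Lib.Pd47e08.ES

/-!
Translation of Gaussian product measures and the likelihood ratio bound.
-/

open MeasureTheory ProbabilityTheory

set_option linter.unusedSectionVars false
set_option linter.unusedSimpArgs false

namespace Pool.Agent.Lib.Pd47e08

section Shift

variable {ι : Type*} [Fintype ι] [DecidableEq ι]

lemma gaussian_shift_one (h : ℝ) :
    gaussianReal h 1
      = (gaussianReal 0 1).withDensity (fun x => ENNReal.ofReal (Real.exp (h * x - h ^ 2 / 2))) := by
  rw [gaussianReal_of_var_ne_zero h one_ne_zero, gaussianReal_of_var_ne_zero 0 one_ne_zero,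
    ← withDensity_mul _ (measurable_gaussianPDF 0 1) (by fun_prop)]
  congr 1
  funext x
  simp only [gaussianPDF, Pi.mul_apply]
  rw [← ENNReal.ofReal_mul (gaussianPDFReal_nonneg 0 1 x)]
  congr 1
  simp only [gaussianPDFReal, NNReal.coe_one, mul_one, sub_zero]
  rw [mul_assoc, ← Real.exp_add]
  congr 2
  ring

lemma gaussian_shift_pi (h : ι → ℝ) :
    (G ι).map (fun Z => fun i => Z i + h i)
      = (G ι).withDensity (fun Z => ENNReal.ofReal (∏ i, Real.exp (h i * Z i - h i ^ 2 / 2))) := by
  have h1 : (G ι).map (fun Z => fun i => Z i + h i)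
      = Measure.pi (fun i => gaussianReal (h i) 1) := by
    have hmp : ∀ i, MeasurePreserving (fun x : ℝ => x + h i) (gaussianReal 0 1)
        (gaussianReal (h i) 1) := by
      intro i
      refine ⟨by fun_prop, ?_⟩
      have := gaussianReal_map_add_const (μ := 0) (v := 1) (h i)
      simpa using this
    exact (measurePreserving_pi _ _ hmp).map_eq
  rw [h1]
  symm
  have hprob : ∀ i, IsProbabilityMeasure (gaussianReal (h i) 1) := fun i => inferInstance
  refine (Measure.pi_eq fun s hs => ?_).symm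
  rw [withDensity_apply _ (MeasurableSet.univ_pi hs), Measure.restrict_pi_pi]
  have hint : ∀ i, Integrable (fun x => Real.exp (h i * x - h i ^ 2 / 2))
      ((gaussianReal 0 1).restrict (s i)) := by
    intro i
    have : Integrable (fun x => Real.exp (h i * x - h i ^ 2 / 2)) (gaussianReal 0 1) := by
      have h2 := (integrable_exp_mul_gaussianReal (μ := 0) (v := 1) (h i)).mul_const
        (Real.exp (-(h i ^ 2 / 2)))
      refine h2.congr (Filter.Eventually.of_forall fun x => ?_)
      beta_reduce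
      rw [← Real.exp_add]
      congr 1
    exact this.restrict
  rw [← ofReal_integral_eq_lintegral_ofReal]
  · rw [integral_fintype_prod_eq_prod (f := fun i x => Real.exp (h i * x - h i ^ 2 / 2))]
    rw [ENNReal.ofReal_prod_of_nonneg]
    · apply Finset.prod_congr rfl
      intro i _
      rw [gaussian_shift_one (h i), withDensity_apply _ (hs i),
        ofReal_integral_eq_lintegral_ofReal (hint i)
          (Filter.Eventually.of_forall fun x => (Real.exp_pos _).le)]
    · intro i _
      exact integral_nonneg fun x => (Real.exp_pos _).le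
  · exact Integrable.fintype_prod (f := fun i x => Real.exp (h i * x - h i ^ 2 / 2)) hint
  · exact Filter.Eventually.of_forall fun Z => Finset.prod_nonneg fun i _ => (Real.exp_pos _).le

/-- The Cameron-Martin formula for the standard Gaussian measure. -/
lemma integral_shift (f : (ι → ℝ) → ℝ) (hf : Continuous f) (h : ι → ℝ) :
    ∫ Z, f (fun i => Z i + h i) ∂(G ι)
      = ∫ Z, f Z * Real.exp (∑ i, (h i * Z i - h i ^ 2 / 2)) ∂(G ι) := by
  have h1 : ∫ Z, f (fun i => Z i + h i) ∂(G ι)
      = ∫ Z, f Z ∂((G ι).map (fun Z => fun i => Z i + h i)) := by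
    have hm : Measurable (fun Z : ι → ℝ => fun i => Z i + h i) := by fun_prop
    rw [integral_map hm.aemeasurable hf.aestronglyMeasurable]
  rw [h1, gaussian_shift_pi, integral_withDensity_eq_integral_toReal_smul]
  · apply integral_congr_ae
    refine Filter.Eventually.of_forall fun Z => ?_
    beta_reduce
    rw [ENNReal.toReal_ofReal (Finset.prod_nonneg fun i _ => (Real.exp_pos _).le),
      smul_eq_mul, Real.exp_sum, mul_comm]
  · fun_prop
  · exact Filter.Eventually.of_forall fun Z => ENNReal.ofReal_lt_top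

lemma integral_exp_linear (c : ι → ℝ) :
    Integrable (fun Z : ι → ℝ => Real.exp (∑ i, c i * Z i)) (G ι) ∧
    ∫ Z, Real.exp (∑ i, c i * Z i) ∂(G ι) = Real.exp (∑ i, c i ^ 2 / 2) := by
  simp only [Real.exp_sum]
  constructor
  · exact Integrable.fintype_prod (f := fun i x => Real.exp (c i * x))
      (fun i => integrable_exp_mul_gaussianReal (c i))
  · rw [integral_fintype_prod_eq_prod (f := fun i x => Real.exp (c i * x))]
    apply Finset.prod_congr rfl
    intro i _
    have := congrFun (mgf_id_gaussianReal (μ := 0) (v := 1)) (c i)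
    simp only [mgf, id] at this
    rw [this]
    congr 1
    simp

/-- Exponential tilt with direction `h`. -/
noncomputable def tilt (h : ι → ℝ) (Z : ι → ℝ) : ℝ := Real.exp (∑ i, (h i * Z i - h i ^ 2 / 2))

lemma tilt_eq (h : ι → ℝ) (Z : ι → ℝ) :
    tilt h Z = Real.exp (∑ i, h i * Z i) * Real.exp (-∑ i, h i ^ 2 / 2) := by
  unfold tilt
  rw [← Real.exp_add, Finset.sum_sub_distrib]
  congr 1

lemma tilt_mul (h h' : ι → ℝ) (Z : ι → ℝ) :
    tilt h Z * tilt h' Z
      = Real.exp (∑ i, (h i + h' i) * Z i) * Real.exp (-∑ i, (h i ^ 2 / 2 + h' i ^ 2 / 2)) := by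
  unfold tilt
  rw [← Real.exp_add, ← Real.exp_add, ← Finset.sum_neg_distrib, ← Finset.sum_add_distrib,
    ← Finset.sum_add_distrib]
  congr 1
  apply Finset.sum_congr rfl
  intro i _
  ring

lemma tilt_integrable (h : ι → ℝ) : Integrable (tilt h) (G ι) := by
  have : tilt h = fun Z => Real.exp (∑ i, h i * Z i) * Real.exp (-∑ i, h i ^ 2 / 2) :=
    funext (tilt_eq h)
  rw [this]
  exact (integral_exp_linear h).1.mul_const _

lemma integral_tilt (h : ι → ℝ) : ∫ Z, tilt h Z ∂(G ι) = 1 := by
  simp only [tilt_eq]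
  rw [integral_mul_const, (integral_exp_linear h).2, ← Real.exp_add, add_neg_cancel,
    Real.exp_zero]

lemma tilt_mul_integrable (h h' : ι → ℝ) : Integrable (fun Z => tilt h Z * tilt h' Z) (G ι) := by
  simp only [tilt_mul]
  exact (integral_exp_linear _).1.mul_const _

lemma integral_tilt_mul (h h' : ι → ℝ) :
    ∫ Z, tilt h Z * tilt h' Z ∂(G ι) = Real.exp (∑ i, h i * h' i) := by
  simp only [tilt_mul]
  rw [integral_mul_const, (integral_exp_linear _).2, ← Real.exp_add, ← Finset.sum_neg_distrib,
    ← Finset.sum_add_distrib]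
  congr 1
  apply Finset.sum_congr rfl
  intro i _
  ring

lemma tilt_memLp (h : ι → ℝ) : MemLp (tilt h) 2 (G ι) := by
  rw [memLp_two_iff_integrable_sq (tilt_integrable h).aestronglyMeasurable]
  simp only [sq]
  exact tilt_mul_integrable h h

lemma mp_sign (c : ι → ℝ) (hc : ∀ i, c i ^ 2 = 1) :
    MeasurePreserving (fun Z : ι → ℝ => fun i => c i * Z i) (G ι) (G ι) := by
  have hmp : ∀ i, MeasurePreserving (fun x : ℝ => c i * x) (gaussianReal 0 1)
      (gaussianReal 0 1) := by
    intro i
    refine ⟨by fun_prop, ?_⟩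
    rw [gaussianReal_map_const_mul]
    congr 1
    · simp
    · ext
      simp [hc i]
  exact measurePreserving_pi _ _ hmp

/-- The likelihood ratio bound: if `f` is invariant under the sign changes `χ x`, then shifting
all coordinates in `S` by `l` changes the mean of `f` only little. -/
lemma shift_bound {X : Type*} [Fintype X] [Nonempty X] {f : (ι → ℝ) → ℝ} {A : Set (ι → ℝ)}
    (hmax : IsMaxFn f A) {L : ℝ} (hL : 0 ≤ L) (hA : ∀ a ∈ A, ∑ i, a i ^ 2 ≤ L ^ 2)
    (χ : X → ι → ℝ) (hχ : ∀ x i, χ x i ^ 2 = 1)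
    (hinv : ∀ x Z, f (fun i => χ x i * Z i) = f Z) (S : Finset ι) (l : ℝ) {t : ℝ} (ht : 0 < t) :
    ∫ Z, f (fun i => Z i + if i ∈ S then l else 0) ∂(G ι)
      ≤ ∫ Z, f Z ∂(G ι) + t / 2 * ∫ Z, (f Z - ∫ Z, f Z ∂(G ι)) ^ 2 ∂(G ι)
        + 1 / (2 * t) * ((∑ x : X, ∑ y : X, Real.exp (l ^ 2 * ∑ i ∈ S, χ x i * χ y i))
            / (Fintype.card X : ℝ) ^ 2) := by
  have hcont := hmax.continuous hL hA
  have hf := hmax.memLp hL hA
  have hfi : Integrable f (G ι) := hf.integrable (by norm_num)
  set N : ℝ := (Fintype.card X : ℝ) with hN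
  have hNpos : 0 < N := by rw [hN]; exact_mod_cast Fintype.card_pos
  set E0 := ∫ Z, f Z ∂(G ι) with hE0
  let h : X → ι → ℝ := fun x i => if i ∈ S then l * χ x i else 0
  -- step (a)
  have ha : ∀ x, ∫ Z, f (fun i => Z i + h x i) ∂(G ι)
      = ∫ Z, f (fun i => Z i + if i ∈ S then l else 0) ∂(G ι) := by
    intro x
    have hmp := mp_sign (χ x) (hχ x)
    conv_rhs => rw [← hmp.map_eq]
    have hm : Continuous (fun Z : ι → ℝ => f (fun i => Z i + if i ∈ S then l else 0)) :=
      hcont.comp (by fun_prop)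
    rw [integral_map hmp.measurable.aemeasurable hm.aestronglyMeasurable]
    apply integral_congr_ae
    refine Filter.Eventually.of_forall fun Z => ?_
    beta_reduce
    rw [← hinv x (fun i => Z i + h x i)]
    congr 1
    funext i
    simp only [h]
    split_ifs with hi
    · have := hχ x i
      linear_combination l * this
    · ring
  -- step (b), (c)
  have hb : ∀ x, ∫ Z, f (fun i => Z i + if i ∈ S then l else 0) ∂(G ι)
      = ∫ Z, f Z * tilt (h x) Z ∂(G ι) := by
    intro x
    rw [← ha x, integral_shift f hcont (h x)]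
    rfl
  have hfti : ∀ x, Integrable (fun Z => f Z * tilt (h x) Z) (G ι) := fun x =>
    hf.integrable_mul (tilt_memLp (h x))
  let Lk : (ι → ℝ) → ℝ := fun Z => (∑ x, tilt (h x) Z) / N
  have hLk2 : MemLp Lk 2 (G ι) := by
    have : MemLp (fun Z => ∑ x, tilt (h x) Z) 2 (G ι) :=
      memLp_finsetSum _ fun x _ => tilt_memLp (h x)
    have h2 := this.mul_const (1 / N)
    refine h2.congr_norm ?_ ?_
    · have h3 := this.aestronglyMeasurable.mul_const (1 / N)
      refine h3.congr (Filter.Eventually.of_forall fun Z => ?_)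
      simp only [Lk]
      ring
    · refine Filter.Eventually.of_forall fun Z => ?_
      simp only [Lk]
      congr 1
      ring
  have hc : ∫ Z, f (fun i => Z i + if i ∈ S then l else 0) ∂(G ι) = ∫ Z, f Z * Lk Z ∂(G ι) := by
    have e1 : ∀ Z, f Z * Lk Z = (∑ x, f Z * tilt (h x) Z) / N := by
      intro Z
      simp only [Lk]
      rw [← Finset.mul_sum]
      ring
    simp only [e1]
    rw [integral_div, integral_finsetSum _ fun x _ => hfti x, eq_div_iff hNpos.ne',
      Finset.sum_congr rfl fun x _ => (hb x).symm, Finset.sum_const, Finset.card_univ,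
      nsmul_eq_mul, mul_comm]
  have hLkint : ∫ Z, Lk Z ∂(G ι) = 1 := by
    simp only [Lk]
    rw [integral_div, integral_finsetSum _ fun x _ => tilt_integrable (h x),
      Finset.sum_congr rfl fun x _ => integral_tilt (h x), Finset.sum_const, Finset.card_univ,
      nsmul_eq_mul, mul_one]
    exact div_self hNpos.ne'
  have hLksq : ∫ Z, Lk Z ^ 2 ∂(G ι)
      = (∑ x : X, ∑ y : X, Real.exp (l ^ 2 * ∑ i ∈ S, χ x i * χ y i)) / N ^ 2 := by
    have e1 : ∀ Z, Lk Z ^ 2 = (∑ x, ∑ y, tilt (h x) Z * tilt (h y) Z) / N ^ 2 := by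
      intro Z
      simp only [Lk]
      rw [div_pow, sq, Finset.sum_mul_sum]
    simp only [e1]
    rw [integral_div, integral_finsetSum _ fun x _ => integrable_finsetSum _ fun y _ =>
      tilt_mul_integrable (h x) (h y)]
    congr 1
    apply Finset.sum_congr rfl
    intro x _
    rw [integral_finsetSum _ fun y _ => tilt_mul_integrable (h x) (h y)]
    apply Finset.sum_congr rfl
    intro y _
    rw [integral_tilt_mul]
    congr 1
    simp only [h]
    rw [Finset.mul_sum, ← Finset.sum_filter_add_sum_filter_not Finset.univ (fun i => i ∈ S)]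
    rw [Finset.sum_eq_zero (s := Finset.univ.filter fun i => ¬ i ∈ S)]
    · rw [add_zero]
      rw [show (Finset.univ.filter fun i => i ∈ S) = S by ext; simp]
      apply Finset.sum_congr rfl
      intro i hi
      rw [if_pos hi, if_pos hi]
      ring
    · intro i hi
      rw [Finset.mem_filter] at hi
      rw [if_neg hi.2]
      ring
  have hd : MemLp (fun Z => f Z - E0) 2 (G ι) := hf.sub (memLp_const E0)
  have i1 : Integrable (fun Z => (f Z - E0) * Lk Z) (G ι) := hd.integrable_mul hLk2
  have i2 : Integrable (fun Z => (f Z - E0) ^ 2) (G ι) := hd.integrable_sq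
  have i3 : Integrable (fun Z => Lk Z ^ 2) (G ι) := hLk2.integrable_sq
  have i4 : Integrable Lk (G ι) := hLk2.integrable (by norm_num)
  have i5 : Integrable (fun Z => f Z * Lk Z) (G ι) := hf.integrable_mul hLk2
  have hsplit : ∫ Z, f Z * Lk Z ∂(G ι) = E0 + ∫ Z, (f Z - E0) * Lk Z ∂(G ι) := by
    have e1 : ∫ Z, (f Z - E0) * Lk Z ∂(G ι)
        = ∫ Z, f Z * Lk Z ∂(G ι) - ∫ Z, E0 * Lk Z ∂(G ι) := by
      rw [← integral_sub i5 (i4.const_mul E0)]
      apply integral_congr_ae
      refine Filter.Eventually.of_forall fun Z => ?_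
      beta_reduce
      ring
    rw [e1, integral_const_mul, hLkint]
    ring
  have hamgm : ∫ Z, (f Z - E0) * Lk Z ∂(G ι)
      ≤ t / 2 * ∫ Z, (f Z - E0) ^ 2 ∂(G ι) + 1 / (2 * t) * ∫ Z, Lk Z ^ 2 ∂(G ι) := by
    rw [← integral_const_mul, ← integral_const_mul,
      ← integral_add (i2.const_mul _) (i3.const_mul _)]
    apply integral_mono i1 ((i2.const_mul _).add (i3.const_mul _))
    intro Z
    simp only [Pi.add_apply]
    have h1 : 0 ≤ (t * (f Z - E0) - Lk Z) ^ 2 / (2 * t) := by positivity
    have h2 : (t * (f Z - E0) - Lk Z) ^ 2 / (2 * t)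
        = t / 2 * (f Z - E0) ^ 2 + 1 / (2 * t) * Lk Z ^ 2 - (f Z - E0) * Lk Z := by
      field_simp
      ring
    linarith
  rw [hc, hsplit, ← hLksq]
  linarith

end Shift

end Pool.Agent.Lib.Pd47e08
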