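import Pool.Agent.Lib.Pd47e08.Big

/-!
Asymptotic comparison of signal and noise for the Kikuchi matrix.
-/

open MeasureTheory ProbabilityTheory Matrix Filter

set_option linter.unusedSectionVars false
set_option linter.unusedSimpArgs false

namespace Pool.Agent.Lib.Pd47e08

section Pos

variable {n l : ℕ}

lemma lam_ge_abs {k : ℕ} (hk : 1 ≤ k) (h : l ≤ n) {I J : {K : Finset (Fin n) // K.card = l}}
    (hIJ : (symmDiff I.1 J.1).card = 2 * k) (Z : Finset (Fin n) → ℝ) :
    |Z (symmDiff I.1 J.1)| ≤ lam l (2 * k) Z := by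
  classical
  have hne : I ≠ J := by
    rintro rfl
    rw [symmDiff_self] at hIJ
    simp at hIJ
    omega
  set s : ℝ := if 0 ≤ Z (symmDiff I.1 J.1) then 1 else -1 with hs
  have hs2 : s * s = 1 := by rw [hs]; split_ifs <;> norm_num
  have hsZ : s * Z (symmDiff I.1 J.1) = |Z (symmDiff I.1 J.1)| := by
    rw [hs]
    split_ifs with h0
    · rw [abs_of_nonneg h0, one_mul]
    · rw [abs_of_neg (not_le.mp h0)]
      ring
  set v : {K : Finset (Fin n) // K.card = l} → ℝ := fun A => if A = I then 1 else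
    if A = J then s else 0 with hv
  have hvI : v I = 1 := by simp [hv]
  have hvJ : v J = s := by simp [hv, hne.symm]
  have hv0 : ∀ A, A ≠ I → A ≠ J → v A = 0 := by
    intro A h1 h2
    simp [hv, h1, h2]
  have hvv : dotProduct v v = 2 := by
    unfold dotProduct
    rw [Finset.sum_eq_add I J hne (fun c _ hc => by rw [hv0 c hc.1 hc.2]; ring)
      (fun h => absurd (Finset.mem_univ _) h) (fun h => absurd (Finset.mem_univ _) h),
      hvI, hvJ, hs2]
    norm_num
  have hq : qf (2 * k) Z v = 2 * |Z (symmDiff I.1 J.1)| := by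
    unfold qf
    have hself : ∀ A : {K : Finset (Fin n) // K.card = l},
        (symmDiff A.1 A.1).card ≠ 2 * k := by
      intro A
      rw [symmDiff_self]
      simp
      omega
    have hin : ∀ A : {K : Finset (Fin n) // K.card = l},
        (∑ B : {K : Finset (Fin n) // K.card = l}, if (symmDiff A.1 B.1).card = 2 * k then
          v A * v B * Z (symmDiff A.1 B.1) else 0)
        = (if (symmDiff A.1 I.1).card = 2 * k then v A * Z (symmDiff A.1 I.1) else 0)
          + (if (symmDiff A.1 J.1).card = 2 * k then v A * s * Z (symmDiff A.1 J.1) else 0) := by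
      intro A
      rw [Finset.sum_eq_add I J hne (fun c _ hc => by rw [hv0 c hc.1 hc.2]; simp)
        (fun h => absurd (Finset.mem_univ _) h) (fun h => absurd (Finset.mem_univ _) h),
        hvI, hvJ]
      simp
    rw [Finset.sum_congr rfl fun A _ => hin A]
    rw [Finset.sum_eq_add I J hne (fun c _ hc => by rw [hv0 c hc.1 hc.2]; simp)
        (fun h => absurd (Finset.mem_univ _) h) (fun h => absurd (Finset.mem_univ _) h),
        hvI, hvJ, if_neg (hself I), if_neg (hself J), if_pos hIJ, symmDiff_comm J.1 I.1,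
        if_pos hIJ]
    rw [← hsZ]
    ring
  have h2 := qf_le_lam_mul h (2 * k) Z v (by rw [hvv]; norm_num)
  rw [hq, hvv] at h2
  linarith

lemma noise_pos {k : ℕ} (hk : 1 ≤ k) (hkl : k ≤ l) (hn : l + k ≤ n) :
    0 < ∫ Z : Finset (Fin n) → ℝ, lam l (2 * k) Z ∂(G (Finset (Fin n))) := by
  have h : l ≤ n := by omega
  obtain ⟨I⟩ := nonempty_sub (n := n) (l := l) h
  have hdeg := deg_lower (k := k) I.1 I.2
  have hpos : 0 < l.choose k * (n - l).choose k :=
    Nat.mul_pos (Nat.choose_pos hkl) (Nat.choose_pos (by omega))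
  obtain ⟨J, hJ⟩ := Finset.card_pos.mp (hpos.trans_le hdeg)
  rw [Finset.mem_filter] at hJ
  have hmp := measurePreserving_eval (fun _ : Finset (Fin n) => gaussianReal 0 1)
    (symmDiff I.1 J.1)
  have hc : ∫ Z : Finset (Fin n) → ℝ, |Z (symmDiff I.1 J.1)| ∂(G (Finset (Fin n))) = c1 := by
    unfold c1
    conv_rhs => rw [← hmp.map_eq]
    rw [integral_map hmp.measurable.aemeasurable]
    rw [hmp.map_eq]
    exact integrable_abs_gauss.aestronglyMeasurable
  refine lt_of_lt_of_le c1_pos ?_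
  rw [← hc]
  apply integral_mono (hmp.integrable_comp_of_integrable integrable_abs_gauss)
    (lam_integrable h k hkl)
  intro Z
  exact lam_ge_abs hk h hJ.2 Z

end Pos

lemma choose_low_l {k l : ℕ} (hk : 1 ≤ k) (hkl : k ≤ l) :
    ((l : ℝ) / k) ^ k / k.factorial ≤ l.choose k := by
  have hkR : (0 : ℝ) < k := by exact_mod_cast hk
  have h1 := Nat.pow_le_choose (α := ℝ) k l
  refine le_trans ?_ h1
  have h2 : (l : ℝ) / k ≤ ((l + 1 - k : ℕ) : ℝ) := by
    rw [div_le_iff₀ hkR]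
    have h3 : l ≤ (l + 1 - k) * k := by
      obtain ⟨d, rfl⟩ := Nat.exists_eq_add_of_le hkl
      have : k + d + 1 - k = d + 1 := by omega
      rw [this]
      nlinarith
    exact_mod_cast h3
  gcongr

lemma choose_low_n {k l n : ℕ} (hn : 2 * (l + k) ≤ n) :
    ((n : ℝ) / 2) ^ k / k.factorial ≤ (n - l).choose k := by
  have h1 := Nat.pow_le_choose (α := ℝ) k (n - l)
  refine le_trans ?_ h1
  have h2 : (n : ℝ) / 2 ≤ ((n - l + 1 - k : ℕ) : ℝ) := by
    rw [div_le_iff₀ (by norm_num)]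
    have h3 : n ≤ (n - l + 1 - k) * 2 := by omega
    exact_mod_cast h3
  gcongr

/-- Signal against noise. -/
theorem signal_noise {k : ℕ} (hk : 1 ≤ k) :
    ∃ c : ℝ, 0 < c ∧ ∀ l : ℕ, k ≤ l → ∀ m : ℝ, 0 ≤ m → ∀ᶠ n : ℕ in atTop,
      0 < ∫ Z : Finset (Fin n) → ℝ, lam l (2 * k) Z ∂(G (Finset (Fin n))) ∧
      c * m * √((l : ℝ) ^ (k - 1)) *
        ∫ Z : Finset (Fin n) → ℝ, lam l (2 * k) Z ∂(G (Finset (Fin n)))
        ≤ ∫ Z : Finset (Fin n) → ℝ, lam l (2 * k)
          (fun S => m * (√((n : ℝ) ^ k))⁻¹ + Z S) ∂(G (Finset (Fin n))) := by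
  have hkR : (0 : ℝ) < k := by exact_mod_cast hk
  have hC := Cg_pos
  have hR : 0 < (Col k).card := by
    apply Finset.card_pos.mpr
    refine ⟨((0, 0), (∅, ∅)), ?_⟩
    unfold Col
    simp only [Finset.mem_product, Finset.mem_range, Finset.mem_powerset, Finset.empty_subset,
      and_true]
    omega
  have hRR : (0 : ℝ) < (Col k).card := by exact_mod_cast hR
  set A : ℝ := 4 * (Col k).card * √Cg / (k : ℝ) ^ 2 with hA
  have hCs : 0 < √Cg := Real.sqrt_pos.mpr hC
  have hApos : 0 < A := by positivity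
  set c2 : ℝ := 1 / ((k : ℝ) ^ k * k.factorial * (2 ^ k * k.factorial)) with hc2
  have hc2pos : 0 < c2 := by positivity
  refine ⟨c2 / A, by positivity, fun l hkl m hm => ?_⟩
  have hl : 1 ≤ l := hk.trans hkl
  have hlR : (0 : ℝ) < l := by exact_mod_cast hl
  have hev : ∀ᶠ n : ℕ in atTop, 2 * n ^ l ≤ 2 ^ n := by
    have ht := tendsto_pow_const_div_const_pow_of_one_lt l (r := (2 : ℝ)) (by norm_num)
    have := ht.eventually_le_const (u := 1 / 2) (by norm_num)
    filter_upwards [this] with n hn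
    rw [div_le_iff₀ (by positivity)] at hn
    have h2 : (2 : ℝ) * n ^ l ≤ 2 ^ n := by linarith
    exact_mod_cast h2
  filter_upwards [hev, eventually_ge_atTop (2 * (l + k) + 2)] with n hn1 hn2
  have hln : l ≤ n := by omega
  have hn0 : 0 < n := by omega
  have hnR : (0 : ℝ) < n := by exact_mod_cast hn0
  refine ⟨noise_pos hk hkl (by omega), ?_⟩
  -- the dyadic exponent
  obtain ⟨j, hj1, hj2⟩ : ∃ j : ℕ, 2 ^ (j + 1) ≤ n ∧ n ≤ 2 ^ (j + 2) := by
    have h1 : 1 ≤ Nat.log 2 n := by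
      exact Nat.log_pos (by norm_num) (by omega)
    refine ⟨Nat.log 2 n - 1, ?_, ?_⟩
    · rw [Nat.sub_add_cancel h1]
      exact Nat.pow_log_le_self 2 (by omega)
    · have := Nat.lt_pow_succ_log_self (b := 2) (by norm_num) n
      have e : Nat.log 2 n - 1 + 2 = (Nat.log 2 n).succ := by omega
      rw [e]
      exact this.le
  have hnoise := noise_upper hln hk hkl j hj1 hj2 hn1
  set L : ℝ := √((l : ℝ) ^ (k - 1)) with hL
  set Nn : ℝ := √((n : ℝ) ^ k) with hNn
  have hL0 : 0 < L := Real.sqrt_pos.mpr (by positivity)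
  have hN0 : 0 < Nn := Real.sqrt_pos.mpr (by positivity)
  have hL2 : L * L = (l : ℝ) ^ (k - 1) := Real.mul_self_sqrt (by positivity)
  have hN2 : Nn * Nn = (n : ℝ) ^ k := Real.mul_self_sqrt (by positivity)
  have hD : √((Dg n l k : ℝ) * (Cg * n)) ≤ √Cg * (L * Nn) := by
    rw [hL, hNn, ← Real.sqrt_mul (by positivity), ← Real.sqrt_mul (by positivity)]
    apply Real.sqrt_le_sqrt
    have h1 : (Dg n l k : ℝ) ≤ (l : ℝ) ^ (k - 1) * (n : ℝ) ^ (k - 1) := by
      unfold Dg
      have a1 : (l - 1).choose (k - 1) ≤ l ^ (k - 1) :=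
        (Nat.choose_le_pow (l - 1) (k - 1)).trans (Nat.pow_le_pow_left (by omega) _)
      have a2 : n.choose (k - 1) ≤ n ^ (k - 1) := Nat.choose_le_pow n (k - 1)
      have := Nat.mul_le_mul a1 a2
      exact_mod_cast this
    calc (Dg n l k : ℝ) * (Cg * n) ≤ ((l : ℝ) ^ (k - 1) * (n : ℝ) ^ (k - 1)) * (Cg * n) := by
          gcongr
      _ = Cg * ((l : ℝ) ^ (k - 1) * ((n : ℝ) ^ (k - 1) * n)) := by ring
      _ = Cg * ((l : ℝ) ^ (k - 1) * (n : ℝ) ^ k) := by
          rw [← pow_succ, Nat.sub_add_cancel hk]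
  have hnoise2 : ∫ Z : Finset (Fin n) → ℝ, lam l (2 * k) Z ∂(G (Finset (Fin n)))
      ≤ A * l * (L * Nn) := by
    refine hnoise.trans ?_
    calc (l : ℝ) / (k : ℝ) ^ 2 * ((Col k).card * (2 * (2 * √((Dg n l k : ℝ) * (Cg * n)))))
        ≤ (l : ℝ) / (k : ℝ) ^ 2 * ((Col k).card * (2 * (2 * (√Cg * (L * Nn))))) := by gcongr
      _ = A * l * (L * Nn) := by rw [hA]; ring
  have hsig := signal_lower (n := n) hln hkl (s := m * Nn⁻¹) (by positivity)
  refine le_trans ?_ hsig
  have h1 := choose_low_l hk hkl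
  have h2 := choose_low_n (k := k) (l := l) (n := n) (by omega)
  have h3 : c2 * (l : ℝ) ^ k * (Nn * Nn) ≤ ((l.choose k * (n - l).choose k : ℕ) : ℝ) := by
    push_cast
    calc c2 * (l : ℝ) ^ k * (Nn * Nn)
        = (((l : ℝ) / k) ^ k / k.factorial) * (((n : ℝ) / 2) ^ k / k.factorial) := by
          rw [hN2, hc2, div_pow, div_pow]
          field_simp
      _ ≤ _ := by gcongr
  calc c2 / A * m * L * ∫ Z : Finset (Fin n) → ℝ, lam l (2 * k) Z ∂(G (Finset (Fin n)))
      ≤ c2 / A * m * L * (A * l * (L * Nn)) := by gcongr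
    _ = c2 * m * (l * (L * L)) * Nn := by field_simp
    _ = c2 * m * (l : ℝ) ^ k * Nn := by
        rw [hL2, ← pow_succ', Nat.sub_add_cancel hk]
    _ = m * Nn⁻¹ * (c2 * (l : ℝ) ^ k * (Nn * Nn)) := by field_simp
    _ ≤ m * Nn⁻¹ * ((l.choose k * (n - l).choose k : ℕ) : ℝ) := by gcongr

end Pool.Agent.Lib.Pd47e08
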