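import Pool.Agent.Lib.Pd47e08.Kik

/-!
The case `r = 2`: below the signal strength `n^(-1/2)` the largest eigenvalue of the Kikuchi
matrix does not move.
-/

open MeasureTheory ProbabilityTheory

set_option linter.unusedSectionVars false
set_option linter.unusedSimpArgs false

namespace Pool.Agent.Lib.Pd47e08

section Two

variable {n l : ℕ}

lemma chi_symmDiff (x : Fin n → ℤˣ) (I J : Finset (Fin n)) :
    chi x (symmDiff I J) = chi x I * chi x J := by
  unfold chi
  set f : Fin n → ℝ := fun i => ((x i : ℤ) : ℝ) with hf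
  have h1 : ∏ i ∈ symmDiff I J, f i = (∏ i ∈ I \ J, f i) * ∏ i ∈ J \ I, f i := by
    rw [symmDiff_def, Finset.sup_eq_union, Finset.prod_union disjoint_sdiff_sdiff]
  have h2 := Finset.prod_inter_mul_prod_sdiff I J f
  have h3 := Finset.prod_inter_mul_prod_sdiff J I f
  rw [Finset.inter_comm J I] at h3
  have h4 : (∏ i ∈ I ∩ J, f i) ^ 2 = 1 := chi_sq x (I ∩ J)
  rw [h1, ← h2, ← h3]
  linear_combination (-(∏ i ∈ I \ J, f i) * ∏ i ∈ J \ I, f i) * h4

lemma qf_sign (r : ℕ) (x : Fin n → ℤˣ) (Z : Finset (Fin n) → ℝ)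
    (v : {K : Finset (Fin n) // K.card = l} → ℝ) :
    qf r (fun S => chi x S * Z S) v = qf r Z (fun I => chi x I.1 * v I) := by
  unfold qf
  apply Finset.sum_congr rfl
  intro I _
  apply Finset.sum_congr rfl
  intro J _
  split_ifs
  · beta_reduce
    rw [chi_symmDiff]; ring
  · rfl

lemma sphere_sign (x : Fin n → ℤˣ) (v : {K : Finset (Fin n) // K.card = l} → ℝ) :
    dotProduct (fun I => chi x I.1 * v I) (fun I => chi x I.1 * v I) = dotProduct v v := by
  unfold dotProduct
  apply Finset.sum_congr rfl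
  intro I _
  have := chi_sq x I.1
  linear_combination (v I * v I) * this

lemma lam_sign (r : ℕ) (x : Fin n → ℤˣ) (Z : Finset (Fin n) → ℝ) :
    lam l r (fun S => chi x S * Z S) = lam l r Z := by
  unfold lam
  congr 1
  ext t
  constructor
  · rintro ⟨v, hv, rfl⟩
    exact ⟨fun I => chi x I.1 * v I, by rw [sphere_sign, hv], qf_sign r x Z v⟩
  · rintro ⟨v, hv, rfl⟩
    refine ⟨fun I => chi x I.1 * v I, by rw [sphere_sign, hv], ?_⟩
    rw [qf_sign]
    congr 1
    funext I
    have := chi_sq x I.1
    linear_combination (-v I) * this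

/-- Bilinear form. -/
noncomputable def bf (r : ℕ) (Z : Finset (Fin n) → ℝ)
    (v w : {K : Finset (Fin n) // K.card = l} → ℝ) : ℝ :=
  ∑ I, ∑ J, if (symmDiff I.1 J.1).card = r then v I * w J * Z (symmDiff I.1 J.1) else 0

lemma bf_comm (r : ℕ) (Z : Finset (Fin n) → ℝ)
    (v w : {K : Finset (Fin n) // K.card = l} → ℝ) : bf r Z v w = bf r Z w v := by
  unfold bf
  rw [Finset.sum_comm]
  apply Finset.sum_congr rfl
  intro I _
  apply Finset.sum_congr rfl
  intro J _
  rw [symmDiff_comm]
  split_ifs <;> ring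

lemma qf_polar (r : ℕ) (Z : Finset (Fin n) → ℝ)
    (v w : {K : Finset (Fin n) // K.card = l} → ℝ) :
    qf r Z (v + w) - qf r Z (v - w) = 4 * bf r Z v w := by
  have h1 : qf r Z (v + w) - qf r Z (v - w) = 2 * bf r Z v w + 2 * bf r Z w v := by
    unfold qf bf
    rw [← Finset.sum_sub_distrib, Finset.mul_sum, Finset.mul_sum, ← Finset.sum_add_distrib]
    apply Finset.sum_congr rfl
    intro I _
    rw [← Finset.sum_sub_distrib, Finset.mul_sum, Finset.mul_sum, ← Finset.sum_add_distrib]
    apply Finset.sum_congr rfl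
    intro J _
    simp only [Pi.add_apply, Pi.sub_apply]
    split_ifs <;> ring
  rw [h1, bf_comm r Z w v]
  ring

lemma qf_smul (r : ℕ) (Z : Finset (Fin n) → ℝ) (c : ℝ)
    (v : {K : Finset (Fin n) // K.card = l} → ℝ) : qf r Z (c • v) = c ^ 2 * qf r Z v := by
  unfold qf
  rw [Finset.mul_sum]
  apply Finset.sum_congr rfl
  intro I _
  rw [Finset.mul_sum]
  apply Finset.sum_congr rfl
  intro J _
  simp only [Pi.smul_apply, smul_eq_mul]
  split_ifs <;> ring

lemma qf_neg (r : ℕ) (Z : Finset (Fin n) → ℝ)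
    (v : {K : Finset (Fin n) // K.card = l} → ℝ) :
    qf r (fun S => (-1) * Z S) v = - qf r Z v := by
  unfold qf
  rw [← Finset.sum_neg_distrib]
  apply Finset.sum_congr rfl
  intro I _
  rw [← Finset.sum_neg_distrib]
  apply Finset.sum_congr rfl
  intro J _
  split_ifs <;> ring

lemma qf_le_lam_mul (h : l ≤ n) (r : ℕ) (Z : Finset (Fin n) → ℝ)
    (v : {K : Finset (Fin n) // K.card = l} → ℝ) (hv : 0 < dotProduct v v) :
    qf r Z v ≤ lam l r Z * dotProduct v v := by
  set c := dotProduct v v with hc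
  have h1 : dotProduct ((Real.sqrt c)⁻¹ • v) ((Real.sqrt c)⁻¹ • v) = 1 := by
    rw [smul_dotProduct, dotProduct_smul, ← hc, smul_eq_mul, smul_eq_mul, ← mul_assoc, ← sq,
      inv_pow, Real.sq_sqrt hv.le, inv_mul_cancel₀ hv.ne']
  have h2 := qf_le_lam h r Z h1
  rw [qf_smul, inv_pow, Real.sq_sqrt hv.le] at h2
  rw [inv_mul_le_iff₀ hv] at h2
  linarith

/-- Absolute first moment of the standard Gaussian. -/
noncomputable def c1 : ℝ := ∫ x, |x| ∂(gaussianReal 0 1)

lemma integrable_abs_gauss : Integrable (fun x : ℝ => |x|) (gaussianReal 0 1) := by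
  have h := memLp_id_gaussianReal (μ := 0) (v := 1) 1
  have := (memLp_one_iff_integrable.1 h).abs
  exact this

lemma c1_pos : 0 < c1 := by
  unfold c1
  rw [integral_pos_iff_support_of_nonneg (fun x => abs_nonneg x) integrable_abs_gauss]
  have h1 : Function.support (fun x : ℝ => |x|) = {0}ᶜ := by
    ext x; simp
  rw [h1]
  have h2 : gaussianReal 0 1 {(0 : ℝ)} = 0 := by
    have := nullSingletonClass_gaussianReal (μ := 0) (v := 1) one_ne_zero
    exact measure_singleton 0
  rw [measure_compl (measurableSet_singleton 0) (by rw [h2]; exact ENNReal.zero_ne_top), h2]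
  simp

lemma lam_lower_pointwise (hl : 1 ≤ l) (hln : l < n) (Z : Finset (Fin n) → ℝ) :
    2 / Real.sqrt ((n : ℝ) - l) *
      ∑ j ∈ Finset.univ.filter (fun j : Fin n => l ≤ j.val),
        |Z {⟨0, by omega⟩, j}| ≤ lam l 2 Z + lam l 2 (fun S => (-1) * Z S) := by
  classical
  set N : ℝ := (n : ℝ) - l with hN
  have hNpos : 0 < N := by
    rw [hN]
    have : (l : ℝ) < n := by exact_mod_cast hln
    linarith
  set M := Finset.univ.filter (fun j : Fin n => l ≤ j.val) with hM
  have hMc : (M.card : ℝ) = N := by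
    have h1 := Finset.card_filter_add_card_filter_not (s := (Finset.univ : Finset (Fin n)))
      (fun j : Fin n => (j : ℕ) < l)
    have h2 : (Finset.univ.filter fun j : Fin n => ¬ (j : ℕ) < l) = M := by
      rw [hM]; ext j; simp
    rw [Fin.card_filter_val_lt, Finset.card_univ, Fintype.card_fin, h2] at h1
    have h3 : M.card + l = n := by omega
    have h4 : (M.card : ℝ) + l = n := by exact_mod_cast h3
    rw [hN]
    linarith
  let i0 : Fin n := ⟨0, by omega⟩
  let A0 : Finset (Fin n) := Finset.univ.filter (fun j : Fin n => (j : ℕ) < l)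
  have hA0 : A0.card = l := by
    simp only [A0]
    rw [Fin.card_filter_val_lt]
    omega
  have hi0 : i0 ∈ A0 := by
    simp only [A0, i0, Finset.mem_filter, Finset.mem_univ, true_and]
    omega
  have hjA : ∀ j ∈ M, j ∉ A0 := by
    intro j hj
    simp only [hM, A0, Finset.mem_filter, Finset.mem_univ, true_and] at hj ⊢
    omega
  have hJc : ∀ j ∈ M, (insert j (A0.erase i0)).card = l := by
    intro j hj
    rw [Finset.card_insert_of_notMem (fun h => hjA j hj (Finset.mem_of_mem_erase h)),
      Finset.card_erase_of_mem hi0, hA0]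
    omega
  let I0 : {K : Finset (Fin n) // K.card = l} := ⟨A0, hA0⟩
  let s : Fin n → ℝ := fun j => if 0 ≤ Z {i0, j} then 1 else -1
  have hs2 : ∀ j, s j * s j = 1 := by
    intro j; simp only [s]; split_ifs <;> norm_num
  have hsZ : ∀ j, s j * Z {i0, j} = |Z {i0, j}| := by
    intro j
    simp only [s]
    split_ifs with h
    · rw [one_mul, abs_of_nonneg h]
    · rw [abs_of_neg (not_le.1 h)]; ring
  -- injectivity of `j ↦ J_j`
  have hinj : ∀ j ∈ M, ∀ j' ∈ M, insert j (A0.erase i0) = insert j' (A0.erase i0) → j = j' := by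
    intro j hj j' hj' h
    have h1 : j ∈ insert j' (A0.erase i0) := h ▸ Finset.mem_insert_self j _
    rcases Finset.mem_insert.1 h1 with h2 | h2
    · exact h2
    · exact absurd (Finset.mem_of_mem_erase h2) (hjA j hj)
  have hsd : ∀ j ∈ M, symmDiff A0 (insert j (A0.erase i0)) = {i0, j} := by
    intro j hj
    have hj' := hjA j hj
    have hne : j ≠ i0 := fun h => hj' (h ▸ hi0)
    ext a
    simp only [Finset.mem_symmDiff, Finset.mem_insert, Finset.mem_erase, Finset.mem_singleton]
    constructor
    · rintro (⟨h1, h2⟩ | ⟨h1, h2⟩)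
      · push Not at h2
        by_contra hcon
        push Not at hcon
        exact h2.2 hcon.1 h1
      · rcases h1 with h1 | h1
        · exact Or.inr h1
        · exact absurd h1.2 h2
    · rintro (rfl | rfl)
      · left
        refine ⟨hi0, ?_⟩
        rintro (h | h)
        · exact hne h.symm
        · exact h.1 rfl
      · right
        exact ⟨Or.inl rfl, hj'⟩
  have hneA : ∀ j ∈ M, insert j (A0.erase i0) ≠ A0 := by
    intro j hj h
    exact hjA j hj (h ▸ Finset.mem_insert_self j _)
  let w : {K : Finset (Fin n) // K.card = l} → ℝ := fun J =>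
    ∑ j ∈ M, if J.1 = insert j (A0.erase i0) then s j else 0
  let v : {K : Finset (Fin n) // K.card = l} → ℝ := fun J =>
    if J = I0 then Real.sqrt N else 0
  -- sums against `w`
  have hsumw : ∀ g : {K : Finset (Fin n) // K.card = l} → ℝ,
      ∑ J, g J * w J = ∑ j ∈ M.attach, g ⟨insert j.1 (A0.erase i0), hJc j.1 j.2⟩ * s j.1 := by
    intro g
    simp only [w, Finset.mul_sum]
    rw [Finset.sum_comm]
    rw [← Finset.sum_attach]
    apply Finset.sum_congr rfl
    intro j _
    rw [Finset.sum_eq_single (⟨insert j.1 (A0.erase i0), hJc j.1 j.2⟩ :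
      {K : Finset (Fin n) // K.card = l})]
    · rw [if_pos rfl]
    · intro J _ hJ
      rw [if_neg, mul_zero]
      intro h
      exact hJ (Subtype.ext h)
    · intro h
      exact absurd (Finset.mem_univ _) h
  have hwval : ∀ j : M, w ⟨insert j.1 (A0.erase i0), hJc j.1 j.2⟩ = s j.1 := by
    intro j
    simp only [w]
    rw [Finset.sum_eq_single j.1]
    · rw [if_pos rfl]
    · intro b hb hbj
      rw [if_neg]
      intro h
      exact hbj (hinj _ hb _ j.2 h.symm)
    · intro h
      exact absurd j.2 h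
  have hww : dotProduct w w = N := by
    unfold dotProduct
    rw [hsumw w, ← hMc]
    simp only [hwval, hs2]
    simp
  have hvv : dotProduct v v = N := by
    unfold dotProduct
    simp only [v, mul_ite, ite_mul, zero_mul, mul_zero]
    rw [Finset.sum_eq_single I0]
    · simp only [if_true]
      exact Real.mul_self_sqrt hNpos.le
    · intro b _ hb
      simp [hb]
    · intro h
      exact absurd (Finset.mem_univ _) h
  have hvw : dotProduct v w = 0 := by
    unfold dotProduct
    rw [hsumw v]
    apply Finset.sum_eq_zero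
    intro j _
    simp only [v]
    rw [if_neg, zero_mul]
    intro h
    exact hneA j.1 j.2 (congrArg Subtype.val h)
  have hbf : bf 2 Z v w = Real.sqrt N * ∑ j ∈ M, |Z {i0, j}| := by
    unfold bf
    rw [Finset.sum_eq_single I0]
    · have h1 : ∀ J : {K : Finset (Fin n) // K.card = l},
          (if (symmDiff I0.1 J.1).card = 2 then v I0 * w J * Z (symmDiff I0.1 J.1) else 0)
          = (if (symmDiff I0.1 J.1).card = 2 then Real.sqrt N * Z (symmDiff I0.1 J.1) else 0)
            * w J := by
        intro J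
        have : v I0 = Real.sqrt N := by simp [v]
        rw [this]
        split_ifs <;> ring
      simp only [h1]
      rw [hsumw, Finset.mul_sum, ← Finset.sum_attach M]
      apply Finset.sum_congr rfl
      intro j _
      have h2 : symmDiff I0.1 (insert j.1 (A0.erase i0)) = {i0, j.1} := hsd j.1 j.2
      have h3 : ({i0, j.1} : Finset (Fin n)).card = 2 := by
        apply Finset.card_pair
        intro h
        exact hjA j.1 j.2 (h ▸ hi0)
      rw [h2, if_pos h3, mul_assoc, mul_comm (Z _), hsZ]
    · intro b _ hb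
      apply Finset.sum_eq_zero
      intro J _
      have : v b = 0 := by simp [v, hb]
      rw [this]
      split_ifs <;> ring
    · intro h
      exact absurd (Finset.mem_univ _) h
  have hp : dotProduct (v + w) (v + w) = 2 * N := by
    rw [add_dotProduct, dotProduct_add, dotProduct_add, dotProduct_comm w v, hvv, hww, hvw]
    ring
  have hm : dotProduct (v - w) (v - w) = 2 * N := by
    rw [sub_dotProduct, dotProduct_sub, dotProduct_sub, dotProduct_comm w v, hvv, hww, hvw]
    ring
  have e1 := qf_le_lam_mul hln.le 2 Z (v + w) (by rw [hp]; positivity)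
  have e2 := qf_le_lam_mul hln.le 2 (fun S => (-1) * Z S) (v - w) (by rw [hm]; positivity)
  rw [hp] at e1
  rw [hm, qf_neg] at e2
  have e3 := qf_polar 2 Z v w
  rw [hbf] at e3
  have e4 : 4 * (Real.sqrt N * ∑ j ∈ M, |Z {i0, j}|)
      ≤ 2 * N * (lam l 2 Z + lam l 2 (fun S => (-1) * Z S)) := by linarith
  have hsq : Real.sqrt N * Real.sqrt N = N := Real.mul_self_sqrt hNpos.le
  have hsqpos : 0 < Real.sqrt N := Real.sqrt_pos.2 hNpos
  rw [div_mul_eq_mul_div, div_le_iff₀ hsqpos]
  have e5 : 4 * (Real.sqrt N * ∑ j ∈ M, |Z {i0, j}|)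
      ≤ (2 * (lam l 2 Z + lam l 2 (fun S => (-1) * Z S)) * Real.sqrt N) * Real.sqrt N := by
    refine e4.trans (le_of_eq ?_)
    linear_combination (-(2 * (lam l 2 Z + lam l 2 (fun S => (-1) * Z S)))) * hsq
  have e6 : (4 * ∑ j ∈ M, |Z {i0, j}|) * Real.sqrt N
      ≤ (2 * (lam l 2 Z + lam l 2 (fun S => (-1) * Z S)) * Real.sqrt N) * Real.sqrt N := by
    calc _ = 4 * (Real.sqrt N * ∑ j ∈ M, |Z {i0, j}|) := by ring
      _ ≤ _ := e5
  have e7 := le_of_mul_le_mul_right e6 hsqpos
  have e8 : 2 * ∑ j ∈ M, |Z {i0, j}| ≤ (lam l 2 Z + lam l 2 (fun S => (-1) * Z S)) * Real.sqrt N := by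
    linarith
  exact e8

end Two

end Pool.Agent.Lib.Pd47e08
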