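import Pool.Agent.Lib.Pd47e08.WickCount
import Pool.Agent.Lib.Pd47e08.Gin

/-!
Trace moments of random matrices as sums over walks, and the comparison with a Ginibre matrix.
-/

open MeasureTheory ProbabilityTheory Matrix

set_option linter.unusedSectionVars false
set_option linter.unusedSimpArgs false

namespace Pool.Agent.Lib.Pd47e08

section Walk

variable {I Λ : Type*} [Fintype I] [DecidableEq I]

open Classical in
/-- Sum of `F` over the label words of walks from `z` to `z0`. -/
noncomputable def PS (mask : Bool → I → I → Prop) (lab : Bool → I → I → Λ) (z0 : I) :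
    List Bool → I → (List Λ → ℝ) → ℝ
  | [], z, F => if z = z0 then F [] else 0
  | b :: t, z, F => ∑ z', if mask b z z' then
      PS mask lab z0 t z' (fun w => F (lab b z z' :: w)) else 0

variable {mask : Bool → I → I → Prop} {lab : Bool → I → I → Λ} {z0 : I}

lemma PS_congr (Q : Λ → Prop) (hQ : ∀ b z z', mask b z z' → Q (lab b z z')) :
    ∀ (t : List Bool) (z : I) (F F' : List Λ → ℝ),
    (∀ w : List Λ, w.length = t.length → (∀ x ∈ w, Q x) → F w = F' w) →
    PS mask lab z0 t z F = PS mask lab z0 t z F'
  | [], z, F, F', h => by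
    unfold PS
    rw [h [] rfl (by simp)]
  | b :: t, z, F, F', h => by
    unfold PS
    apply Finset.sum_congr rfl
    intro z' _
    split_ifs with hm
    · apply PS_congr Q hQ
      intro w hw hwQ
      apply h
      · simp [hw]
      · intro x hx
        rcases List.mem_cons.mp hx with rfl | hx
        · exact hQ b z z' hm
        · exact hwQ x hx
    · rfl

lemma PS_mono (Q : Λ → Prop) (hQ : ∀ b z z', mask b z z' → Q (lab b z z')) :
    ∀ (t : List Bool) (z : I) (F F' : List Λ → ℝ),
    (∀ w : List Λ, w.length = t.length → (∀ x ∈ w, Q x) → F w ≤ F' w) →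
    PS mask lab z0 t z F ≤ PS mask lab z0 t z F'
  | [], z, F, F', h => by
    unfold PS
    split_ifs
    · exact h [] rfl (by simp)
    · exact le_rfl
  | b :: t, z, F, F', h => by
    unfold PS
    apply Finset.sum_le_sum
    intro z' _
    split_ifs with hm
    · apply PS_mono Q hQ
      intro w hw hwQ
      apply h
      · simp [hw]
      · intro x hx
        rcases List.mem_cons.mp hx with rfl | hx
        · exact hQ b z z' hm
        · exact hwQ x hx
    · exact le_rfl

lemma PS_sum {κ : Type*} (K : Finset κ) : ∀ (t : List Bool) (z : I) (F : κ → List Λ → ℝ),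
    PS mask lab z0 t z (fun w => ∑ k ∈ K, F k w) = ∑ k ∈ K, PS mask lab z0 t z (F k)
  | [], z, F => by
    unfold PS
    split_ifs <;> simp
  | b :: t, z, F => by
    unfold PS
    rw [Finset.sum_comm]
    apply Finset.sum_congr rfl
    intro z' _
    split_ifs with hm
    · exact PS_sum K t z' (fun k w => F k (lab b z z' :: w))
    · simp

lemma PS_zero : ∀ (t : List Bool) (z : I), PS mask lab z0 t z (fun _ => 0) = 0
  | [], z => by
    unfold PS
    simp
  | b :: t, z => by
    unfold PS
    apply Finset.sum_eq_zero
    intro z' _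
    split_ifs with hm
    · exact PS_zero t z'
    · rfl

lemma PS_mul (c : ℝ) : ∀ (t : List Bool) (z : I) (F : List Λ → ℝ),
    PS mask lab z0 t z (fun w => c * F w) = c * PS mask lab z0 t z F
  | [], z, F => by
    unfold PS
    simp
  | b :: t, z, F => by
    unfold PS
    rw [Finset.mul_sum]
    apply Finset.sum_congr rfl
    intro z' _
    split_ifs with hm
    · exact PS_mul c t z' (fun w => F (lab b z z' :: w))
    · simp

lemma PS_nonneg (t : List Bool) (z : I) (F : List Λ → ℝ) (hF : ∀ w, 0 ≤ F w) :
    0 ≤ PS mask lab z0 t z F := by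
  rw [← PS_zero t z]
  exact PS_mono (fun _ => True) (fun _ _ _ _ => trivial) t z _ _ fun w _ _ => hF w

lemma PS_integral {Ω : Type*} [MeasurableSpace Ω] (μ : Measure Ω) :
    ∀ (t : List Bool) (z : I) (F : Ω → List Λ → ℝ), (∀ w, Integrable (fun ω => F ω w) μ) →
    Integrable (fun ω => PS mask lab z0 t z (F ω)) μ ∧
    ∫ ω, PS mask lab z0 t z (F ω) ∂μ = PS mask lab z0 t z (fun w => ∫ ω, F ω w ∂μ)
  | [], z, F, h => by
    unfold PS
    split_ifs
    · exact ⟨h [], rfl⟩
    · simp
  | b :: t, z, F, h => by
    classical
    unfold PS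
    have h1 : ∀ z' ∈ (Finset.univ : Finset I), Integrable (fun ω => if mask b z z' then
        PS mask lab z0 t z' (fun w => F ω (lab b z z' :: w)) else 0) μ := by
      intro z' _
      split_ifs with hm
      · exact (PS_integral μ t z' (fun ω w => F ω (lab b z z' :: w)) fun w => h _).1
      · simp
    refine ⟨integrable_finsetSum _ h1, ?_⟩
    rw [integral_finsetSum _ h1]
    apply Finset.sum_congr rfl
    intro z' _
    split_ifs with hm
    · exact (PS_integral μ t z' (fun ω w => F ω (lab b z z' :: w)) fun w => h _).2
    · simp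

open Classical in
/-- The random matrices. -/
noncomputable def entM (mask : Bool → I → I → Prop) (lab : Bool → I → I → Λ) (Z : Λ → ℝ)
    (b : Bool) : Matrix I I ℝ :=
  Matrix.of fun z z' => if mask b z z' then Z (lab b z z') else 0

lemma PS_matrix (Z : Λ → ℝ) : ∀ (t : List Bool) (z : I),
    ((t.map (entM mask lab Z)).prod) z z0 = PS mask lab z0 t z (fun w => (w.map Z).prod)
  | [], z => by
    unfold PS
    simp [Matrix.one_apply]
  | b :: t, z => by
    unfold PS
    simp only [List.map_cons, List.prod_cons]
    rw [Matrix.mul_apply]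
    apply Finset.sum_congr rfl
    intro z' _
    rw [PS_matrix Z t z']
    unfold entM
    simp only [Matrix.of_apply]
    split_ifs with hm
    · rw [PS_mul]
    · simp

/-- Alternating word. -/
def bits (p : ℕ) : List Bool := (List.replicate p [true, false]).flatten

lemma bits_length (p : ℕ) : (bits p).length = 2 * p := by
  simp [bits]
  ring

lemma bits_prod (f : Bool → Matrix I I ℝ) (p : ℕ) :
    ((bits p).map f).prod = (f true * f false) ^ p := by
  induction p with
  | zero => simp [bits]
  | succ p ih =>
    have : bits (p + 1) = true :: false :: bits p := by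
      simp [bits, List.replicate_succ]
    rw [this]
    simp only [List.map_cons, List.prod_cons]
    rw [ih, ← mul_assoc, pow_succ']

lemma trace_eq_PS (Z : Λ → ℝ) (p : ℕ) :
    ((entM mask lab Z true * entM mask lab Z false) ^ p).trace
      = ∑ z, PS mask lab z (bits p) z (fun w => (w.map Z).prod) := by
  unfold Matrix.trace
  apply Finset.sum_congr rfl
  intro z _
  rw [Matrix.diag_apply, ← bits_prod, PS_matrix]

end Walk

section Compare

variable {A K UA LK : Type*} [Fintype A] [DecidableEq A] [Fintype K] [DecidableEq K]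
  [Fintype UA] [DecidableEq UA] [Fintype LK] [DecidableEq LK]

lemma PS_le_tot {mask : Bool → A × K → A × K → Prop} {lab : Bool → A × K → A × K → UA × LK}
    {labA : Bool → A → A → UA} {labK : Bool → K → K → LK} {maskK : Bool → K → K → Prop}
    {φ : Bool → LK → K → Option K}
    (h1 : ∀ b z z', lab b z z' = (labA b z.1 z'.1, labK b z.2 z'.2))
    (h2 : ∀ b z z', mask b z z' → maskK b z.2 z'.2)
    (h3 : ∀ b k k', maskK b k k' → φ b (labK b k k') k = some k') (a0 : A) (k0 : K) :
    ∀ (t : List Bool) (a : A) (k : K) (F : List (UA × LK) → ℝ), (∀ w, 0 ≤ F w) →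
      PS mask lab (a0, k0) t (a, k) F
        ≤ PS (fun _ _ _ => True) labA a0 t a (fun u => tot (u.zip (t.map φ)) k F)
  | [], a, k, F, hF => by
    unfold PS
    by_cases ha : a = a0
    · simp only [ha, Prod.mk.injEq, true_and, List.zip_nil_left, tot, if_true]
      split_ifs
      · exact le_rfl
      · exact hF []
    · simp [ha]
  | b :: t, a, k, F, hF => by
    classical
    unfold PS
    rw [Fintype.sum_prod_type]
    apply Finset.sum_le_sum
    intro a' _
    rw [if_pos trivial]
    have hstep : ∀ k' : K, (if mask b (a, k) (a', k') then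
        PS mask lab (a0, k0) t (a', k') (fun w => F (lab b (a, k) (a', k') :: w)) else 0)
        ≤ PS (fun _ _ _ => True) labA a0 t a' (fun u => if maskK b k k' then
            tot (u.zip (t.map φ)) k' (fun w => F ((labA b a a', labK b k k') :: w)) else 0) := by
      intro k'
      split_ifs with hm hk hk
      · have := PS_le_tot h1 h2 h3 a0 k0 t a' k'
          (fun w => F ((labA b a a', labK b k k') :: w)) (fun w => hF _)
        rw [h1]
        exact this
      · exact absurd (h2 _ _ _ hm) hk
      · apply PS_nonneg
        intro w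
        exact tot_nonneg _ _ _ fun _ => hF _
      · apply PS_nonneg
        intro w
        exact le_rfl
    refine (Finset.sum_le_sum fun k' _ => hstep k').trans ?_
    rw [← PS_sum]
    apply PS_mono (fun _ => True) (fun _ _ _ _ => trivial)
    intro u _ _
    simp only [List.map_cons, List.zip_cons_cons]
    rw [tot]
    have h4 : ∀ c : LK, ((φ b c k).elim 0 fun s' => tot (u.zip (t.map φ)) s'
        (fun w => F ((labA b a a', c) :: w)))
        = ∑ k' : K, if φ b c k = some k' then tot (u.zip (t.map φ)) k'
            (fun w => F ((labA b a a', c) :: w)) else 0 := by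
      intro c
      cases hφ : φ b c k with
      | none => simp
      | some s' =>
        simp only [Option.elim, Option.some.injEq]
        rw [Finset.sum_ite_eq]
        simp
    rw [Finset.sum_congr rfl fun c _ => h4 c, Finset.sum_comm]
    apply Finset.sum_le_sum
    intro k' _
    have hnn : ∀ c ∈ (Finset.univ : Finset LK), 0 ≤ (if φ b c k = some k' then
        tot (u.zip (t.map φ)) k' (fun w => F ((labA b a a', c) :: w)) else 0) := by
      intro c _
      split_ifs
      · exact tot_nonneg _ _ _ fun _ => hF _
      · exact le_rfl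
    by_cases hk : maskK b k k'
    · rw [if_pos hk]
      refine le_trans (le_of_eq ?_)
        (Finset.single_le_sum hnn (Finset.mem_univ (labK b k k')))
      rw [if_pos (h3 b k k' hk)]
    · rw [if_neg hk]
      exact Finset.sum_nonneg hnn

lemma PS_W_le {mask : Bool → A × K → A × K → Prop} {lab : Bool → A × K → A × K → UA × LK}
    {labA : Bool → A → A → UA} {labK : Bool → K → K → LK} {maskK : Bool → K → K → Prop}
    {φ : Bool → LK → K → Option K}
    (h1 : ∀ b z z', lab b z z' = (labA b z.1 z'.1, labK b z.2 z'.2))
    (h2 : ∀ b z z', mask b z z' → maskK b z.2 z'.2)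
    (h3 : ∀ b k k', maskK b k k' → φ b (labK b k k') k = some k')
    (D : ℕ) (h4 : ∀ b k, (Finset.univ.filter fun c : LK => (φ b c k).isSome).card ≤ D)
    (a0 : A) (k0 : K) (t : List Bool) (a : A) (k : K) :
      PS mask lab (a0, k0) t (a, k) W
        ≤ (D : ℝ) ^ (t.length / 2) * PS (fun _ _ _ => True) labA a0 t a W := by
  refine (PS_le_tot h1 h2 h3 a0 k0 t a k W W_nonneg).trans ?_
  rw [← PS_mul]
  apply PS_mono (fun _ => True) (fun _ _ _ _ => trivial)
  intro u hu _
  have hD : DegLe D (u.zip (t.map φ)) := by
    intro p hp s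
    have := List.of_mem_zip (show (p.1, p.2) ∈ u.zip (t.map φ) from hp)
    obtain ⟨b, _, hb⟩ := List.mem_map.mp this.2
    rw [← hb]
    exact h4 b s
  have h5 := tot_W_le D t.length (u.zip (t.map φ)) k (by simp [hu]) hD
  rwa [List.map_fst_zip (by simp [hu])] at h5

lemma count_map_injOn {α β : Type*} [DecidableEq α] [DecidableEq β] (f : α → β) (l : List α)
    (x : α) (h : ∀ y ∈ l, f y = f x → y = x) : (l.map f).count (f x) = l.count x := by
  induction l with
  | nil => simp
  | cons a t ih =>
    rw [List.map_cons, List.count_cons, List.count_cons, ih fun y hy => h y (by simp [hy])]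
    congr 1
    have h2 : (f a == f x) = (a == x) := by
      rw [Bool.eq_iff_iff]
      simp only [beq_iff_eq]
      exact ⟨fun e => h a (by simp) e, fun e => by rw [e]⟩
    rw [h2]

lemma W_map {α β : Type*} [Fintype α] [DecidableEq α] [Fintype β] [DecidableEq β] (f : α → β)
    (l : List α) (h : ∀ x ∈ l, ∀ y ∈ l, f y = f x → y = x) : W (l.map f) = W l := by
  have e1 : ∀ {γ : Type _} [Fintype γ] [DecidableEq γ] (m : List γ),
      W m = ∏ y ∈ m.toFinset, gm (m.count y) := by
    intro γ _ _ m
    unfold W
    symm
    apply Finset.prod_subset (Finset.subset_univ _)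
    intro x _ hx
    rw [List.mem_toFinset] at hx
    rw [List.count_eq_zero_of_not_mem hx, gm_zero]
  have e2 : W (l.map f) = ∏ y ∈ (l.map f).toFinset, gm ((l.map f).count y) := by
    unfold W
    symm
    apply Finset.prod_subset (Finset.subset_univ _)
    intro x _ hx
    rw [List.mem_toFinset] at hx
    rw [List.count_eq_zero_of_not_mem hx, gm_zero]
  have e3 : W l = ∏ y ∈ l.toFinset, gm (l.count y) := e1 l
  rw [e2, e3]
  have e4 : (l.map f).toFinset = l.toFinset.image f := by
    ext y
    simp
  rw [e4, Finset.prod_image]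
  · apply Finset.prod_congr rfl
    intro x hx
    rw [count_map_injOn f l x fun y hy e => h x (List.mem_toFinset.mp hx) y hy e]
  · intro x hx y hy e
    exact (h x (by simpa using hx) y (by simpa using hy) e.symm).symm

/-- Main comparison: trace moments against the Ginibre matrix. -/
lemma compare {n : ℕ} {β : Type*} [Fintype β] [DecidableEq β]
    {mask : Bool → Fin n × K → Fin n × K → Prop}
    {lab : Bool → Fin n × K → Fin n × K → (Fin n × Fin n) × LK}
    {labK : Bool → K → K → LK} {maskK : Bool → K → K → Prop}
    {φ : Bool → LK → K → Option K}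
    (h1 : ∀ b z z', lab b z z' = (if b then (z.1, z'.1) else (z'.1, z.1), labK b z.2 z'.2))
    (h2 : ∀ b z z', mask b z z' → maskK b z.2 z'.2)
    (h3 : ∀ b k k', maskK b k k' → φ b (labK b k k') k = some k')
    (D : ℕ) (h4 : ∀ b k, (Finset.univ.filter fun c : LK => (φ b c k).isSome).card ≤ D)
    (Kg : Finset K) (h5 : ∀ b k k', maskK b k k' → k ∈ Kg)
    (S : (Fin n × Fin n) × LK → β) (Q : (Fin n × Fin n) × LK → Prop)
    (hQ : ∀ b z z', mask b z z' → Q (lab b z z'))
    (hS : ∀ x y, Q x → Q y → S y = S x → y = x) {p : ℕ} (hp : 0 < p) :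
    Integrable (fun Z : β → ℝ =>
      ((entM mask lab (fun x => Z (S x)) true * entM mask lab (fun x => Z (S x)) false) ^ p).trace)
      (G β) ∧
    ∫ Z : β → ℝ,
      ((entM mask lab (fun x => Z (S x)) true * entM mask lab (fun x => Z (S x)) false) ^ p).trace
      ∂(G β) ≤ Kg.card * (D : ℝ) ^ p *
        ∫ g : Fin n × Fin n → ℝ, ((mat g * (mat g)ᵀ) ^ p).trace ∂(G (Fin n × Fin n)) := by
  classical
  have hg : ∀ g : Fin n × Fin n → ℝ, ((mat g * (mat g)ᵀ) ^ p).trace
      = ∑ a, PS (fun _ _ _ => True) (fun (b : Bool) (a a' : Fin n) =>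
          if b then (a, a') else (a', a)) a (bits p) a (fun w => (w.map g).prod) := by
    intro g
    rw [← trace_eq_PS]
    congr 3
    · ext i j
      simp [entM, mat]
    · ext i j
      simp [entM, mat]
  have hgi : ∫ g : Fin n × Fin n → ℝ, ((mat g * (mat g)ᵀ) ^ p).trace ∂(G (Fin n × Fin n))
      = ∑ a, PS (fun _ _ _ => True) (fun (b : Bool) (a a' : Fin n) =>
          if b then (a, a') else (a', a)) a (bits p) a W := by
    simp_rw [hg]
    have hI : ∀ a : Fin n, _ := fun a => PS_integral (mask := fun _ _ _ => True)
      (lab := fun (b : Bool) (a a' : Fin n) => if b then (a, a') else (a', a)) (z0 := a)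
      (G (Fin n × Fin n)) (bits p) a (fun g w => (w.map g).prod)
      (fun w => integrable_prod_map w)
    rw [integral_finsetSum _ fun a _ => (hI a).1]
    apply Finset.sum_congr rfl
    intro a _
    rw [(hI a).2]
    congr 1
    ext w
    exact integral_prod_map w
  have hX : ∀ Z : β → ℝ,
      ((entM mask lab (fun x => Z (S x)) true * entM mask lab (fun x => Z (S x)) false) ^ p).trace
      = ∑ z, PS mask lab z (bits p) z (fun w => ((w.map S).map Z).prod) := by
    intro Z
    rw [trace_eq_PS]
    apply Finset.sum_congr rfl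
    intro z _
    congr 1
    ext w
    rw [List.map_map]
    rfl
  have hXI : ∀ z : Fin n × K, _ := fun z => PS_integral (mask := mask) (lab := lab) (z0 := z)
      (G β) (bits p) z (fun Z w => ((w.map S).map Z).prod)
      (fun w => integrable_prod_map (w.map S))
  simp_rw [hX]
  refine ⟨integrable_finsetSum _ fun z _ => (hXI z).1, ?_⟩
  rw [integral_finsetSum _ fun z _ => (hXI z).1, hgi]
  have h6 : ∀ z : Fin n × K, ∫ Z, PS mask lab z (bits p) z (fun w => ((w.map S).map Z).prod) ∂(G β)
      ≤ if z.2 ∈ Kg then (D : ℝ) ^ p * PS (fun _ _ _ => True) (fun (b : Bool) (a a' : Fin n) =>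
          if b then (a, a') else (a', a)) z.1 (bits p) z.1 W else 0 := by
    intro z
    rw [(hXI z).2]
    have e1 : PS mask lab z (bits p) z (fun w => ∫ Z, ((w.map S).map Z).prod ∂(G β))
        = PS mask lab z (bits p) z W := by
      apply PS_congr Q hQ
      intro w _ hwQ
      rw [integral_prod_map (w.map S)]
      apply W_map
      intro x hx y hy e
      exact hS x y (hwQ x hx) (hwQ y hy) e
    rw [e1]
    split_ifs with hz
    · have := PS_W_le (A := Fin n) (UA := Fin n × Fin n) (mask := mask) (lab := lab)
        (labA := fun (b : Bool) (a a' : Fin n) => if b then (a, a') else (a', a))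
        (labK := labK) (maskK := maskK) (φ := φ)
        h1 h2 h3 D h4 z.1 z.2 (bits p) z.1 z.2
      rw [bits_length, Nat.mul_div_cancel_left _ (by norm_num)] at this
      exact this
    · have hb : bits p = true :: (false :: bits (p - 1)) := by
        obtain ⟨q, rfl⟩ : ∃ q, p = q + 1 := ⟨p - 1, by omega⟩
        simp [bits, List.replicate_succ]
      rw [hb]
      unfold PS
      apply Finset.sum_nonpos
      intro z' _
      rw [if_neg]
      intro hm
      exact hz (h5 _ _ _ (h2 _ _ _ hm))
  refine (Finset.sum_le_sum fun z _ => h6 z).trans (le_of_eq ?_)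
  rw [Fintype.sum_prod_type, Finset.mul_sum]
  apply Finset.sum_congr rfl
  intro a _
  rw [← Finset.sum_filter]
  simp only [Finset.sum_const, nsmul_eq_mul]
  have : (Finset.univ.filter fun k : K => k ∈ Kg) = Kg := by
    ext k
    simp
  rw [this]
  ring

end Compare

end Pool.Agent.Lib.Pd47e08
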