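import Pool.Agent.Lib.Pd47e08.Wick

/-!
Counting words read along deterministic state systems against the Wick functional.
-/

open MeasureTheory ProbabilityTheory

set_option linter.unusedSectionVars false
set_option linter.unusedSimpArgs false

namespace Pool.Agent.Lib.Pd47e08

section Tot

variable {U L S : Type*} [Fintype U] [DecidableEq U] [Fintype L] [DecidableEq L]

/-- Sum of `F` over all words read along a system of partial step maps, started from a state. -/
noncomputable def tot : List (U × (L → S → Option S)) → S → (List (U × L) → ℝ) → ℝ
  | [], _, F => F []
  | (a, φ) :: t, s, F => ∑ c : L, (φ c s).elim 0 (fun s' => tot t s' (fun w => F ((a, c) :: w)))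

lemma tot_congr : ∀ (t : List (U × (L → S → Option S))) (s : S) (F G : List (U × L) → ℝ),
    (∀ w : List (U × L), w.map Prod.fst = t.map Prod.fst → F w = G w) → tot t s F = tot t s G
  | [], _, F, G, h => h [] rfl
  | (a, φ) :: t, s, F, G, h => by
    unfold tot
    apply Finset.sum_congr rfl
    intro c _
    cases hφ : φ c s with
    | none => rfl
    | some s' =>
      simp only [Option.elim]
      apply tot_congr
      intro w hw
      apply h
      simp [hw]

lemma tot_mono : ∀ (t : List (U × (L → S → Option S))) (s : S) (F G : List (U × L) → ℝ),
    (∀ w : List (U × L), F w ≤ G w) → tot t s F ≤ tot t s G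
  | [], _, F, G, h => h []
  | (a, φ) :: t, s, F, G, h => by
    unfold tot
    apply Finset.sum_le_sum
    intro c _
    cases hφ : φ c s with
    | none => exact le_rfl
    | some s' =>
      simp only [Option.elim]
      apply tot_mono
      intro w
      apply h

lemma tot_zero : ∀ (t : List (U × (L → S → Option S))) (s : S),
    tot t s (fun _ => 0) = 0
  | [], _ => rfl
  | (a, φ) :: t, s => by
    unfold tot
    apply Finset.sum_eq_zero
    intro c _
    cases hφ : φ c s with
    | none => rfl
    | some s' =>
      simp only [Option.elim]
      exact tot_zero t s'

lemma tot_nonneg (t : List (U × (L → S → Option S))) (s : S) (F : List (U × L) → ℝ)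
    (h : ∀ w : List (U × L), 0 ≤ F w) : 0 ≤ tot t s F := by
  rw [← tot_zero t s]
  exact tot_mono t s _ _ h

lemma tot_sum {κ : Type*} (K : Finset κ) : ∀ (t : List (U × (L → S → Option S))) (s : S)
    (F : κ → List (U × L) → ℝ),
    tot t s (fun w => ∑ k ∈ K, F k w) = ∑ k ∈ K, tot t s (F k)
  | [], _, F => rfl
  | (a, φ) :: t, s, F => by
    unfold tot
    rw [Finset.sum_comm]
    apply Finset.sum_congr rfl
    intro c _
    cases hφ : φ c s with
    | none => simp
    | some s' =>
      simp only [Option.elim]
      exact tot_sum K t s' (fun k w => F k ((a, c) :: w))

/-- At every step, every state admits at most `D` labels. -/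
def DegLe (D : ℕ) (t : List (U × (L → S → Option S))) : Prop :=
  ∀ p ∈ t, ∀ s : S, (Finset.univ.filter fun c : L => (p.2 c s).isSome).card ≤ D

lemma tot_remove (D : ℕ) (a : U) (c : L) : ∀ (j : ℕ) (t : List (U × (L → S → Option S))),
    DegLe D t → (t.map Prod.fst)[j]? = some a →
    ∃ t' : List (U × (L → S → Option S)), t'.map Prod.fst = (t.map Prod.fst).eraseIdx j ∧
      DegLe D t' ∧ ∀ (s : S) (F : List (U × L) → ℝ), (∀ w, 0 ≤ F w) →
        tot t s (fun w => if w[j]? = some (a, c) then F (w.eraseIdx j) else 0) ≤ tot t' s F
  | _, [], _, h => by simp at h
  | 0, (b, φ) :: t, hD, h => by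
    have hb : b = a := by simpa using h
    subst hb
    cases t with
    | nil =>
      refine ⟨[], by simp, by intro p hp; simp at hp, fun s F hF => ?_⟩
      unfold tot
      have h1 : ∀ c' : L, ((φ c' s).elim 0 fun s' => tot [] s' (fun w =>
          if ((b, c') :: w)[0]? = some (b, c) then F (((b, c') :: w).eraseIdx 0) else 0))
          ≤ if c' = c then F [] else 0 := by
        intro c'
        cases hφ : φ c' s with
        | none =>
          simp only [Option.elim]
          split_ifs
          · exact hF []
          · exact le_rfl
        | some s' =>
          simp only [Option.elim, tot, List.getElem?_cons_zero, Option.some.injEq,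
            Prod.mk.injEq, true_and, List.eraseIdx_cons_zero]
          exact le_rfl
      refine (Finset.sum_le_sum fun c' _ => h1 c').trans ?_
      simp
    | cons q t2 =>
      obtain ⟨d, ψ⟩ := q
      refine ⟨(d, fun e s => (φ c s).bind (ψ e)) :: t2, by simp, ?_, fun s F hF => ?_⟩
      · intro p hp s
        rcases List.mem_cons.mp hp with rfl | hp
        · cases hφ : φ c s with
          | none => simp [hφ]
          | some s' =>
            simp only [hφ, Option.bind_some]
            exact hD (d, ψ) (by simp) s'
        · exact hD p (by simp [hp]) s
      · have h1 : ∀ c' : L, ((φ c' s).elim 0 fun s' => tot ((d, ψ) :: t2) s' (fun w =>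
            if ((b, c') :: w)[0]? = some (b, c) then F (((b, c') :: w).eraseIdx 0) else 0))
            = if c' = c then (φ c s).elim 0 (fun s' => tot ((d, ψ) :: t2) s' F) else 0 := by
          intro c'
          by_cases hc : c' = c
          · subst hc
            rw [if_pos rfl]
            congr 1
            ext s'
            congr 1
            ext w
            simp
          · rw [if_neg hc]
            cases hφ : φ c' s with
            | none => rfl
            | some s' =>
              simp only [Option.elim]
              refine Eq.trans ?_ (tot_zero ((d, ψ) :: t2) s')
              congr 1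
              ext w
              simp [hc]
        have h2 : tot ((b, φ) :: (d, ψ) :: t2) s (fun w =>
            if w[0]? = some (b, c) then F (w.eraseIdx 0) else 0)
            = (φ c s).elim 0 (fun s' => tot ((d, ψ) :: t2) s' F) := by
          rw [tot]
          rw [Finset.sum_congr rfl fun c' _ => h1 c']
          simp
        rw [h2]
        cases hφ : φ c s with
        | none =>
          simp only [Option.elim]
          exact tot_nonneg _ _ _ hF
        | some s' =>
          simp only [Option.elim]
          unfold tot
          apply le_of_eq
          apply Finset.sum_congr rfl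
          intro e _
          simp [hφ]
  | (j + 1), (b, φ) :: t, hD, h => by
    have hD' : DegLe D t := fun p hp s => hD p (by simp [hp]) s
    obtain ⟨t', h1, h2, h3⟩ := tot_remove D a c j t hD' (by simpa using h)
    refine ⟨(b, φ) :: t', by simp [h1], ?_, fun s F hF => ?_⟩
    · intro p hp s
      rcases List.mem_cons.mp hp with rfl | hp
      · exact hD (b, φ) (by simp) s
      · exact h2 p hp s
    · rw [tot, tot]
      apply Finset.sum_le_sum
      intro c' _
      cases hφ : φ c' s with
      | none => exact le_rfl
      | some s' =>
        simp only [Option.elim]
        have h4 := h3 s' (fun w => F ((b, c') :: w)) (fun w => hF _)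
        refine le_trans (le_of_eq ?_) h4
        congr 1
        
/-- The key counting estimate. -/
lemma tot_W_le (D : ℕ) : ∀ (m : ℕ) (t : List (U × (L → S → Option S))) (s : S),
    t.length = m → DegLe D t → tot t s W ≤ (D : ℝ) ^ (m / 2) * W (t.map Prod.fst) := by
  intro m
  induction m using Nat.strong_induction_on with
  | _ m ih =>
    intro t s hm hD
    match t, hm, hD with
    | [], hm, _ =>
      subst hm
      simp [tot, W_nil]
    | (a, φ) :: t, hm, hD =>
      have hlen : t.length + 1 = m := by simpa using hm
      have hD' : DegLe D t := fun p hp s => hD p (by simp [hp]) s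
      have key : ∀ (c : L) (s' : S), tot t s' (fun w => W ((a, c) :: w))
          ≤ (D : ℝ) ^ ((m - 2) / 2) * W (a :: t.map Prod.fst) := by
        intro c s'
        have h1 : tot t s' (fun w => W ((a, c) :: w))
            = tot t s' (fun w => ∑ j ∈ Finset.range t.length,
              if w[j]? = some (a, c) then W (w.eraseIdx j) else 0) := by
          apply tot_congr
          intro w hw
          apply W_cons
          have := congrArg List.length hw
          simp at this
          omega
        rw [h1, tot_sum, W_cons a (t.map Prod.fst) t.length (by simp), Finset.mul_sum]
        apply Finset.sum_le_sum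
        intro j hj
        rw [Finset.mem_range] at hj
        by_cases hja : (t.map Prod.fst)[j]? = some a
        · rw [if_pos hja]
          obtain ⟨t', h2, h3, h4⟩ := tot_remove D a c j t hD' hja
          refine (h4 s' W W_nonneg).trans ?_
          have hl : t'.length = m - 2 := by
            have := congrArg List.length h2
            simp only [List.length_map, List.length_eraseIdx] at this
            rw [if_pos (by simpa using hj)] at this
            omega
          have h5 := ih (m - 2) (by omega) t' s' hl h3
          rwa [h2] at h5
        · rw [if_neg hja, mul_zero]
          apply le_of_eq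
          refine Eq.trans ?_ (tot_zero t s')
          apply tot_congr
          intro w hw
          rw [if_neg]
          intro hwj
          apply hja
          rw [← hw, List.getElem?_map, hwj]
          rfl
      rw [tot]
      have hsum : ∀ c : L, ((φ c s).elim 0 fun s' => tot t s' (fun w => W ((a, c) :: w)))
          ≤ if (φ c s).isSome then (D : ℝ) ^ ((m - 2) / 2) * W (a :: t.map Prod.fst) else 0 := by
        intro c
        cases hφ : φ c s with
        | none => simp
        | some s' =>
          simp only [Option.elim, Option.isSome_some, if_true]
          exact key c s'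
      refine (Finset.sum_le_sum fun c _ => hsum c).trans ?_
      rw [← Finset.sum_filter, Finset.sum_const, nsmul_eq_mul]
      have hdeg := hD (a, φ) (by simp) s
      by_cases h1 : m = 1
      · have ht : t = [] := by
          apply List.eq_nil_of_length_eq_zero
          omega
        subst ht
        have : W [a] = 0 := by
          rw [W_cons a [] 0 (by simp)]
          simp
        simp [this]
      · obtain ⟨q, hq⟩ : ∃ q, m = q + 2 := ⟨m - 2, by omega⟩
        subst hq
        have e : (q + 2) / 2 = q / 2 + 1 := by omega
        rw [e, Nat.add_sub_cancel, pow_succ]
        have hW := W_nonneg (a :: t.map Prod.fst)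
        have hDn : (0 : ℝ) ≤ (D : ℝ) ^ (q / 2) := by positivity
        have hd : (((Finset.univ.filter fun c : L => (φ c s).isSome).card : ℕ) : ℝ) ≤ D := by
          exact_mod_cast hdeg
        calc _ ≤ (D : ℝ) * ((D : ℝ) ^ (q / 2) * W (a :: t.map Prod.fst)) := by
              gcongr
          _ = _ := by
              simp only [List.map_cons]
              ring

end Tot

end Pool.Agent.Lib.Pd47e08
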